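import Pool.Agent.Lib_MP_6b5565_dg.Q.D1a

/-! [QG-D1b] carriers of points (barycentric coordinates are unique by `geom`) -/

namespace QGd

open EuclideanGeometry

namespace Poly

variable (P : Poly)

/-- barycentric coordinates of `x` in the face of `d` -/
private def Rep (d : P.D) (a : P.V → ℝ) (x : E3) : Prop :=
  (∀ v, 0 ≤ a v) ∧ (∀ v, a v ≠ 0 → v ∈ P.verts d) ∧ ∑ v, a v = 1 ∧ ∑ v, a v • P.pos v = x

private theorem Rep.uniq {P : Poly} {d e : P.D} {a b : P.V → ℝ} {x : E3} (h : P.Rep d a x)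
    (h' : P.Rep e b x) : a = b :=
  P.geom d e a b h.1 h'.1 h.2.1 h'.2.1 h.2.2.1 h'.2.2.1 (h.2.2.2.trans h'.2.2.2.symm)

private theorem exists_rep {d : P.D} {x : E3} (h : x ∈ P.tri d) : ∃ a, P.Rep d a x :=
  P.mem_tri_iff.1 h

private theorem rep_single (v : P.V) : ∃ d, P.Rep d (Pi.single v 1) (P.pos v) := by
  obtain ⟨d, hd⟩ := P.surj v
  refine ⟨d, ?_, ?_, by simp, by simp [Pi.single_apply]⟩
  · intro u
    by_cases hu : u = v <;> simp [hu]
  · intro u hu
    by_cases huv : u = v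
    · rw [huv, ← hd]
      unfold verts
      simp
    · exact absurd (by simp [huv]) hu

private theorem verts_eq (d : P.D) : P.verts d = {P.tail d, P.head d, P.tail (P.prev d)} := by
  unfold verts
  rw [head_eq]

/-- a point with support in one vertex -/
private theorem rep_one {P : Poly} {d : P.D} {a : P.V → ℝ} {x : E3} (h : P.Rep d a x) {v : P.V}
    (hv : ∀ u, a u ≠ 0 → u = v) : x = P.pos v := by
  have h1 : ∀ u, u ≠ v → a u = 0 := fun u hu => by
    by_contra h2
    exact hu (hv u h2)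
  have h2 : a v = 1 := by
    rw [← h.2.2.1]
    exact (Finset.sum_eq_single v (fun u _ hu => h1 u hu) (fun h => absurd (Finset.mem_univ _) h)).symm
  rw [← h.2.2.2, Finset.sum_eq_single v (fun u _ hu => by rw [h1 u hu, zero_smul])
    (fun h => absurd (Finset.mem_univ _) h), h2, one_smul]

private theorem seg_rep {d : P.D} {x : E3} (h : x ∈ P.seg d) :
    ∃ a, P.Rep d a x ∧ ∀ v, a v ≠ 0 → v = P.tail d ∨ v = P.head d := by
  obtain ⟨a, h1, h2, h3, h4⟩ := P.mem_seg_iff.1 h
  refine ⟨a, ⟨h1, ?_, h3, h4⟩, h2⟩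
  intro v hv
  rw [verts_eq]
  simp only [Finset.mem_insert, Finset.mem_singleton]
  rcases h2 v hv with h | h
  · exact Or.inl h
  · exact Or.inr (Or.inl h)

private theorem oseg_rep {d : P.D} {x : E3} (h : x ∈ P.oseg d) :
    ∃ a, P.Rep d a x ∧ ∀ v, a v ≠ 0 ↔ v = P.tail d ∨ v = P.head d := by
  obtain ⟨a, h1, h2, h3, h4⟩ := P.mem_oseg_iff.1 h
  refine ⟨a, ⟨h1, ?_, h3, h4⟩, h2⟩
  intro v hv
  rw [verts_eq]
  simp only [Finset.mem_insert, Finset.mem_singleton]
  rcases (h2 v).1 hv with h | h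
  · exact Or.inl h
  · exact Or.inr (Or.inl h)

/-- the edge of a face between two of its vertices -/
private theorem edge_btw {e : P.D} {v w : P.V} (hv : v ∈ P.verts e) (hw : w ∈ P.verts e)
    (hne : v ≠ w) : ∃ f, P.SF e f ∧ ((P.tail f = v ∧ P.head f = w) ∨ (P.tail f = w ∧ P.head f = v)) := by
  rw [verts_eq] at hv hw
  simp only [Finset.mem_insert, Finset.mem_singleton] at hv hw
  have h1 : P.tail (P.nxt e) = P.head e := (P.head_eq e).symm
  have h2 := P.head_nxt e
  have h3 := P.head_prev e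
  rcases hv with hv | hv | hv <;> rcases hw with hw | hw | hw
  · exact absurd (hv.trans hw.symm) hne
  · exact ⟨e, P.SF_refl e, Or.inl ⟨hv.symm, hw.symm⟩⟩
  · exact ⟨P.prev e, P.SF_prev e, Or.inr ⟨hw.symm, h3.trans hv.symm⟩⟩
  · exact ⟨e, P.SF_refl e, Or.inr ⟨hw.symm, hv.symm⟩⟩
  · exact absurd (hv.trans hw.symm) hne
  · exact ⟨P.nxt e, P.SF_nxt e, Or.inl ⟨h1.trans hv.symm, h2.trans hw.symm⟩⟩
  · exact ⟨P.prev e, P.SF_prev e, Or.inl ⟨hv.symm, h3.trans hw.symm⟩⟩
  · exact ⟨P.nxt e, P.SF_nxt e, Or.inr ⟨h1.trans hw.symm, h2.trans hv.symm⟩⟩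
  · exact absurd (hv.trans hw.symm) hne

private theorem edge_same {d e : P.D} (h : (P.tail e = P.tail d ∧ P.head e = P.head d) ∨
    (P.tail e = P.head d ∧ P.head e = P.tail d)) : e = d ∨ e = P.inv d := by
  rcases h with h | h
  · exact Or.inl (P.edge_inj _ _ h.1 h.2)
  · right
    apply P.edge_inj _ _ h.1
    show P.head e = P.head (P.inv d)
    rw [P.tail_eq_head_inv]
    exact h.2

/-- a vertex of `P` in a face is a vertex of the face -/
theorem verts_of_pos_mem {d : P.D} {v : P.V} (h : P.pos v ∈ P.tri d) :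
    ∃ a, P.SF d a ∧ P.tail a = v := by
  obtain ⟨a, ha⟩ := P.exists_rep h
  obtain ⟨e, he⟩ := P.rep_single v
  have h1 := ha.uniq he
  have h2 : v ∈ P.verts d := by
    apply ha.2.1
    rw [h1]
    simp
  rw [verts_eq] at h2
  simp only [Finset.mem_insert, Finset.mem_singleton] at h2
  exact P.exists_tail_of_mem h2

private theorem mem_verts_of_pos {d : P.D} {v : P.V} (h : P.pos v ∈ P.tri d) : v ∈ P.verts d := by
  obtain ⟨a, ha⟩ := P.exists_rep h
  obtain ⟨e, he⟩ := P.rep_single v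
  have h1 := ha.uniq he
  apply ha.2.1
  rw [h1]
  simp

/-- a vertex on an edge is an end point -/
theorem eq_of_pos_mem_seg {d : P.D} {v : P.V} (h : P.pos v ∈ P.seg d) :
    v = P.tail d ∨ v = P.head d := by
  obtain ⟨a, ha, hs⟩ := P.seg_rep h
  obtain ⟨e, he⟩ := P.rep_single v
  have h1 := ha.uniq he
  apply hs
  rw [h1]
  simp

theorem NV_of_oseg {d : P.D} {x : E3} (h : x ∈ P.oseg d) : P.NV x := by
  intro v hv
  subst hv
  obtain ⟨a, ha, hs⟩ := P.oseg_rep h
  obtain ⟨e, he⟩ := P.rep_single v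
  have h1 := ha.uniq he
  have h2 : ∀ u, a u ≠ 0 → u = v := by
    intro u hu
    rw [h1] at hu
    by_contra huv
    exact hu (by simp [huv])
  exact P.tail_ne_head d ((h2 _ ((hs _).2 (Or.inl rfl))).trans (h2 _ ((hs _).2 (Or.inr rfl))).symm)

/-- a closed edge consists of the open edge and the two end points -/
theorem seg_cases {d : P.D} {x : E3} (h : x ∈ P.seg d) :
    x = P.A d ∨ x = P.B d ∨ x ∈ P.oseg d := by
  unfold seg at h
  rw [← insert_endpoints_openSegment] at h
  exact h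

theorem oseg_of_seg {d : P.D} {x : E3} (h : x ∈ P.seg d) (hn : P.NV x) : x ∈ P.oseg d := by
  rcases P.seg_cases h with h | h | h
  · exact absurd h (hn _)
  · exact absurd h (hn _)
  · exact h

/-- an inner point of an edge lies on no other edge -/
theorem edge_unique {d e : P.D} {x : E3} (h : x ∈ P.oseg d) (h' : x ∈ P.seg e) :
    e = d ∨ e = P.inv d := by
  obtain ⟨a, ha, hs⟩ := P.oseg_rep h
  obtain ⟨b, hb, ht⟩ := P.seg_rep h'
  have h1 := ha.uniq hb
  subst h1
  have h2 := ht _ ((hs (P.tail d)).2 (Or.inl rfl))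
  have h3 := ht _ ((hs (P.head d)).2 (Or.inr rfl))
  have h4 := P.tail_ne_head d
  apply P.edge_same
  rcases h2 with h2 | h2 <;> rcases h3 with h3 | h3
  · exact absurd (h2.trans h3.symm) h4
  · exact Or.inl ⟨h2.symm, h3.symm⟩
  · exact Or.inr ⟨h3.symm, h2.symm⟩
  · exact absurd (h2.trans h3.symm) h4

/-- an inner point of an edge lies only in the two faces at this edge -/
theorem face_of_oseg {d e : P.D} {x : E3} (h : x ∈ P.oseg d) (h' : x ∈ P.tri e) :
    P.SF e d ∨ P.SF e (P.inv d) := by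
  obtain ⟨a, ha, hs⟩ := P.oseg_rep h
  obtain ⟨b, hb⟩ := P.exists_rep h'
  have h1 := ha.uniq hb
  subst h1
  have h2 := hb.2.1 _ ((hs (P.tail d)).2 (Or.inl rfl))
  have h3 := hb.2.1 _ ((hs (P.head d)).2 (Or.inr rfl))
  obtain ⟨f, hf, hf'⟩ := P.edge_btw h2 h3 (P.tail_ne_head d)
  rcases P.edge_same hf' with rfl | rfl
  · exact Or.inl hf
  · exact Or.inr hf

private theorem rep_comb {P : Poly} {d : P.D} {x y : E3} {a b : P.V → ℝ} (hx : P.Rep d a x)
    (hy : P.Rep d b y) {s t : ℝ} (hs : 0 ≤ s) (ht : 0 ≤ t) (hst : s + t = 1) :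
    P.Rep d (fun v => s * a v + t * b v) (s • x + t • y) := by
  refine ⟨fun v => add_nonneg (mul_nonneg hs (hx.1 v)) (mul_nonneg ht (hy.1 v)), ?_, ?_, ?_⟩
  · intro v hv
    by_contra hn
    have h1 : a v = 0 := by
      by_contra h
      exact hn (hx.2.1 v h)
    have h2 : b v = 0 := by
      by_contra h
      exact hn (hy.2.1 v h)
    apply hv
    show s * a v + t * b v = 0
    rw [h1, h2]
    ring
  · rw [Finset.sum_add_distrib, ← Finset.mul_sum, ← Finset.mul_sum, hx.2.2.1, hy.2.2.1]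
    linarith
  · simp only [add_smul, mul_smul]
    rw [Finset.sum_add_distrib, ← Finset.smul_sum, ← Finset.smul_sum, hx.2.2.2, hy.2.2.2]

/-- a vertex is an extreme point of every face -/
theorem vertex_extreme {d : P.D} {v : P.V} {x y : E3} (hx : x ∈ P.tri d) (hy : y ∈ P.tri d)
    (h : P.pos v ∈ segment ℝ x y) : P.pos v = x ∨ P.pos v = y := by
  obtain ⟨a, ha⟩ := P.exists_rep hx
  obtain ⟨b, hb⟩ := P.exists_rep hy
  obtain ⟨s, t, hs, ht, hst, hv⟩ := h
  obtain ⟨e, he⟩ := P.rep_single v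
  have h1 := rep_comb ha hb hs ht hst
  rw [hv] at h1
  have h2 := h1.uniq he
  rcases hs.eq_or_lt with hs0 | hs0
  · right
    rw [← hs0] at hv hst
    rw [← hv, show t = 1 by linarith]
    simp
  left
  symm
  apply rep_one ha
  intro u hu
  by_contra huv
  have h3 := congrFun h2 u
  simp only [Pi.single_eq_of_ne huv] at h3
  have h4 : 0 < s * a u := mul_pos hs0 (lt_of_le_of_ne (ha.1 u) (Ne.symm hu))
  have h5 := mul_nonneg ht (hb.1 u)
  linarith

/-- a segment of a face through an inner point of an edge of the face ends there or lies in the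
edge -/
theorem edge_extreme {d : P.D} {x y p : E3} (hx : x ∈ P.tri d) (hy : y ∈ P.tri d)
    (hp : p ∈ P.oseg d) (h : p ∈ segment ℝ x y) :
    p = x ∨ p = y ∨ (x ∈ P.seg d ∧ y ∈ P.seg d) := by
  obtain ⟨a, ha⟩ := P.exists_rep hx
  obtain ⟨b, hb⟩ := P.exists_rep hy
  obtain ⟨s, t, hs, ht, hst, hv⟩ := h
  obtain ⟨c, hc, hc'⟩ := P.oseg_rep hp
  have h1 := rep_comb ha hb hs ht hst
  rw [hv] at h1
  have h2 := h1.uniq hc
  rcases hs.eq_or_lt with hs0 | hs0
  · right
    left
    rw [← hs0] at hv hst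
    rw [← hv, show t = 1 by linarith]
    simp
  rcases ht.eq_or_lt with ht0 | ht0
  · left
    rw [← ht0] at hv hst
    rw [← hv, show s = 1 by linarith]
    simp
  right
  right
  constructor
  · rw [P.mem_seg_iff]
    refine ⟨a, ha.1, ?_, ha.2.2⟩
    intro u hu
    rw [← hc', ← congrFun h2 u]
    have h4 : 0 < s * a u := mul_pos hs0 (lt_of_le_of_ne (ha.1 u) (Ne.symm hu))
    have h5 := mul_nonneg ht (hb.1 u)
    show s * a u + t * b u ≠ 0
    linarith
  · rw [P.mem_seg_iff]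
    refine ⟨b, hb.1, ?_, hb.2.2⟩
    intro u hu
    rw [← hc', ← congrFun h2 u]
    have h4 : 0 < t * b u := mul_pos ht0 (lt_of_le_of_ne (hb.1 u) (Ne.symm hu))
    have h5 := mul_nonneg hs (ha.1 u)
    show s * a u + t * b u ≠ 0
    linarith

/-- a common point of two different faces lies on a common edge -/
theorem common_edge {d e : P.D} {x : E3} (h : x ∈ P.tri d) (h' : x ∈ P.tri e) (hne : ¬ P.SF d e)
    (hn : P.NV x) : ∃ a, x ∈ P.oseg a ∧ P.SF d a ∧ P.SF e (P.inv a) := by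
  obtain ⟨a, ha⟩ := P.exists_rep h
  obtain ⟨b, hb⟩ := P.exists_rep h'
  have h1 := ha.uniq hb
  subst h1
  -- two different vertices in the support
  have h2 : ∃ v, a v ≠ 0 := by
    by_contra h2
    push Not at h2
    have h3 := ha.2.2.1
    rw [Finset.sum_eq_zero (fun u _ => h2 u)] at h3
    exact zero_ne_one h3
  obtain ⟨v, hv⟩ := h2
  have h3 : ∃ w, a w ≠ 0 ∧ w ≠ v := by
    by_contra h3
    push Not at h3
    exact hn v (rep_one ha h3)
  obtain ⟨w, hw, hwv⟩ := h3
  -- no third vertex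
  have h4 : ∀ u, a u ≠ 0 → u = v ∨ u = w := by
    intro u hu
    by_contra huvw
    push Not at huvw
    apply hne
    have h5 : ∀ f : P.D, P.Rep f a x → P.verts f = {v, w, u} := by
      intro f hf
      symm
      apply Finset.eq_of_subset_of_card_le
      · intro z hz
        simp only [Finset.mem_insert, Finset.mem_singleton] at hz
        rcases hz with rfl | rfl | rfl
        · exact hf.2.1 _ hv
        · exact hf.2.1 _ hw
        · exact hf.2.1 _ hu
      · rw [Finset.card_eq_three.2 ⟨v, w, u, hwv.symm, huvw.1.symm, huvw.2.symm, rfl⟩]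
        unfold verts
        exact Finset.card_le_three
    exact P.face_inj d e ((h5 d ha).trans (h5 e hb).symm)
  obtain ⟨f, hf, hf'⟩ := P.edge_btw (ha.2.1 v hv) (ha.2.1 w hw) hwv.symm
  obtain ⟨g, hg, hg'⟩ := P.edge_btw (hb.2.1 v hv) (hb.2.1 w hw) hwv.symm
  have hgf : g = f ∨ g = P.inv f := by
    apply P.edge_same
    rcases hf' with hf' | hf' <;> rcases hg' with hg' | hg'
    · exact Or.inl ⟨hg'.1.trans hf'.1.symm, hg'.2.trans hf'.2.symm⟩
    · exact Or.inr ⟨hg'.1.trans hf'.2.symm, hg'.2.trans hf'.1.symm⟩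
    · exact Or.inr ⟨hg'.1.trans hf'.2.symm, hg'.2.trans hf'.1.symm⟩
    · exact Or.inl ⟨hg'.1.trans hf'.1.symm, hg'.2.trans hf'.2.symm⟩
  rcases hgf with rfl | rfl
  · exact absurd (P.SF_trans hf (P.SF_symm hg)) hne
  · refine ⟨f, ?_, hf, hg⟩
    rw [P.mem_oseg_iff]
    refine ⟨a, ha.1, ?_, ha.2.2⟩
    intro u
    rcases hf' with ⟨e1, e2⟩ | ⟨e1, e2⟩
    · rw [e1, e2]
      constructor
      · exact h4 u
      · rintro (rfl | rfl)
        · exact hv
        · exact hw
    · rw [e1, e2]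
      constructor
      · intro hu
        exact (h4 u hu).symm
      · rintro (rfl | rfl)
        · exact hw
        · exact hv

/-- two vertices of one face are the ends of an edge of the face -/
theorem edge_of_two_vertices {d : P.D} {v w : P.V} (hv : P.pos v ∈ P.tri d) (hw : P.pos w ∈ P.tri d)
    (hne : v ≠ w) : ∃ e, P.tail e = v ∧ P.head e = w ∧ (P.SF d e ∨ P.SF d (P.inv e)) := by
  obtain ⟨f, hf, hf' | hf'⟩ := P.edge_btw (P.mem_verts_of_pos hv) (P.mem_verts_of_pos hw) hne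
  · exact ⟨f, hf'.1, hf'.2, Or.inl hf⟩
  · refine ⟨P.inv f, hf'.2, ?_, Or.inr ?_⟩
    · rw [P.tail_eq_head_inv]
      exact hf'.1
    · rw [P.inv_inv]
      exact hf

end Poly

end QGd
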