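import Pool.Agent.Lib_MP_6b5565_dg.Q.Basic

/-! [QG-D1a] barycentric coordinates -/

namespace QGd

open EuclideanGeometry

namespace Poly

variable (P : Poly)

/-- the three vertices of the face of `d` -/
def verts (d : P.D) : Finset P.V := {P.tail d, P.tail (P.nxt d), P.tail (P.prev d)}

private theorem d1a_single (s : Finset P.V) (u : P.V) (hu : u ∈ s) : ∃ a : P.V → ℝ, (∀ v, 0 ≤ a v) ∧
    (∀ v, a v ≠ 0 → v ∈ s) ∧ ∑ v, a v = 1 ∧ ∑ v, a v • P.pos v = P.pos u := by
  refine ⟨fun v => if v = u then 1 else 0, fun v => ?_, fun v hv => ?_, ?_, ?_⟩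
  · dsimp only
    split_ifs
    · exact zero_le_one
    · exact le_rfl
  · by_contra h
    apply hv
    have : v ≠ u := by
      rintro rfl
      exact h hu
    simp [this]
  · simp
  · simp

private theorem d1a_convex (s : Finset P.V) : Convex ℝ {x : E3 | ∃ a : P.V → ℝ, (∀ v, 0 ≤ a v) ∧
    (∀ v, a v ≠ 0 → v ∈ s) ∧ ∑ v, a v = 1 ∧ ∑ v, a v • P.pos v = x} := by
  rintro x ⟨a, ha0, has, ha1, hax⟩ y ⟨b, hb0, hbs, hb1, hby⟩ μ ν hμ hν hμν
  refine ⟨fun v => μ * a v + ν * b v, fun v => ?_, fun v hv => ?_, ?_, ?_⟩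
  · exact add_nonneg (mul_nonneg hμ (ha0 v)) (mul_nonneg hν (hb0 v))
  · by_contra h
    apply hv
    have h1 : a v = 0 := by
      by_contra h1
      exact h (has v h1)
    have h2 : b v = 0 := by
      by_contra h2
      exact h (hbs v h2)
    simp [h1, h2]
  · rw [Finset.sum_add_distrib, ← Finset.mul_sum, ← Finset.mul_sum, ha1, hb1, mul_one, mul_one, hμν]
  · simp only [add_smul, mul_smul]
    rw [Finset.sum_add_distrib, ← Finset.smul_sum, ← Finset.smul_sum, hax, hby]

theorem mem_tri_iff {d : P.D} {x : E3} : x ∈ P.tri d ↔ ∃ a : P.V → ℝ, (∀ v, 0 ≤ a v) ∧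
    (∀ v, a v ≠ 0 → v ∈ P.verts d) ∧ ∑ v, a v = 1 ∧ ∑ v, a v • P.pos v = x := by
  constructor
  · intro hx
    refine (convexHull_min ?_ (P.d1a_convex (P.verts d))) hx
    rintro y (rfl | rfl | rfl)
    · exact P.d1a_single _ (P.tail d) (by simp [verts])
    · exact P.d1a_single _ (P.tail (P.nxt d)) (by simp [verts])
    · exact P.d1a_single _ (P.tail (P.prev d)) (by simp [verts])
  · rintro ⟨a, ha0, has, ha1, rfl⟩
    have h0 : ∀ v ∈ (Finset.univ : Finset P.V), v ∉ P.verts d → a v = 0 := by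
      intro v _ hv
      by_contra h
      exact hv (has v h)
    have h1 : ∑ v ∈ P.verts d, a v = 1 := by
      rw [Finset.sum_subset (Finset.subset_univ _) h0, ha1]
    have h2 : ∑ v ∈ P.verts d, a v • P.pos v = ∑ v, a v • P.pos v :=
      Finset.sum_subset (Finset.subset_univ _) fun v hv hv' => by rw [h0 v hv hv', zero_smul]
    rw [← h2]
    refine (convex_convexHull ℝ _).sum_mem (fun v _ => ha0 v) h1 fun v hv => ?_
    apply subset_convexHull
    simp only [verts, Finset.mem_insert, Finset.mem_singleton] at hv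
    rcases hv with rfl | rfl | rfl
    · exact Or.inl rfl
    · exact Or.inr (Or.inl rfl)
    · exact Or.inr (Or.inr rfl)

/-- the weights of a point of an edge -/
private theorem d1a_two (u w : P.V) (s r : ℝ) :
    ∑ v, ((if v = u then s else 0) + (if v = w then r else 0)) • P.pos v = s • P.pos u + r • P.pos w := by
  simp [add_smul, Finset.sum_add_distrib]

private theorem d1a_two' (u w : P.V) (s r : ℝ) :
    ∑ v, ((if v = u then s else 0) + (if v = w then r else 0)) = s + r := by
  simp [Finset.sum_add_distrib]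

private theorem d1a_pair (u w : P.V) (huw : u ≠ w) (a : P.V → ℝ)
    (has : ∀ v, a v ≠ 0 → v = u ∨ v = w) :
    ∑ v, a v = a u + a w ∧ ∑ v, a v • P.pos v = a u • P.pos u + a w • P.pos w := by
  have h0 : ∀ v ∈ (Finset.univ : Finset P.V), v ∉ ({u, w} : Finset P.V) → a v = 0 := by
    intro v _ hv
    by_contra h
    exact hv (by simpa using has v h)
  constructor
  · rw [← Finset.sum_subset (Finset.subset_univ _) h0, Finset.sum_pair huw]
  · rw [← Finset.sum_subset (Finset.subset_univ ({u, w} : Finset P.V))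
      (fun v hv hv' => by rw [h0 v hv hv', zero_smul]), Finset.sum_pair huw]

theorem mem_seg_iff {d : P.D} {x : E3} : x ∈ P.seg d ↔ ∃ a : P.V → ℝ, (∀ v, 0 ≤ a v) ∧
    (∀ v, a v ≠ 0 → v = P.tail d ∨ v = P.head d) ∧ ∑ v, a v = 1 ∧ ∑ v, a v • P.pos v = x := by
  constructor
  · rintro ⟨s, r, hs, hr, hsr, rfl⟩
    refine ⟨fun v => (if v = P.tail d then s else 0) + (if v = P.head d then r else 0),
      fun v => ?_, fun v hv => ?_, ?_, ?_⟩
    · refine add_nonneg ?_ ?_
      · split_ifs
        · exact hs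
        · exact le_rfl
      · split_ifs
        · exact hr
        · exact le_rfl
    · by_contra h
      rw [not_or] at h
      apply hv
      simp [h.1, h.2]
    · rw [d1a_two', hsr]
    · exact P.d1a_two _ _ _ _
  · rintro ⟨a, ha0, has, ha1, rfl⟩
    obtain ⟨h1, h2⟩ := P.d1a_pair _ _ (P.tail_ne_head d) a has
    exact ⟨a (P.tail d), a (P.head d), ha0 _, ha0 _, by rw [← h1, ha1], h2.symm⟩

theorem mem_oseg_iff {d : P.D} {x : E3} : x ∈ P.oseg d ↔ ∃ a : P.V → ℝ, (∀ v, 0 ≤ a v) ∧
    (∀ v, a v ≠ 0 ↔ v = P.tail d ∨ v = P.head d) ∧ ∑ v, a v = 1 ∧ ∑ v, a v • P.pos v = x := by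
  constructor
  · rintro ⟨s, r, hs, hr, hsr, rfl⟩
    refine ⟨fun v => (if v = P.tail d then s else 0) + (if v = P.head d then r else 0),
      fun v => ?_, fun v => ⟨fun hv => ?_, fun hv => ?_⟩, ?_, ?_⟩
    · refine add_nonneg ?_ ?_
      · split_ifs
        · exact hs.le
        · exact le_rfl
      · split_ifs
        · exact hr.le
        · exact le_rfl
    · by_contra h
      rw [not_or] at h
      apply hv
      simp [h.1, h.2]
    · rcases hv with rfl | rfl
      · simp only [if_true, if_neg (P.tail_ne_head d), add_zero]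
        exact hs.ne'
      · simp only [if_true, if_neg (P.tail_ne_head d).symm, zero_add]
        exact hr.ne'
    · rw [d1a_two', hsr]
    · exact P.d1a_two _ _ _ _
  · rintro ⟨a, ha0, has, ha1, rfl⟩
    obtain ⟨h1, h2⟩ := P.d1a_pair _ _ (P.tail_ne_head d) a fun v hv => (has v).1 hv
    exact ⟨a (P.tail d), a (P.head d), (ha0 _).lt_of_ne' ((has _).2 (Or.inl rfl)),
      (ha0 _).lt_of_ne' ((has _).2 (Or.inr rfl)), by rw [← h1, ha1], h2.symm⟩

end Poly

end QGd
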