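import Pool.Agent.Lib_MP_6b5565_dg.Q.D1b

/-! [QG-D1c] chords and rays in a face -/

namespace QGd

open EuclideanGeometry

/-- vectors in a half plane with the same angle to the boundary line are on one ray -/
private theorem D1c_angle {E : Type} [NormedAddCommGroup E] [InnerProductSpace ℝ E] {b w u u' : E}
    {α β α' β' : ℝ} (hβ : 0 < β) (hβ' : 0 < β') (hu : u = α • b + β • w) (hu' : u' = α' • b + β' • w)
    (hb : b ≠ 0) (hw : ∀ c : ℝ, w ≠ c • b)
    (h : InnerProductGeometry.angle u b = InnerProductGeometry.angle u' b) : β' • u = β • u' := by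
  have hBpos : 0 < inner ℝ b b := real_inner_self_pos.2 hb
  obtain ⟨c, hc⟩ : ∃ c : ℝ, c = inner ℝ w b / inner ℝ b b := ⟨_, rfl⟩
  obtain ⟨v, hv⟩ : ∃ v : E, v = w - c • b := ⟨_, rfl⟩
  have hv0 : v ≠ 0 := by
    intro h0
    exact hw c (sub_eq_zero.1 (hv ▸ h0))
  have hNpos : 0 < inner ℝ v v := real_inner_self_pos.2 hv0
  have hvb : inner ℝ v b = 0 := by
    rw [hv, inner_sub_left, real_inner_smul_left, hc]
    field_simp
    ring
  have hbv : inner ℝ b v = 0 := by rw [real_inner_comm]; exact hvb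
  have hwv : w = v + c • b := by rw [hv]; abel
  have key : ∀ (a : ℝ) (s : ℝ) (z : E), z = a • b + s • w →
      inner ℝ z b = (a + s * c) * inner ℝ b b ∧
      ‖z‖ ^ 2 = (a + s * c) ^ 2 * inner ℝ b b + s ^ 2 * inner ℝ v v ∧
      z = (a + s * c) • b + s • v := by
    intro a s z hz
    have h1 : z = (a + s * c) • b + s • v := by
      rw [hz, hwv, smul_add, smul_smul, add_smul]
      abel
    refine ⟨?_, ?_, h1⟩
    · rw [h1, inner_add_left, real_inner_smul_left, real_inner_smul_left, hvb]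
      ring
    · rw [← real_inner_self_eq_norm_sq, h1, inner_add_left, inner_add_right, inner_add_right]
      simp only [real_inner_smul_left, real_inner_smul_right, hvb, hbv]
      ring
  obtain ⟨g, hg⟩ : ∃ g : ℝ, g = α + β * c := ⟨_, rfl⟩
  obtain ⟨g', hg'⟩ : ∃ g' : ℝ, g' = α' + β' * c := ⟨_, rfl⟩
  obtain ⟨i1, n1, e1⟩ := key α β u hu
  obtain ⟨i2, n2, e2⟩ := key α' β' u' hu'
  rw [← hg] at i1 n1 e1
  rw [← hg'] at i2 n2 e2
  obtain ⟨B, hB⟩ : ∃ B : ℝ, B = inner ℝ b b := ⟨_, rfl⟩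
  obtain ⟨N, hN⟩ : ∃ N : ℝ, N = inner ℝ v v := ⟨_, rfl⟩
  rw [← hB] at i1 n1 i2 n2 hBpos
  rw [← hN] at n1 n2 hNpos
  have hn1 : 0 < ‖u‖ := by
    refine lt_of_le_of_ne (norm_nonneg u) fun h3 => ?_
    have h2 : 0 < ‖u‖ ^ 2 := by rw [n1]; positivity
    rw [← h3] at h2
    norm_num at h2
  have hn2 : 0 < ‖u'‖ := by
    refine lt_of_le_of_ne (norm_nonneg u') fun h3 => ?_
    have h2 : 0 < ‖u'‖ ^ 2 := by rw [n2]; positivity
    rw [← h3] at h2
    norm_num at h2
  have hnb : 0 < ‖b‖ := norm_pos_iff.2 hb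
  have hcos : g * ‖u'‖ = g' * ‖u‖ := by
    have h2 := congrArg Real.cos h
    rw [InnerProductGeometry.cos_angle, InnerProductGeometry.cos_angle, i1, i2] at h2
    rw [div_eq_div_iff (by positivity) (by positivity)] at h2
    have h3 : (g * ‖u'‖ - g' * ‖u‖) * (B * ‖b‖) = 0 := by linear_combination h2
    rcases mul_eq_zero.1 h3 with h4 | h4
    · linarith
    · exact absurd h4 (by positivity)
  have hsq : (g * β') ^ 2 = (g' * β) ^ 2 := by
    have h2 : g ^ 2 * ‖u'‖ ^ 2 = g' ^ 2 * ‖u‖ ^ 2 := by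
      rw [← mul_pow, ← mul_pow, hcos]
    rw [n1, n2] at h2
    have h3 : ((g * β') ^ 2 - (g' * β) ^ 2) * N = 0 := by linear_combination h2
    rcases mul_eq_zero.1 h3 with h4 | h4
    · linarith
    · exact absurd h4 hNpos.ne'
  have hgg : 0 ≤ g * g' := by
    have h2 : g * g' * ‖u'‖ = g' ^ 2 * ‖u‖ := by linear_combination g' * hcos
    have h3 : 0 ≤ g * g' * ‖u'‖ := by rw [h2]; positivity
    by_contra h4
    have h5 : g * g' * ‖u'‖ < 0 := mul_neg_of_neg_of_pos (not_le.1 h4) hn2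
    linarith
  have hfin : g * β' = g' * β := by
    rcases sq_eq_sq_iff_eq_or_eq_neg.1 hsq with h2 | h2
    · exact h2
    · have h3 : g * g' * β' = -(g' ^ 2 * β) := by linear_combination g' * h2
      have h4 : 0 ≤ g * g' * β' := by positivity
      have h5 : g' ^ 2 * β = 0 := le_antisymm (by linarith) (by positivity)
      have h6 : g' = 0 := by
        rcases mul_eq_zero.1 h5 with h7 | h7
        · exact pow_eq_zero_iff two_ne_zero |>.1 h7
        · exact absurd h7 hβ.ne'
      rw [h6] at h2 ⊢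
      rw [h2]
      ring
  rw [e1, e2, smul_add, smul_add, smul_smul, smul_smul, smul_smul, smul_smul, mul_comm β' g, hfin,
    mul_comm g' β, mul_comm β' β]

namespace Poly

variable (P : Poly)

/-- a point of an edge of the face inside a segment of the face -/
private theorem D1c_ext {d : P.D} {p y z : E3} (hp : p ∈ P.tri d) (hy : y ∈ P.tri d)
    (hz : ∃ e, P.SF d e ∧ z ∈ P.seg e) (h : z ∈ segment ℝ p y) :
    z = p ∨ z = y ∨ ∃ e, P.SF d e ∧ z ∈ P.oseg e ∧ p ∈ P.seg e ∧ y ∈ P.seg e := by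
  obtain ⟨e, he, hz⟩ := hz
  have ht := P.tri_SF he
  rcases P.seg_cases hz with h1 | h1 | h1
  · rcases P.vertex_extreme (v := P.tail e) hp hy (by rw [show P.pos (P.tail e) = P.A e from rfl, ← h1]; exact h)
      with h2 | h2
    · left; rw [h1]; exact h2
    · right; left; rw [h1]; exact h2
  · rcases P.vertex_extreme (v := P.head e) hp hy (by rw [show P.pos (P.head e) = P.B e from rfl, ← h1]; exact h)
      with h2 | h2
    · left; rw [h1]; exact h2
    · right; left; rw [h1]; exact h2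
  · rcases P.edge_extreme (d := e) (ht ▸ hp) (ht ▸ hy) h1 h with h2 | h2 | h2
    · exact Or.inl h2
    · exact Or.inr (Or.inl h2)
    · exact Or.inr (Or.inr ⟨e, he, h1, h2.1, h2.2⟩)

private theorem D1c_tri {d : P.D} {x : E3} (hx : ∃ e, P.SF d e ∧ x ∈ P.seg e) : x ∈ P.tri d := by
  obtain ⟨e, he, hx⟩ := hx
  exact P.seg_sub_tri' he hx

private theorem D1c_conv (d : P.D) : Convex ℝ (P.tri d) := convex_convexHull ℝ _

private theorem D1c_key {d : P.D} {x x' y p : E3}
    (hx : ∃ e, P.SF d e ∧ x ∈ P.seg e) (hx' : ∃ e, P.SF d e ∧ x' ∈ P.seg e)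
    (hy : ∃ e, P.SF d e ∧ y ∈ P.seg e)
    (hp : ∀ e, P.SF d e → p ∉ P.seg e)
    (h1 : p ∈ segment ℝ x x') (h3 : p ∈ segment ℝ x y) : y = x' := by
  have hpt : p ∈ P.tri d := (P.D1c_conv d).segment_subset (P.D1c_tri hx) (P.D1c_tri hx') h1
  have hpx : p ≠ x := by
    rintro rfl
    obtain ⟨e, he, hx⟩ := hx
    exact hp e he hx
  have s1 : SameRay ℝ (p - x) (x' - p) := by
    have := (mem_segment_iff_wbtw.1 h1).sameRay_vsub
    simpa using this
  have s2 : SameRay ℝ (p - x) (y - p) := by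
    have := (mem_segment_iff_wbtw.1 h3).sameRay_vsub
    simpa using this
  have s3 : SameRay ℝ (x' - p) (y - p) :=
    s1.symm.trans s2 fun h => absurd h (sub_ne_zero.2 hpx)
  rcases wbtw_total_of_sameRay_vsub_left (x := p) (y := x') (z := y) (by simpa using s3) with h | h
  · rcases P.D1c_ext hpt (P.D1c_tri hy) hx' (mem_segment_iff_wbtw.2 h) with h4 | h4 | ⟨e, he, _, h5, _⟩
    · obtain ⟨e, he, hx'⟩ := hx'
      exact absurd (h4 ▸ hx') (hp e he)
    · exact h4.symm
    · exact absurd h5 (hp e he)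
  · rcases P.D1c_ext hpt (P.D1c_tri hx') hy (mem_segment_iff_wbtw.2 h) with h4 | h4 | ⟨e, he, _, h5, _⟩
    · obtain ⟨e, he, hy⟩ := hy
      exact absurd (h4 ▸ hy) (hp e he)
    · exact h4
    · exact absurd h5 (hp e he)

/-- a segment between two edge points of a face through a point `p` of the face which is on no
edge: the line meets the boundary exactly in the two end points. So if `x, x', y, y'` are on edges
of the face, `p ∈ [x, x']`, `p ∈ [y, y']`, `p ∈ [x, y]` and `p ∈ [x', y']`, then `y = x'`, `y' = x`. -/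
theorem chord_swap {d : P.D} {x x' y y' p : E3}
    (hx : ∃ e, P.SF d e ∧ x ∈ P.seg e) (hx' : ∃ e, P.SF d e ∧ x' ∈ P.seg e)
    (hy : ∃ e, P.SF d e ∧ y ∈ P.seg e) (hy' : ∃ e, P.SF d e ∧ y' ∈ P.seg e)
    (hp : ∀ e, P.SF d e → p ∉ P.seg e)
    (h1 : p ∈ segment ℝ x x') (h2 : p ∈ segment ℝ y y')
    (h3 : p ∈ segment ℝ x y) (h4 : p ∈ segment ℝ x' y') : y = x' ∧ y' = x := by
  refine ⟨P.D1c_key hx hx' hy hp h1 h3, P.D1c_key hx' hx hy' hp ?_ h4⟩
  rw [segment_symm]
  exact h1

/-- the vertices of a face are not on a line -/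
private theorem D1c_noncol (d : P.D) (r : ℝ) : P.A (P.prev d) ≠ P.A d + r • (P.B d - P.A d) := by
  intro h
  refine affineIndependent_iff_not_collinear_set.1 (P.indep d) ?_
  rw [collinear_iff_of_mem (p₀ := P.A d) (by simp [A])]
  refine ⟨P.B d - P.A d, ?_⟩
  intro z hz
  simp only [Set.mem_insert_iff, Set.mem_singleton_iff] at hz
  rcases hz with hz | hz | hz
  · refine ⟨0, ?_⟩
    rw [hz, zero_smul, zero_vadd]
    rfl
  · refine ⟨1, ?_⟩
    rw [hz, one_smul, vadd_eq_add, sub_add_cancel]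
    show P.pos (P.tail (P.nxt d)) = P.pos (P.head d)
    rw [P.head_eq]
  · refine ⟨r, ?_⟩
    rw [hz, vadd_eq_add, add_comm]
    exact h

/-- coordinates of a point of the face -/
private theorem D1c_coord {d : P.D} {x : E3} (hx : x ∈ P.tri d) (hxd : x ∉ P.seg d) :
    ∃ s β : ℝ, 0 < β ∧ x - P.A d = s • (P.B d - P.A d) + β • (P.A (P.prev d) - P.A d) := by
  have h1 : P.B d = P.A (P.nxt d) := by unfold A B; rw [head_eq]
  have hset : ({P.A d, P.A (P.nxt d), P.A (P.prev d)} : Set E3) =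
      insert (P.A (P.prev d)) {P.A d, P.B d} := by
    rw [← h1]
    ext z
    simp only [Set.mem_insert_iff, Set.mem_singleton_iff]
    tauto
  unfold tri at hx
  rw [hset, convexHull_insert ⟨P.A d, by simp⟩, convexHull_pair, mem_convexJoin] at hx
  obtain ⟨C, hC, q, hq, hx⟩ := hx
  rw [Set.mem_singleton_iff] at hC
  subst hC
  obtain ⟨β, γ, hβ, hγ, hsum, rfl⟩ := hx
  obtain ⟨a, b, ha, hb, hab, rfl⟩ := hq
  refine ⟨γ * b, β, ?_, ?_⟩
  · refine lt_of_le_of_ne hβ fun h0 => hxd ?_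
    rw [← h0] at hsum ⊢
    rw [zero_add] at hsum
    rw [hsum, zero_smul, zero_add, one_smul]
    exact ⟨a, b, ha, hb, hab, rfl⟩
  · have ha' : a = 1 - b := by linarith
    have hβ' : β = 1 - γ := by linarith
    rw [ha', hβ']
    module

/-- from an inner point `p` of the edge of `d`, a direction into the face of `d` hits the other two
edges in at most one point -/
theorem ray_unique {d : P.D} {p x x' : E3} (hp : p ∈ P.oseg d)
    (hx : ∃ e, P.SF d e ∧ x ∈ P.seg e) (hx' : ∃ e, P.SF d e ∧ x' ∈ P.seg e)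
    (hxd : x ∉ P.seg d) (hxd' : x' ∉ P.seg d)
    (h : ∠ x p (P.B d) = ∠ x' p (P.B d)) : x = x' := by
  have hps : p ∈ P.seg d := openSegment_subset_segment ℝ _ _ hp
  have hpt : p ∈ P.tri d := P.seg_sub_tri d hps
  obtain ⟨s, β, hβ, e1⟩ := P.D1c_coord (P.D1c_tri hx) hxd
  obtain ⟨s', β', hβ', e2⟩ := P.D1c_coord (P.D1c_tri hx') hxd'
  have hp' := hp
  obtain ⟨a, t, ha, ht, hat, hpe⟩ := hp'
  have ha' : a = 1 - t := by linarith
  have hpA : p = P.A d + t • (P.B d - P.A d) := by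
    rw [← hpe, ha']
    module
  have hne : (1 - t) ≠ 0 := by rw [← ha']; exact ha.ne'
  have hbv : P.B d - p = (1 - t) • (P.B d - P.A d) := by
    rw [hpA]
    module
  have hBA : P.B d - P.A d ≠ 0 := sub_ne_zero.2 (P.A_ne_B d).symm
  have hb0 : P.B d - p ≠ 0 := by
    rw [hbv]
    exact smul_ne_zero hne hBA
  have hcomb : ∀ (z : E3) (s β : ℝ), z - P.A d = s • (P.B d - P.A d) + β • (P.A (P.prev d) - P.A d) →
      z - p = ((s - t + β * t) / (1 - t)) • (P.B d - p) + β • (P.A (P.prev d) - p) := by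
    intro z s β hz
    have h2 : z = P.A d + (s • (P.B d - P.A d) + β • (P.A (P.prev d) - P.A d)) := by rw [← hz]; abel
    rw [hbv, smul_smul, div_mul_cancel₀ _ hne, h2, hpA]
    module
  have hw : ∀ c : ℝ, P.A (P.prev d) - p ≠ c • (P.B d - p) := by
    intro c hc
    refine P.D1c_noncol d (t + c * (1 - t)) ?_
    have h2 : P.A (P.prev d) = p + c • (P.B d - p) := by rw [← hc]; abel
    rw [h2, hbv, hpA]
    module
  have hang : InnerProductGeometry.angle (x - p) (P.B d - p) =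
      InnerProductGeometry.angle (x' - p) (P.B d - p) := h
  have hray := D1c_angle hβ hβ' (hcomb x s β e1) (hcomb x' s' β' e2) hb0 hw hang
  have hsame : SameRay ℝ (x - p) (x' - p) := Or.inr (Or.inr ⟨β', β, hβ', hβ, hray⟩)
  rcases wbtw_total_of_sameRay_vsub_left (x := p) (y := x) (z := x') (by simpa using hsame) with h4 | h4
  · rcases P.D1c_ext hpt (P.D1c_tri hx') hx (mem_segment_iff_wbtw.2 h4) with h5 | h5 | ⟨e, he, h6, h7, h8⟩
    · exact absurd (h5 ▸ hps) hxd
    · exact h5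
    · rcases P.edge_unique hp h7 with h9 | h9
      · subst h9
        exact absurd (openSegment_subset_segment ℝ _ _ h6) hxd
      · subst h9
        rw [P.oseg_inv] at h6
        exact absurd (openSegment_subset_segment ℝ _ _ h6) hxd
  · rcases P.D1c_ext hpt (P.D1c_tri hx) hx' (mem_segment_iff_wbtw.2 h4) with h5 | h5 | ⟨e, he, h6, h7, h8⟩
    · exact absurd (h5 ▸ hps) hxd'
    · exact h5.symm
    · rcases P.edge_unique hp h7 with h9 | h9
      · subst h9
        exact absurd (openSegment_subset_segment ℝ _ _ h6) hxd'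
      · subst h9
        rw [P.oseg_inv] at h6
        exact absurd (openSegment_subset_segment ℝ _ _ h6) hxd'

end Poly

end QGd
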