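import Pool.Agent.Lib_MP_6b5565_dg.Q.D1b

/-! [QG-D1d] angles in a face -/

namespace QGd

open EuclideanGeometry
open scoped NNReal

namespace Poly

variable (P : Poly)

private theorem d1d_cone {O X Y p : E3} (hp : p ∈ convexHull ℝ ({O, X, Y} : Set E3)) :
    ∃ β γ : ℝ, 0 ≤ β ∧ 0 ≤ γ ∧ p - O = β • (X - O) + γ • (Y - O) := by
  rw [convexHull_insert (by simp), mem_convexJoin] at hp
  obtain ⟨a, ha, b, hb, hp⟩ := hp
  rw [Set.mem_singleton_iff] at ha
  subst ha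
  rw [convexHull_pair] at hb
  obtain ⟨s1, s2, h1, h2, h3, rfl⟩ := hb
  obtain ⟨t1, t2, h4, h5, h6, rfl⟩ := hp
  refine ⟨t2 * s1, t2 * s2, by positivity, by positivity, ?_⟩
  have e1 : t1 = 1 - t2 := by linarith
  have e2 : s1 = 1 - s2 := by linarith
  rw [e1, e2]
  module

private theorem d1d_span {x y z : E3} (hy : y ≠ 0) {β γ : ℝ} (hβ : 0 ≤ β) (hγ : 0 ≤ γ)
    (h : y = β • x + γ • z) : InnerProductGeometry.angle x z =
      InnerProductGeometry.angle x y + InnerProductGeometry.angle y z := by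
  apply InnerProductGeometry.angle_eq_angle_add_add_angle_add_of_mem_span hy
  rw [Submodule.mem_span_pair]
  exact ⟨⟨β, hβ⟩, ⟨γ, hγ⟩, h.symm⟩

private theorem d1d_A (d : P.D) : P.A (P.nxt d) = P.B d := by
  unfold A B
  rw [head_eq]

private theorem d1d_B (d : P.D) : P.A (P.prev d) = P.B (P.rot d) := by
  unfold A B
  rw [head_rot]

private theorem d1d_tri {d : P.D} {p : E3} (hp : p ∈ P.tri d) :
    ∃ β γ : ℝ, 0 ≤ β ∧ 0 ≤ γ ∧
      p - P.A d = β • (P.B d - P.A d) + γ • (P.B (P.rot d) - P.A d) := by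
  unfold tri at hp
  rw [d1d_A, d1d_B] at hp
  exact d1d_cone hp

/-- angles of a face at the vertex `tail d`: for `p` in the face, `p ≠ A d`,
`∠ p (A d) (B d) + ∠ p (A d) (B (rot d)) = ang d` -/
theorem ang_split {d : P.D} {p : E3} (hp : p ∈ P.tri d) (hpA : p ≠ P.A d) :
    ∠ p (P.A d) (P.B d) + ∠ p (P.A d) (P.B (P.rot d)) = P.ang d := by
  obtain ⟨β, γ, hβ, hγ, h⟩ := P.d1d_tri hp
  have h1 := d1d_span (sub_ne_zero.2 hpA) hβ hγ h
  unfold ang
  rw [d1d_A, d1d_B, EuclideanGeometry.angle_comm p]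
  exact h1.symm

private theorem d1d_aux {x z p q : E3} (hp : p ≠ 0) (hq : q ≠ 0) {β₁ γ₁ β₂ γ₂ : ℝ} (hβ₁ : 0 ≤ β₁)
    (hγ₁ : 0 ≤ γ₁) (hβ₂ : 0 ≤ β₂) (hγ₂ : 0 ≤ γ₂) (h1 : p = β₁ • x + γ₁ • z)
    (h2 : q = β₂ • x + γ₂ • z) (hc : β₁ * γ₂ ≤ β₂ * γ₁) :
    InnerProductGeometry.angle x p = InnerProductGeometry.angle x q
      + InnerProductGeometry.angle q p := by
  rcases eq_or_lt_of_le hγ₁ with h0 | h0
  · rw [← h0, mul_zero] at hc
    have hβ : 0 < β₁ := by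
      rcases eq_or_lt_of_le hβ₁ with h3 | h3
      · exfalso
        apply hp
        rw [h1, ← h0, ← h3]
        simp
      · exact h3
    have h3 : γ₂ = 0 := by
      have h4 : β₁ * γ₂ = 0 := le_antisymm hc (by positivity)
      rcases mul_eq_zero.1 h4 with h5 | h5
      · linarith
      · exact h5
    refine d1d_span hq hβ₂ (le_refl (0 : ℝ)) ?_
    rw [h2, h3]
    simp
  · refine d1d_span hq (β := β₂ - β₁ * γ₂ / γ₁) (γ := γ₂ / γ₁) ?_ (by positivity) ?_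
    · rw [sub_nonneg, div_le_iff₀ h0]
      exact hc
    · rw [h1, h2]
      have e1 : (γ₂ / γ₁) • (β₁ • x + γ₁ • z) = (β₁ * γ₂ / γ₁) • x + γ₂ • z := by
        rw [smul_add, smul_smul, smul_smul]
        congr 2
        · ring
        · field_simp
      rw [e1, sub_smul]
      abel

/-- two points in a face: the angle between them is the difference of their angles to `B d` -/
theorem ang_diff {d : P.D} {p q : E3} (hp : p ∈ P.tri d) (hpA : p ≠ P.A d)
    (hq : q ∈ P.tri d) (hqA : q ≠ P.A d) :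
    ∠ p (P.A d) q = |∠ p (P.A d) (P.B d) - ∠ q (P.A d) (P.B d)| := by
  obtain ⟨β₁, γ₁, hβ₁, hγ₁, h1⟩ := P.d1d_tri hp
  obtain ⟨β₂, γ₂, hβ₂, hγ₂, h2⟩ := P.d1d_tri hq
  have hp0 := sub_ne_zero.2 hpA
  have hq0 := sub_ne_zero.2 hqA
  rcases le_total (β₁ * γ₂) (β₂ * γ₁) with hc | hc
  · have h3 := d1d_aux hp0 hq0 hβ₁ hγ₁ hβ₂ hγ₂ h1 h2 hc
    have h4 : ∠ (P.B d) (P.A d) p = ∠ (P.B d) (P.A d) q + ∠ q (P.A d) p := h3
    rw [EuclideanGeometry.angle_comm (P.B d), EuclideanGeometry.angle_comm (P.B d),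
      EuclideanGeometry.angle_comm q (P.A d) p] at h4
    have h5 : 0 ≤ ∠ p (P.A d) q := EuclideanGeometry.angle_nonneg _ _ _
    rw [abs_of_nonneg (by linarith)]
    linarith
  · have h3 := d1d_aux hq0 hp0 hβ₂ hγ₂ hβ₁ hγ₁ h2 h1 hc
    have h4 : ∠ (P.B d) (P.A d) q = ∠ (P.B d) (P.A d) p + ∠ p (P.A d) q := h3
    rw [EuclideanGeometry.angle_comm (P.B d), EuclideanGeometry.angle_comm (P.B d)] at h4
    have h5 : 0 ≤ ∠ p (P.A d) q := EuclideanGeometry.angle_nonneg _ _ _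
    rw [abs_of_nonpos (by linarith)]
    linarith

theorem ang_eq (d : P.D) : ∠ (P.B d) (P.A d) (P.B (P.rot d)) = P.ang d := by
  unfold ang
  rw [d1d_A, d1d_B]

/-- the two ends of the edge seen from an inner point -/
theorem angle_oseg {d : P.D} {p x : E3} (hp : p ∈ P.oseg d) (hx : x ≠ p) :
    ∠ x p (P.A d) + ∠ x p (P.B d) = Real.pi := by
  have hAB := P.A_ne_B d
  have hs : Sbtw ℝ (P.A d) p (P.B d) := by
    unfold oseg at hp
    refine ⟨mem_segment_iff_wbtw.1 (openSegment_subset_segment ℝ _ _ hp), ?_, ?_⟩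
    · rintro rfl
      exact hAB (left_mem_openSegment_iff.1 hp)
    · rintro rfl
      exact hAB (right_mem_openSegment_iff.1 hp)
  exact EuclideanGeometry.angle_add_angle_eq_pi_of_angle_eq_pi x hs.angle₁₂₃_eq_pi

end Poly

end QGd
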