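import Pool.Agent.Lib_MP_6b5565_dg.Q.F1a

/-! [QG-H1] -/

namespace QGd

open EuclideanGeometry Filter Topology

namespace Route

variable {P : Poly} {m : ℕ} [NeZero m] {C : Cyc P m} (ρ : Route C)

/-- [QG-H1] for small `ε` all points are inside their edges -/
theorem xx_op (h : C.Nice) : ∀ᶠ ε in 𝓝[>] (0 : ℝ), ∀ i, ρ.xx ε i ∈ P.oseg (ρ.dd i) := by
  have h01 : Set.Ioo (0 : ℝ) 1 ∈ 𝓝[>] (0 : ℝ) := Ioo_mem_nhdsGT zero_lt_one
  filter_upwards [h01] with ε hε i
  have hp := ρ.point_mem i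
  unfold xx
  by_cases hn : P.NV (C.y i.1)
  · rw [if_pos hn]
    exact P.oseg_of_seg hp hn
  · rw [if_neg hn]
    have hv := ρ.hvtx i.1 hn
    rw [hv] at hp ⊢
    unfold Poly.far Poly.oseg
    rw [openSegment_eq_image]
    by_cases ht : P.tail (ρ.dd i) = ρ.vtx i.1
    · rw [if_pos ht]
      refine ⟨ε, hε, ?_⟩
      have hA : P.A (ρ.dd i) = P.pos (ρ.vtx i.1) := by
        unfold Poly.A
        rw [ht]
      rw [hA]
      module
    · rw [if_neg ht]
      rcases P.eq_of_pos_mem_seg hp with h1 | h1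
      · exact absurd h1.symm ht
      · refine ⟨1 - ε, ⟨by linarith [hε.2], by linarith [hε.1]⟩, ?_⟩
        have hB : P.B (ρ.dd i) = P.pos (ρ.vtx i.1) := by
          unfold Poly.B
          rw [h1]
        rw [hB]
        module

end Route

end QGd
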