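import Pool.Agent.Lib_MP_6b5565_dg.Q.F1a

/-! [QG-H2] -/

namespace QGd

open EuclideanGeometry Filter Topology

namespace Poly

variable (P : Poly)

private theorem tail_iterate_rot (a : P.D) (t : ℕ) : P.tail (P.rot^[t] a) = P.tail a := by
  induction t with
  | zero => rfl
  | succ t ih => rw [Function.iterate_succ_apply', P.tail_rot, ih]

private theorem tail_iterate_cw (a : P.D) (t : ℕ) : P.tail (P.cw^[t] a) = P.tail a := by
  induction t with
  | zero => rfl
  | succ t ih => rw [Function.iterate_succ_apply', P.tail_cw, ih]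

private theorem iterate_rot_cw (a : P.D) (t : ℕ) : P.rot^[t] (P.cw^[t] a) = a := by
  have h : Function.LeftInverse P.rot^[t] P.cw^[t] :=
    Function.LeftInverse.iterate (fun d => P.rot_cw d) t
  exact h a

private theorem cw_inj_aux (a : P.D) {t s : ℕ} (h : P.cw^[t] a = P.cw^[t + s] a)
    (hs : s < P.deg (P.tail a)) (hd : 0 < P.deg (P.tail a)) : s = 0 := by
  have h1 : P.rot^[s] a = P.rot^[0] a := by
    have h2 := congrArg P.rot^[s + t] h
    rw [Nat.add_comm s t, P.iterate_rot_cw a (t + s), Nat.add_comm t s, Function.iterate_add_apply,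
      P.iterate_rot_cw a t] at h2
    exact h2
  exact P.iterate_rot_inj a hs hd h1

private theorem cw_inj (a : P.D) {t t' : ℕ} (ht : t < P.deg (P.tail a)) (ht' : t' < P.deg (P.tail a))
    (h : P.cw^[t] a = P.cw^[t'] a) : t = t' := by
  rcases le_total t t' with hle | hle
  · obtain ⟨s, rfl⟩ := Nat.exists_eq_add_of_le hle
    have := P.cw_inj_aux a h (by omega) (by omega)
    omega
  · obtain ⟨s, rfl⟩ := Nat.exists_eq_add_of_le hle
    have := P.cw_inj_aux a h.symm (by omega) (by omega)
    omega

private theorem rot_inj (a : P.D) {t t' : ℕ} (ht : t < P.deg (P.tail a)) (ht' : t' < P.deg (P.tail a))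
    (h : P.rot^[t + 1] a = P.rot^[t' + 1] a) : t = t' := by
  rw [Function.iterate_succ_apply', Function.iterate_succ_apply'] at h
  have h1 := congrArg P.cw h
  rw [P.cw_rot, P.cw_rot] at h1
  exact P.iterate_rot_inj a ht ht' h1

private theorem eq_of_far {v : P.V} {d e : P.D} (hd : P.tail d = v) (he : P.tail e = v)
    (h : P.B d = P.B e) : d = e :=
  P.edge_inj d e (hd.trans he.symm) (P.pos_inj h)

private theorem far_of_tail {v : P.V} {d : P.D} (hd : P.tail d = v) : P.far v d = P.B d := if_pos hd

private theorem far_inv_of_tail {v : P.V} {d : P.D} (hd : P.tail d = v) :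
    P.far v (P.inv d) = P.B d := by
  have h1 : ¬ P.tail (P.inv d) = v := by
    intro h
    exact P.tail_ne_head d (hd.trans h.symm)
  exact if_neg h1

end Poly

namespace Route

variable {P : Poly} {m : ℕ} [NeZero m] {C : Cyc P m} (ρ : Route C)

omit [NeZero m] in
private theorem xx_tendsto (i : ρ.Idx) :
    Tendsto (fun ε => ρ.xx ε i) (𝓝[>] (0 : ℝ)) (𝓝 (C.y i.1)) := by
  unfold xx
  by_cases hv : P.NV (C.y i.1)
  · simp only [if_pos hv]
    exact tendsto_const_nhds
  · simp only [if_neg hv]
    have h1 : ContinuousAt (fun ε : ℝ => C.y i.1 + ε • (P.far (ρ.vtx i.1) (ρ.dd i) - C.y i.1)) 0 := by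
      fun_prop
    have h2 := h1.tendsto
    rw [zero_smul, add_zero] at h2
    exact h2.mono_left nhdsWithin_le_nhds

omit [NeZero m] in
private theorem far_inj {j : ZMod m} (hv : ¬ P.NV (C.y j)) (t t' : Fin (ρ.W j).length)
    (h : P.far (ρ.vtx j) ((ρ.W j).get t) = P.far (ρ.vtx j) ((ρ.W j).get t')) : t = t' := by
  cases hs : ρ.sense j with
  | true =>
    obtain ⟨a, k, ha, hk1, hk2, hW, -⟩ := ρ.cw j hv hs
    have hlen : (ρ.W j).length = k := by rw [hW, P.length_cwD]
    have hget : ∀ s : Fin (ρ.W j).length, (ρ.W j).get s = P.cw^[(s : ℕ)] a := by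
      intro s
      rw [List.get_eq_getElem]
      have h2 : (s : ℕ) < (P.cwD a k).length := by rw [P.length_cwD, ← hlen]; exact s.2
      have h3 := P.getElem_cwD a k s h2
      rw [← h3]
      congr 1
    rw [hget, hget, P.far_of_tail ((P.tail_iterate_cw a _).trans ha),
      P.far_of_tail ((P.tail_iterate_cw a _).trans ha)] at h
    have h4 := P.eq_of_far ((P.tail_iterate_cw a _).trans ha) ((P.tail_iterate_cw a _).trans ha) h
    have h5 := t.2
    have h6 := t'.2
    rw [← ha] at hk2
    exact Fin.ext (P.cw_inj a (by omega) (by omega) h4)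
  | false =>
    obtain ⟨a, k, ha, hk1, hk2, hW, -⟩ := ρ.ccw j hv hs
    have hlen : (ρ.W j).length = k := by rw [hW, P.length_ccwD]
    have hget : ∀ s : Fin (ρ.W j).length, (ρ.W j).get s = P.inv (P.rot^[(s : ℕ) + 1] a) := by
      intro s
      rw [List.get_eq_getElem]
      have h2 : (s : ℕ) < (P.ccwD a k).length := by rw [P.length_ccwD, ← hlen]; exact s.2
      have h3 := P.getElem_ccwD a k s h2
      rw [← h3]
      congr 1
    rw [hget, hget, P.far_inv_of_tail ((P.tail_iterate_rot a _).trans ha),
      P.far_inv_of_tail ((P.tail_iterate_rot a _).trans ha)] at h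
    have h4 := P.eq_of_far ((P.tail_iterate_rot a _).trans ha) ((P.tail_iterate_rot a _).trans ha) h
    have h5 := t.2
    have h6 := t'.2
    rw [← ha] at hk2
    exact Fin.ext (P.rot_inj a (by omega) (by omega) h4)

/-- [QG-H2] for small `ε` all points are different -/
theorem xx_inj (h : C.Nice) (hs : C.Simple) (h3 : 3 ≤ m) (hi : Function.Injective C.y) :
    ∀ᶠ ε in 𝓝[>] (0 : ℝ), Function.Injective (ρ.xx ε) := by
  have key : ∀ i i' : ρ.Idx, ∀ᶠ ε in 𝓝[>] (0 : ℝ), ρ.xx ε i = ρ.xx ε i' → i = i' := by
    intro i i'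
    by_cases hii : i.1 = i'.1
    · obtain ⟨j, t⟩ := i
      obtain ⟨j', t'⟩ := i'
      dsimp only at hii
      subst hii
      by_cases hv : P.NV (C.y j)
      · refine Eventually.of_forall fun ε _ => ?_
        obtain ⟨d, hd, -⟩ := h.single j hv
        have h1 : (ρ.W j).length = 1 := by rw [ρ.nv j hv, hd]; rfl
        have h2 := t.2
        have h4 := t'.2
        have : t = t' := Fin.ext (by omega)
        rw [this]
      · filter_upwards [self_mem_nhdsWithin] with ε hε hx
        have hε0 : (0 : ℝ) < ε := hε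
        unfold xx at hx
        simp only [if_neg hv] at hx
        have h1 := smul_right_injective E3 hε0.ne' (add_left_cancel hx)
        have h2 : P.far (ρ.vtx j) ((ρ.W j).get t) = P.far (ρ.vtx j) ((ρ.W j).get t') :=
          sub_left_injective h1
        rw [ρ.far_inj hv t t' h2]
    · have hne : C.y i.1 ≠ C.y i'.1 := fun hc => hii (hi hc)
      filter_upwards [((ρ.xx_tendsto i).sub (ρ.xx_tendsto i')).eventually_ne
        (sub_ne_zero.2 hne)] with ε hε hx
      exact absurd (sub_eq_zero.2 hx) hε
  have h1 := eventually_all.2 fun i => eventually_all.2 (key i)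
  filter_upwards [h1] with ε hε i i' hx
  exact hε i i' hx

end Route

end QGd
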