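import Pool.Agent.Lib_MP_6b5565_dg.Q.F1b

/-! [QG-H3b] -/

namespace QGd

open EuclideanGeometry Filter Topology

namespace Poly

variable (P : Poly)

/-- a point of a face in the direction of a vertex of the face is on the edge -/
private theorem h3b_zero {d : P.D} {v w : P.V} {q : E3} (hv : P.pos v ∈ P.tri d) (hq : q ∈ P.tri d)
    (hqv : q ≠ P.pos v) (hvw : v ≠ w) (h : ∠ q (P.pos v) (P.pos w) = 0) :
    q ∈ segment ℝ (P.pos v) (P.pos w) := by
  rw [EuclideanGeometry.angle, InnerProductGeometry.angle_eq_zero_iff] at h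
  obtain ⟨h0, r, hr, he⟩ := h
  rw [vsub_eq_sub, vsub_eq_sub] at he
  rcases le_or_gt 1 r with h1 | h1
  · rw [segment_eq_image_lineMap]
    refine ⟨r⁻¹, ⟨by positivity, inv_le_one_of_one_le₀ h1⟩, ?_⟩
    rw [AffineMap.lineMap_apply, vsub_eq_sub, vadd_eq_add, he, smul_smul, inv_mul_cancel₀ hr.ne', one_smul,
      sub_add_cancel]
  · have h2 : P.pos w ∈ segment ℝ (P.pos v) q := by
      rw [segment_eq_image_lineMap]
      refine ⟨r, ⟨hr.le, h1.le⟩, ?_⟩
      rw [AffineMap.lineMap_apply, vsub_eq_sub, vadd_eq_add, ← he, sub_add_cancel]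
    rcases P.vertex_extreme hv hq h2 with h3 | h3
    · exact absurd (P.pos_inj h3).symm hvw
    · rw [← h3]
      exact right_mem_segment _ _ _

private theorem h3b_full {a : P.D} {p q : E3} (hp : p ∈ P.tri a) (hq : q ∈ P.tri a)
    (hpA : p ≠ P.A a) (hqA : q ≠ P.A a) (hpa : p ∉ P.seg a) (hqa : q ∉ P.seg (P.rot a))
    (h : ∠ p (P.A a) (P.B a) ≤ ∠ q (P.A a) (P.B a)) : P.NV p ∧ P.NV q := by
  have hA : P.pos (P.tail a) ∈ P.tri a := subset_convexHull ℝ _ (by simp [Poly.A])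
  have hBr : P.B (P.rot a) = P.pos (P.tail (P.prev a)) := by
    unfold Poly.B
    rw [P.head_rot]
  have hAr : P.A (P.rot a) = P.A a := by
    unfold Poly.A
    rw [P.tail_rot]
  have hsp := P.ang_split hp hpA
  have hsq := P.ang_split hq hqA
  constructor
  · intro w hw
    obtain ⟨e, he, hte⟩ := P.verts_of_pos_mem (hw ▸ hp)
    rcases he with he | he | he
    · exact hpA (by rw [hw, ← hte, he]; rfl)
    · apply hpa
      have : p = P.B a := by
        rw [hw, ← hte, he, ← P.head_eq]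
        rfl
      rw [this]
      exact right_mem_segment _ _ _
    · have hpB : p = P.B (P.rot a) := by rw [hBr, hw, ← hte, he]
      have h0 : ∠ p (P.A a) (P.B (P.rot a)) = 0 := by
        rw [← hpB]
        exact EuclideanGeometry.angle_self_of_ne hpA
      have h1 : ∠ q (P.A a) (P.B (P.rot a)) = 0 := by
        have := EuclideanGeometry.angle_nonneg q (P.A a) (P.B (P.rot a))
        linarith
      apply hqa
      unfold Poly.seg
      rw [hAr, hBr]
      rw [hBr] at h1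
      exact P.h3b_zero hA hq hqA (P.tail_ne_prev a) h1
  · intro w hw
    obtain ⟨e, he, hte⟩ := P.verts_of_pos_mem (hw ▸ hq)
    rcases he with he | he | he
    · exact hqA (by rw [hw, ← hte, he]; rfl)
    · have hqB : q = P.B a := by
        rw [hw, ← hte, he, ← P.head_eq]
        rfl
      have h0 : ∠ q (P.A a) (P.B a) = 0 := by
        rw [← hqB]
        exact EuclideanGeometry.angle_self_of_ne hqA
      have h1 : ∠ p (P.A a) (P.B a) = 0 := by
        have := EuclideanGeometry.angle_nonneg p (P.A a) (P.B a)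
        linarith
      exact hpa (P.h3b_zero hA hp hpA (P.tail_ne_head a) h1)
    · apply hqa
      have : q = P.B (P.rot a) := by rw [hBr, hw, ← hte, he]
      rw [this]
      exact right_mem_segment _ _ _

private theorem h3b_iter_tail_cw (a : P.D) (k : ℕ) : P.tail (P.cw^[k] a) = P.tail a := by
  induction k with
  | zero => rfl
  | succ k ih => rw [Function.iterate_succ_apply', P.tail_cw, ih]

private theorem h3b_iter_tail_rot (a : P.D) (k : ℕ) : P.tail (P.rot^[k] a) = P.tail a := by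
  induction k with
  | zero => rfl
  | succ k ih => rw [Function.iterate_succ_apply', P.tail_rot, ih]

private theorem h3b_rot_inj {a : P.D} {s t : ℕ} (hst : s < t) (ht : t ≤ P.deg (P.tail a))
    (h : P.rot^[s] a = P.rot^[t] a) : s = 0 ∧ t = P.deg (P.tail a) := by
  rcases ht.lt_or_eq with h1 | h1
  · have := P.iterate_rot_inj a (hst.trans h1) h1 h
    omega
  · refine ⟨?_, h1⟩
    rw [h1, P.iterate_rot_deg] at h
    have h2 : P.rot^[s] a = P.rot^[0] a := h
    exact P.iterate_rot_inj a (by omega) (by omega) h2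

private theorem h3b_cw_inj {a : P.D} {s t : ℕ} (hst : s < t) (ht : t ≤ P.deg (P.tail a))
    (h : P.cw^[s] a = P.cw^[t] a) : s = 0 ∧ t = P.deg (P.tail a) := by
  rw [P.iterate_cw_rot a (k := s) (l := P.deg (P.tail a) - s) (by omega),
    P.iterate_cw_rot a (k := t) (l := P.deg (P.tail a) - t) (by omega)] at h
  have := P.h3b_rot_inj (a := a) (s := P.deg (P.tail a) - t) (t := P.deg (P.tail a) - s) (by omega) (by omega)
    h.symm
  omega

end Poly

namespace Route

variable {P : Poly} {m : ℕ} [NeZero m] {C : Cyc P m} (ρ : Route C)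

/-- the faces around a vertex node -/
private theorem h3b_faces (j : ZMod m) (hv : ¬ P.NV (C.y j)) :
    ∃ φ : ℕ → P.D, (∀ s, P.tail (φ s) = ρ.vtx j) ∧ P.SF (ρ.G (j - 1)) (φ 0) ∧
      P.SF (ρ.G j) (φ (ρ.W j).length) ∧
      (∀ (t : ℕ) (ht : t < (ρ.W j).length), P.SF (P.inv (ρ.dd ⟨j, ⟨t, ht⟩⟩)) (φ (t + 1))) ∧
      (∀ s t, s < t → t ≤ (ρ.W j).length → φ s = φ t → s = 0 ∧ t = (ρ.W j).length ∧
        (ρ.W j).length = P.deg (ρ.vtx j)) ∧
      ((ρ.W j).length = P.deg (ρ.vtx j) → C.y (j - 1) ≠ C.y j → C.y (j + 1) ≠ C.y j →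
        P.NV (C.y (j - 1)) ∧ P.NV (C.y (j + 1))) := by
  have hy := ρ.hvtx j hv
  rcases hse : ρ.sense j with _ | _
  · obtain ⟨a, k, hta, hk1, hk, hW, hGa, hGa', hp, hq, hpa, hqa, hang⟩ := ρ.ccw j hv hse
    have hlen : (ρ.W j).length = k := by rw [hW, P.length_ccwD]
    have hA : P.A a = C.y j := by
      rw [hy, ← hta]
      rfl
    refine ⟨fun s => P.rot^[s] a, fun s => by rw [P.h3b_iter_tail_rot, hta], hGa, by rw [hlen]; exact hGa',
      ?_, ?_, ?_⟩
    · intro t ht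
      have h1 : ρ.dd ⟨j, ⟨t, ht⟩⟩ = (P.ccwD a k)[t]'(by rw [← hW]; exact ht) := by
        show (ρ.W j).get ⟨t, ht⟩ = _
        rw [List.get_eq_getElem]
        exact List.getElem_of_eq hW ht
      rw [h1, P.getElem_ccwD, P.inv_inv]
      exact P.SF_refl _
    · intro s t hst ht h
      rw [hlen] at ht
      have := P.h3b_rot_inj hst (by rw [hta]; omega) h
      rw [hta] at this
      omega
    · intro hdeg h1 h2
      rw [hlen] at hdeg
      have hkk : P.rot^[k] a = a := by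
        rw [hdeg, ← hta]
        exact P.iterate_rot_deg a
      rw [hkk] at hq hqa
      rw [← hA] at h1 h2
      have hang' := hang hdeg
      rw [← hta] at hang'
      exact (P.h3b_full hq hp h2 h1 hqa hpa hang').symm
  · obtain ⟨a, k, hta, hk1, hk, hW, hGa, hGa', hp, hq, hpa, hqa, hang⟩ := ρ.cw j hv hse
    have hlen : (ρ.W j).length = k := by rw [hW, P.length_cwD]
    have hA : P.A a = C.y j := by
      rw [hy, ← hta]
      rfl
    refine ⟨fun s => P.cw^[s] a, fun s => by rw [P.h3b_iter_tail_cw, hta], hGa, by rw [hlen]; exact hGa',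
      ?_, ?_, ?_⟩
    · intro t ht
      have h1 : ρ.dd ⟨j, ⟨t, ht⟩⟩ = (P.cwD a k)[t]'(by rw [← hW]; exact ht) := by
        show (ρ.W j).get ⟨t, ht⟩ = _
        rw [List.get_eq_getElem]
        exact List.getElem_of_eq hW ht
      rw [h1, P.getElem_cwD]
      show P.SF _ (P.cw^[t + 1] a)
      rw [Function.iterate_succ_apply']
      exact P.SF_nxt _
    · intro s t hst ht h
      rw [hlen] at ht
      have := P.h3b_cw_inj hst (by rw [hta]; omega) h
      rw [hta] at this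
      omega
    · intro hdeg h1 h2
      rw [hlen] at hdeg
      have hkk : P.cw^[k] a = a := P.iterate_cw_rot a (k := k) (l := 0) (by rw [hta]; omega)
      have hkk1 : P.cw^[k - 1] a = P.rot a := P.iterate_cw_rot a (k := k - 1) (l := 1) (by rw [hta]; omega)
      rw [hkk] at hq
      rw [hkk1] at hqa
      rw [← hA] at h1 h2
      have hang' := hang hdeg
      rw [← hta] at hang'
      exact P.h3b_full hp hq h1 h2 hpa hqa hang'

/-- the face after the last crossing of a node -/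
private theorem h3b_last (h : C.Nice) (j : ZMod m) (t : ℕ) (ht : t + 1 = (ρ.W j).length) :
    P.SF (ρ.G j) (P.inv (ρ.dd ⟨j, ⟨t, by omega⟩⟩)) := by
  by_cases hv : P.NV (C.y j)
  · obtain ⟨d, hd, -⟩ := h.single j hv
    have hW := (ρ.nv j hv).trans hd
    have hw := ρ.walk j
    rw [hW] at hw
    have ht0 : t = 0 := by
      rw [hW] at ht
      simpa using ht
    subst ht0
    have h1 : ρ.dd ⟨j, ⟨0, by omega⟩⟩ = d := by
      show (ρ.W j).get ⟨0, _⟩ = _
      rw [List.get_eq_getElem]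
      exact List.getElem_of_eq hW _
    rw [h1]
    exact P.SF_symm hw.2
  · obtain ⟨φ, h1, h2, h3, h4, -, -⟩ := ρ.h3b_faces j hv
    have h5 := h4 t (by omega)
    rw [ht] at h5
    exact P.SF_trans h3 (P.SF_symm h5)

/-- two consecutive long segments in one face -/
private theorem h3b_long (h : C.Nice) (j : ZMod m) (t t' : ℕ) (ht : t + 1 = (ρ.W j).length)
    (ht' : t' + 1 = (ρ.W (j + 1)).length)
    (hF : P.SF (P.inv (ρ.dd ⟨j, ⟨t, by omega⟩⟩)) (P.inv (ρ.dd ⟨j + 1, ⟨t', by omega⟩⟩))) :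
    ¬ P.NV (C.y (j + 1)) ∧ (ρ.W (j + 1)).length = P.deg (ρ.vtx (j + 1)) ∧ P.NV (C.y (j + 1 - 1)) ∧
      P.NV (C.y (j + 1 + 1)) := by
  have hG : P.SF (ρ.G j) (P.inv (ρ.dd ⟨j + 1, ⟨t', by omega⟩⟩)) := P.SF_trans (ρ.h3b_last h j t ht) hF
  have hne1 : C.y (j + 1 - 1) ≠ C.y (j + 1) := by
    have := C.ne j
    rwa [add_sub_cancel_right]
  have hne2 : C.y (j + 1 + 1) ≠ C.y (j + 1) := (C.ne (j + 1)).symm
  by_cases hv : P.NV (C.y (j + 1))
  · exfalso
    obtain ⟨d, hd, -⟩ := h.single (j + 1) hv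
    have hW := (ρ.nv (j + 1) hv).trans hd
    have hw := ρ.walk (j + 1)
    rw [hW, add_sub_cancel_right] at hw
    have ht0 : t' = 0 := by
      rw [hW] at ht'
      simpa using ht'
    subst ht0
    have h1 : ρ.dd ⟨j + 1, ⟨0, by omega⟩⟩ = d := by
      show (ρ.W (j + 1)).get ⟨0, _⟩ = _
      rw [List.get_eq_getElem]
      exact List.getElem_of_eq hW _
    rw [h1] at hG
    exact P.not_SF_inv d (P.SF_trans (P.SF_symm hw.1) hG)
  · obtain ⟨φ, h1, h2, h3, h4, h5, h6⟩ := ρ.h3b_faces (j + 1) hv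
    rw [add_sub_cancel_right] at h2
    have h7 := h4 t' (by omega)
    rw [ht'] at h7
    have h8 : P.SF (φ 0) (φ (ρ.W (j + 1)).length) :=
      P.SF_trans (P.SF_symm h2) (P.SF_trans hG h7)
    have h9 : φ 0 = φ (ρ.W (j + 1)).length := P.SF_tail_inj h8 (by rw [h1, h1])
    have h10 := h5 0 _ (List.length_pos_iff.2 (ρ.W_ne (j + 1))) le_rfl h9
    exact ⟨hv, h10.2.2, h6 h10.2.2 hne1 hne2⟩

/-- a long segment does not touch a short one in the same face -/
private theorem h3b_mixed (h : C.Nice) (hi : Function.Injective C.y) (j j' : ZMod m) (t t' : ℕ)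
    (ht : t + 1 = (ρ.W j).length) (ht' : t' + 1 < (ρ.W j').length)
    (hF : P.SF (P.inv (ρ.dd ⟨j, ⟨t, by omega⟩⟩)) (P.inv (ρ.dd ⟨j', ⟨t', by omega⟩⟩)))
    (hmem : C.y j' ∈ segment ℝ (C.y j) (C.y (j + 1))) : False := by
  have hv : ¬ P.NV (C.y j') := by
    intro hv
    obtain ⟨d, hd, -⟩ := h.single j' hv
    have hW := (ρ.nv j' hv).trans hd
    rw [hW] at ht'
    simp at ht'
  have hy := ρ.hvtx j' hv
  obtain ⟨φ, h1, h2, h3, h4, h5, -⟩ := ρ.h3b_faces j' hv
  have hk := h4 t' (by omega)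
  have hG := ρ.h3b_last h j t ht
  rw [hy] at hmem
  rcases P.vertex_extreme (ρ.inG j).1 (ρ.inG j).2 hmem with h6 | h6
  · have h7 : j' = j := hi (by rw [hy, h6])
    subst h7
    have h8 : P.SF (φ (ρ.W j').length) (φ (t' + 1)) :=
      P.SF_trans (P.SF_symm h3) (P.SF_trans hG (P.SF_trans hF hk))
    have h9 := P.SF_tail_inj h8 (by rw [h1, h1])
    have h10 := h5 (t' + 1) _ ht' le_rfl h9.symm
    omega
  · have h7 : j' = j + 1 := hi (by rw [hy, h6])
    subst h7
    rw [add_sub_cancel_right] at h2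
    have h8 : P.SF (φ 0) (φ (t' + 1)) :=
      P.SF_trans (P.SF_symm h2) (P.SF_trans hG (P.SF_trans hF hk))
    have h9 := P.SF_tail_inj h8 (by rw [h1, h1])
    have h10 := h5 0 (t' + 1) (by omega) (by omega) h9
    omega

/-- two short segments in the same face -/
private theorem h3b_short (h : C.Nice) (j : ZMod m) (t t' : ℕ)
    (ht : t + 1 < (ρ.W j).length) (ht' : t' + 1 < (ρ.W j).length) (htt : t < t')
    (hF : P.SF (P.inv (ρ.dd ⟨j, ⟨t, by omega⟩⟩)) (P.inv (ρ.dd ⟨j, ⟨t', by omega⟩⟩))) : False := by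
  have hv : ¬ P.NV (C.y j) := by
    intro hv
    obtain ⟨d, hd, -⟩ := h.single j hv
    have hW := (ρ.nv j hv).trans hd
    rw [hW] at ht'
    simp at ht'
  obtain ⟨φ, h1, h2, h3, h4, h5, -⟩ := ρ.h3b_faces j hv
  have hk := h4 t (by omega)
  have hk' := h4 t' (by omega)
  have h8 : P.SF (φ (t + 1)) (φ (t' + 1)) := P.SF_trans (P.SF_symm hk) (P.SF_trans hF hk')
  have h9 := P.SF_tail_inj h8 (by rw [h1, h1])
  have h10 := h5 (t + 1) (t' + 1) (by omega) (by omega) h9
  omega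

/-- [QG-H3b] two different indices whose segments lie in the same face and have touching limits:
the limits touch at a vertex `v = y j`, one is the segment into `v`, the other the segment out of
`v`, the fan at `v` is a full one (`k = deg v`), and `y (j-1)`, `y (j+1)` are inside the edge of this
face opposite to `v`. (The segments inside a fan lie in pairwise different faces, different from the
first and last one; `Simple`; an edge segment `[y (j-1), v]` lies in a face on the side of the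
fan, strictness.) -/
theorem touching (h : C.Nice) (hs : C.Simple) (h3 : 3 ≤ m) (hi : Function.Injective C.y)
    (nx : Equiv.Perm ρ.Idx)
    (h1 : ∀ (j : ZMod m) (t : ℕ) (h : t + 1 < (ρ.W j).length),
        nx ⟨j, ⟨t, by omega⟩⟩ = ⟨j, ⟨t + 1, h⟩⟩)
    (h2 : ∀ (j : ZMod m) (t : ℕ) (h : t + 1 = (ρ.W j).length),
        nx ⟨j, ⟨t, by omega⟩⟩ = ⟨j + 1, ⟨0, List.length_pos_iff.2 (ρ.W_ne (j + 1))⟩⟩)
    (i k : ρ.Idx) (hik : i ≠ k) (hF : P.SF (P.inv (ρ.dd i)) (P.inv (ρ.dd k)))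
    (ht : ¬ Disjoint (segment ℝ (C.y i.1) (C.y (nx i).1)) (segment ℝ (C.y k.1) (C.y (nx k).1))) :
    ∃ j, ¬ P.NV (C.y j) ∧ (ρ.W j).length = P.deg (ρ.vtx j) ∧ P.NV (C.y (j - 1)) ∧
      P.NV (C.y (j + 1)) ∧
      ((i = nx.symm ⟨j, ⟨0, List.length_pos_iff.2 (ρ.W_ne j)⟩⟩ ∧ (k.1 = j ∧ (nx k).1 = j + 1)) ∨
       (k = nx.symm ⟨j, ⟨0, List.length_pos_iff.2 (ρ.W_ne j)⟩⟩ ∧ (i.1 = j ∧ (nx i).1 = j + 1))) := by
  obtain ⟨j, t, htl⟩ := i
  obtain ⟨j', t', htl'⟩ := k
  rw [Set.not_disjoint_iff] at ht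
  obtain ⟨p, hp1, hp2⟩ := ht
  rcases (Nat.succ_le_of_lt htl).lt_or_eq with hl | hl
  · -- `i` short
    have hn1 : nx ⟨j, ⟨t, htl⟩⟩ = ⟨j, ⟨t + 1, hl⟩⟩ := h1 j t hl
    rw [hn1] at hp1
    simp only [segment_same, Set.mem_singleton_iff] at hp1
    rcases (Nat.succ_le_of_lt htl').lt_or_eq with hl' | hl'
    · have hn2 : nx ⟨j', ⟨t', htl'⟩⟩ = ⟨j', ⟨t' + 1, hl'⟩⟩ := h1 j' t' hl'
      rw [hn2] at hp2
      simp only [segment_same, Set.mem_singleton_iff] at hp2
      have hjj : j = j' := hi (by rw [← hp1, ← hp2])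
      subst hjj
      have htt : t ≠ t' := by
        rintro rfl
        exact hik rfl
      rcases lt_or_gt_of_ne htt with h4 | h4
      · exact (ρ.h3b_short h j t t' hl hl' h4 hF).elim
      · exact (ρ.h3b_short h j t' t hl' hl h4 (P.SF_symm hF)).elim
    · have hn2 : nx ⟨j', ⟨t', htl'⟩⟩ = ⟨j' + 1, ⟨0, List.length_pos_iff.2 (ρ.W_ne (j' + 1))⟩⟩ := h2 j' t' hl'
      rw [hn2] at hp2
      rw [hp1] at hp2
      exact (ρ.h3b_mixed h hi j' j t' t hl' hl (P.SF_symm hF) hp2).elim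
  · have hn1 : nx ⟨j, ⟨t, htl⟩⟩ = ⟨j + 1, ⟨0, List.length_pos_iff.2 (ρ.W_ne (j + 1))⟩⟩ := h2 j t hl
    rcases (Nat.succ_le_of_lt htl').lt_or_eq with hl' | hl'
    · have hn2 : nx ⟨j', ⟨t', htl'⟩⟩ = ⟨j', ⟨t' + 1, hl'⟩⟩ := h1 j' t' hl'
      rw [hn1] at hp1
      rw [hn2] at hp2
      simp only [segment_same, Set.mem_singleton_iff] at hp2
      rw [hp2] at hp1
      exact (ρ.h3b_mixed h hi j j' t t' hl hl' hF hp1).elim
    · have hn2 : nx ⟨j', ⟨t', htl'⟩⟩ = ⟨j' + 1, ⟨0, List.length_pos_iff.2 (ρ.W_ne (j' + 1))⟩⟩ := h2 j' t' hl'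
      have hjj : j ≠ j' := by
        rintro rfl
        apply hik
        have : t = t' := by omega
        subst this
        rfl
      rw [hn1] at hp1
      rw [hn2] at hp2
      rcases hs j j' hjj p hp1 hp2 with ⟨h4, -⟩ | ⟨h4, -⟩
      · subst h4
        obtain ⟨a1, a2, a3, a4⟩ := ρ.h3b_long h j t t' hl hl' hF
        refine ⟨j + 1, a1, a2, a3, a4, Or.inl ⟨?_, rfl, ?_⟩⟩
        · rw [← hn1, Equiv.symm_apply_apply]
        · rw [hn2]
      · subst h4
        obtain ⟨a1, a2, a3, a4⟩ := ρ.h3b_long h j' t' t hl' hl (P.SF_symm hF)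
        refine ⟨j' + 1, a1, a2, a3, a4, Or.inr ⟨?_, rfl, ?_⟩⟩
        · rw [← hn2, Equiv.symm_apply_apply]
        · rw [hn1]

end Route

end QGd
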