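import Pool.Agent.Lib_MP_6b5565_dg.Q.H1x

/-! [QG-H4] -/

namespace QGd

open EuclideanGeometry Filter Topology

namespace Route

variable {P : Poly} {m : ℕ} [NeZero m] {C : Cyc P m} (ρ : Route C)

private lemma far_inv {v : P.V} {d : P.D} (hd : P.tail d = v ∨ P.head d = v) :
    P.far v (P.inv d) = P.far v d := by
  have hB : P.B (P.inv d) = P.A d := by
    show P.pos (P.tail (P.inv (P.inv d))) = P.pos (P.tail d)
    rw [P.inv_inv]
  have hA : P.A (P.inv d) = P.B d := rfl
  unfold Poly.far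
  by_cases h1 : P.tail d = v
  · by_cases h2 : P.tail (P.inv d) = v
    · rw [if_pos h1, if_pos h2, hB]
      show P.pos (P.tail d) = P.pos (P.tail (P.inv d))
      rw [h1, h2]
    · rw [if_pos h1, if_neg h2, hA]
  · have h2 : P.tail (P.inv d) = v := hd.resolve_left h1
    rw [if_neg h1, if_pos h2, hB]

/-- [QG-H4] for small `ε`, at a clockwise vertex node the points of the fan are the crossings
nearest to the tail `v` of their edges, at a counterclockwise one nearest to the head -/
theorem xx_nearest (h : C.Nice) (hs : C.Simple) (h3 : 3 ≤ m) (hi : Function.Injective C.y) :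
    ∀ᶠ ε in 𝓝[>] (0 : ℝ), ∀ i k, ¬ P.NV (C.y i.1) →
      (ρ.dd k = ρ.dd i ∨ ρ.dd k = P.inv (ρ.dd i)) →
      dist (ρ.xx ε i) (C.y i.1) ≤ dist (ρ.xx ε k) (C.y i.1) := by
  classical
  have hcont : ∀ i : ρ.Idx, Tendsto (fun ε => ρ.xx ε i) (𝓝[>] (0 : ℝ)) (𝓝 (C.y i.1)) := by
    intro i
    unfold Route.xx
    by_cases hv : P.NV (C.y i.1)
    · simp only [if_pos hv]
      exact tendsto_const_nhds
    · simp only [if_neg hv]
      have hc : Continuous fun ε : ℝ => C.y i.1 + ε • (P.far (ρ.vtx i.1) (ρ.dd i) - C.y i.1) := by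
        fun_prop
      have h1 := hc.tendsto 0
      rw [zero_smul, add_zero] at h1
      exact h1.mono_left nhdsWithin_le_nhds
  rw [eventually_all]
  intro i
  rw [eventually_all]
  intro k
  by_cases hik : k.1 = i.1
  · refine Eventually.of_forall fun ε hv hd => le_of_eq ?_
    have hinc : P.tail (ρ.dd i) = ρ.vtx i.1 ∨ P.head (ρ.dd i) = ρ.vtx i.1 := by
      cases hs' : ρ.sense i.1
      · exact Or.inr (ρ.head_of_ccw hv hs')
      · exact Or.inl (ρ.tail_of_cw hv hs')
    have hfar : P.far (ρ.vtx k.1) (ρ.dd k) = P.far (ρ.vtx i.1) (ρ.dd i) := by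
      rw [hik]
      rcases hd with hd | hd
      · rw [hd]
      · rw [hd, far_inv hinc]
    have hx : ρ.xx ε k = ρ.xx ε i := by
      unfold Route.xx
      rw [hfar, hik]
    rw [hx]
  · have hne : C.y k.1 ≠ C.y i.1 := fun he => hik (hi he)
    have h1 : Tendsto (fun ε => dist (ρ.xx ε i) (C.y i.1)) (𝓝[>] (0 : ℝ)) (𝓝 0) := by
      have := (hcont i).dist (tendsto_const_nhds (x := C.y i.1))
      rwa [dist_self] at this
    have h2 : Tendsto (fun ε => dist (ρ.xx ε k) (C.y i.1)) (𝓝[>] (0 : ℝ))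
        (𝓝 (dist (C.y k.1) (C.y i.1))) :=
      (hcont k).dist tendsto_const_nhds
    filter_upwards [h1.eventually_lt h2 (dist_pos.2 hne)] with ε hε _ _
    exact hε.le

end Route

end QGd
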