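import Pool.Agent.Lib_MP_6b5565_dg.Q.H1x

/-! [QG-H5a] -/

namespace QGd

open EuclideanGeometry Filter Topology

namespace Route

variable {P : Poly} {m : ℕ} [NeZero m] {C : Cyc P m} (ρ : Route C)

omit [NeZero m] in
private theorem tendsto_xx (i : ρ.Idx) : Tendsto (fun ε => ρ.xx ε i) (𝓝[>] 0) (𝓝 (C.y i.1)) := by
  unfold xx
  by_cases hv : P.NV (C.y i.1)
  · simp only [if_pos hv]
    exact tendsto_const_nhds
  · simp only [if_neg hv]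
    have h1 : Continuous fun ε : ℝ => C.y i.1 + ε • (P.far (ρ.vtx i.1) (ρ.dd i) - C.y i.1) := by fun_prop
    have h2 := h1.tendsto 0
    simp only [zero_smul, add_zero] at h2
    exact h2.mono_left nhdsWithin_le_nhds

omit [NeZero m] in
private theorem idx_eq {a b : ZMod m} (h : a = b) (ha : 0 < (ρ.W a).length) (hb : 0 < (ρ.W b).length) :
    (⟨a, ⟨0, ha⟩⟩ : ρ.Idx) = ⟨b, ⟨0, hb⟩⟩ := by
  subst h
  rfl

/-- [QG-H5a] limit of the angle sum at a non-vertex node: `0` (straightness; angles are continuous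
where the two points are different from the vertex of the angle) -/
theorem lim_nv (h : C.Nice) (nx : Equiv.Perm ρ.Idx)
    (h1 : ∀ (j : ZMod m) (t : ℕ) (h : t + 1 < (ρ.W j).length),
        nx ⟨j, ⟨t, by omega⟩⟩ = ⟨j, ⟨t + 1, h⟩⟩)
    (h2 : ∀ (j : ZMod m) (t : ℕ) (h : t + 1 = (ρ.W j).length),
        nx ⟨j, ⟨t, by omega⟩⟩ = ⟨j + 1, ⟨0, List.length_pos_iff.2 (ρ.W_ne (j + 1))⟩⟩)
    (j : ZMod m) (hj : P.NV (C.y j)) :
    Tendsto (fun ε => ∑ t : Fin (ρ.W j).length,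
      (Real.pi - ∠ (ρ.xx ε (nx.symm ⟨j, t⟩)) (ρ.xx ε ⟨j, t⟩) (P.B (ρ.dd ⟨j, t⟩)) -
        ∠ (ρ.xx ε (nx ⟨j, t⟩)) (ρ.xx ε ⟨j, t⟩) (P.B (ρ.dd ⟨j, t⟩)))) (𝓝[>] 0) (𝓝 (ρ.turn j)) := by
  obtain ⟨d, hd, -⟩ := h.single j hj
  have hW : ρ.W j = [d] := (ρ.nv j hj).trans hd
  have hlen : (ρ.W j).length = 1 := by rw [hW]; rfl
  have hturn : ρ.turn j = 0 := by
    unfold turn
    rw [if_pos hj]
  have h0 : 0 < (ρ.W j).length := by rw [hlen]; exact one_pos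
  have hsub : Subsingleton (Fin (ρ.W j).length) := Fin.subsingleton_iff_le_one.2 hlen.le
  have hdd : ρ.dd ⟨j, ⟨0, h0⟩⟩ = d := by
    unfold dd
    simp [hW]
  have hnx : nx ⟨j, ⟨0, h0⟩⟩ = ⟨j + 1, ⟨0, List.length_pos_iff.2 (ρ.W_ne (j + 1))⟩⟩ := h2 j 0 (by rw [hlen])
  have hL : 0 < (ρ.W (j - 1)).length := List.length_pos_iff.2 (ρ.W_ne (j - 1))
  have hsy : nx.symm ⟨j, ⟨0, h0⟩⟩ = ⟨j - 1, ⟨(ρ.W (j - 1)).length - 1, by omega⟩⟩ := by
    rw [Equiv.symm_apply_eq, h2 (j - 1) ((ρ.W (j - 1)).length - 1) (by omega)]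
    exact ρ.idx_eq (by ring) _ _
  rw [hturn]
  simp only [Fintype.sum_subsingleton _ (⟨0, h0⟩ : Fin (ρ.W j).length), hnx, hsy, hdd]
  have hB : P.B d ≠ C.y j := fun h' => hj (P.head d) h'.symm
  have hl : C.y (j - 1) ≠ C.y j := by
    have := C.ne (j - 1)
    rwa [sub_add_cancel] at this
  have hr : C.y (j + 1) ≠ C.y j := (C.ne j).symm
  have t0 := ρ.tendsto_xx ⟨j, ⟨0, h0⟩⟩
  have t1 := ρ.tendsto_xx ⟨j - 1, ⟨(ρ.W (j - 1)).length - 1, by omega⟩⟩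
  have t2 := ρ.tendsto_xx ⟨j + 1, ⟨0, List.length_pos_iff.2 (ρ.W_ne (j + 1))⟩⟩
  have a1 := (continuousAt_angle (x := (C.y (j - 1), C.y j, P.B d)) hl hB).tendsto.comp
    (t1.prodMk_nhds (t0.prodMk_nhds (tendsto_const_nhds (x := P.B d))))
  have a2 := (continuousAt_angle (x := (C.y (j + 1), C.y j, P.B d)) hr hB).tendsto.comp
    (t2.prodMk_nhds (t0.prodMk_nhds (tendsto_const_nhds (x := P.B d))))
  have a3 := ((tendsto_const_nhds (x := Real.pi)).sub a1).sub a2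
  have hs := h.straight j d hj hd
  rw [angle_comm (P.B d)] at hs
  have e : Real.pi - ∠ (C.y (j - 1)) (C.y j) (P.B d) - ∠ (C.y (j + 1)) (C.y j) (P.B d) = 0 := by linarith
  simp only [Function.comp_def] at a3
  rw [e] at a3
  exact a3

end Route

end QGd
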