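import Pool.Agent.Lib_MP_6b5565_dg.Q.C2a
import Pool.Agent.Lib_MP_6b5565_dg.Q.Tri

/-! [QG-C2b] the two fans around a vertex -/

namespace QGd

open EuclideanGeometry

namespace Poly

variable (P : Poly)

private theorem C2b_tail_rot (a : P.D) (k : ℕ) : P.tail (P.rot^[k] a) = P.tail a := by
  induction k with
  | zero => rfl
  | succ k ih => rw [Function.iterate_succ_apply', P.tail_rot, ih]

private theorem C2b_tot {v : P.V} {a : P.D} (ha : P.tail a = v) :
    P.tot v = ∑ j ∈ Finset.range (P.deg v), P.ang (P.rot^[j] a) := by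
  subst ha
  have h1 : Finset.univ.filter (fun d => P.tail d = P.tail a)
      = (Finset.range (P.deg (P.tail a))).image (fun k => P.rot^[k] a) := by
    ext d
    simp only [Finset.mem_filter, Finset.mem_univ, true_and, Finset.mem_image, Finset.mem_range]
    constructor
    · intro h
      obtain ⟨k, hk, h2⟩ := P.exists_iterate_rot a d h.symm
      exact ⟨k, hk, h2⟩
    · rintro ⟨k, -, rfl⟩
      exact P.C2b_tail_rot a k
  unfold tot
  rw [h1, Finset.sum_image]
  intro i hi j hj h
  exact P.iterate_rot_inj a (by simpa using hi) (by simpa using hj) h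

private theorem C2b_cwD_succ (a : P.D) (k : ℕ) : P.cwD a (k + 1) = P.cwD a k ++ [P.cw^[k] a] := by
  induction k generalizing a with
  | zero => rfl
  | succ k ih =>
    have h1 : P.cwD a (k + 1 + 1) = a :: P.cwD (P.cw a) (k + 1) := rfl
    have h2 : P.cwD a (k + 1) = a :: P.cwD (P.cw a) k := rfl
    rw [h1, ih (P.cw a), h2, Function.iterate_succ_apply]
    rfl

private theorem C2b_ccwD_add (a : P.D) (k m : ℕ) :
    P.ccwD a (k + m) = P.ccwD a k ++ P.ccwD (P.rot^[k] a) m := by
  induction k generalizing a with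
  | zero => simp [ccwD]
  | succ k ih =>
    have h1 : P.ccwD a (k + 1 + m) = P.prev a :: P.ccwD (P.rot a) (k + m) := by
      rw [show k + 1 + m = (k + m) + 1 by omega]
      rfl
    have h2 : P.ccwD a (k + 1) = P.prev a :: P.ccwD (P.rot a) k := rfl
    rw [h1, ih (P.rot a), h2, Function.iterate_succ_apply]
    rfl

private theorem C2b_par_back (a : P.D) (m : ℕ) (e : P.D) :
    P.par (P.ccwD (P.cw^[m] a) m) e = P.par (P.cwD a m) e := by
  induction m with
  | zero => rfl
  | succ m ih =>
    have h1 : P.ccwD (P.cw^[m + 1] a) (m + 1) = [P.inv (P.cw^[m] a)] ++ P.ccwD (P.cw^[m] a) m := by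
      rw [Function.iterate_succ_apply']
      have h2 : P.ccwD (P.cw (P.cw^[m] a)) (m + 1) =
          P.prev (P.cw (P.cw^[m] a)) :: P.ccwD (P.rot (P.cw (P.cw^[m] a))) m := rfl
      rw [h2, P.rot_cw]
      have h3 : P.prev (P.cw (P.cw^[m] a)) = P.inv (P.cw^[m] a) := P.prev_nxt _
      rw [h3]
      rfl
    rw [h1, P.C2b_cwD_succ, P.par_append, P.par_append, ih, add_comm]
    congr 1
    exact congrFun (P.par_map_inv [P.cw^[m] a]) e

private theorem C2b_par {v : P.V} {a : P.D} (ha : P.tail a = v) {k m : ℕ} (h : k + m = P.deg v)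
    (e : P.D) : P.par (P.ccwD a k) e + P.par (P.cwD a m) e = P.star v e := by
  subst ha
  rw [← P.par_ccwD_full a e, ← h, P.C2b_ccwD_add, P.par_append, ← P.C2b_par_back a m e,
    P.iterate_cw_rot a (show m + k = _ by omega)]

/-- sum of the angles of the faces strictly between, clockwise -/
private theorem C2b_sum_cw {v : P.V} {a : P.D} (ha : P.tail a = v) {k m : ℕ} (h : k + m = P.deg v) :
    ∑ j ∈ Finset.Ico 1 m, P.ang (P.cw^[j] a) =
      ∑ j ∈ Finset.Ico (k + 1) (P.deg v), P.ang (P.rot^[j] a) := by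
  subst ha
  refine Finset.sum_bij' (fun j _ => P.deg (P.tail a) - j) (fun j _ => P.deg (P.tail a) - j) ?_ ?_ ?_ ?_ ?_
  · intro j hj
    rw [Finset.mem_Ico] at hj ⊢
    omega
  · intro j hj
    rw [Finset.mem_Ico] at hj ⊢
    omega
  · intro j hj
    rw [Finset.mem_Ico] at hj
    show P.deg (P.tail a) - (P.deg (P.tail a) - j) = j
    omega
  · intro j hj
    rw [Finset.mem_Ico] at hj
    show P.deg (P.tail a) - (P.deg (P.tail a) - j) = j
    omega
  · intro j hj
    rw [Finset.mem_Ico] at hj
    rw [P.iterate_cw_rot a (show j + (P.deg (P.tail a) - j) = _ by omega)]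

/-- [QG-C2] FANS EXIST. `p` in the face of `a`, `q` in the face of `b`, both faces at `v`. There
are two fans from the face of `a` to the face of `b`, whose angles add up to `tot v` and which
together cross every edge at `v` an odd number of times.
If `a ≠ b`: `b = rot^k a`, `0 < k < deg v`; `W₁ = ccwD a k`, `W₂ = cwD a (deg v - k)`
(`iterate_cw_rot`); the angles at `p` and at `q` add up to `ang a`, `ang b` by `ang_split`.
If `a = b`: `W₁ = []` with angle `∠ p v q` and `W₂` the full clockwise fan if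
`∠ p v (B a) ≤ ∠ q v (B a)`, the full counterclockwise fan otherwise (`ang_diff`). -/
theorem fan_exists (v : P.V) {a b : P.D} (ha : P.tail a = v) (hb : P.tail b = v) {p q : E3}
    (hp : p ∈ P.tri a) (hq : q ∈ P.tri b) (hpz : p ≠ P.pos v) (hqz : q ≠ P.pos v) :
    ∃ W₁ W₂, P.IsFan v p q a W₁ b ∧ P.IsFan v p q a W₂ b ∧
      P.fang v p W₁ q + P.fang v p W₂ q = P.tot v ∧
      ∀ e, P.par W₁ e + P.par W₂ e = P.star v e := by
  have hdeg := P.three_le_deg v
  have hAa : P.A a = P.pos v := by rw [← ha]; rfl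
  have hAb : P.A b = P.pos v := by rw [← hb]; rfl
  have sp := P.ang_split hp (by rw [hAa]; exact hpz)
  have sq := P.ang_split hq (by rw [hAb]; exact hqz)
  rw [hAa] at sp
  rw [hAb] at sq
  by_cases hab : a = b
  · subst hab
    have hd := P.ang_diff hp (by rw [hAa]; exact hpz) hq (by rw [hAa]; exact hqz)
    rw [hAa] at hd
    have htot := P.C2b_tot ha
    rw [Finset.range_eq_Ico, Finset.sum_eq_sum_Ico_succ_bot (by omega)] at htot
    have h0 : P.rot^[0] a = a := rfl
    rw [h0] at htot
    have hfull : P.cw^[P.deg v] a = a := by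
      rw [P.iterate_cw_rot a (show P.deg v + 0 = _ by rw [ha]; rfl)]
      rfl
    have hfull' : P.rot^[P.deg v] a = a := by
      have := P.iterate_rot_deg a
      rwa [ha] at this
    rcases le_total (∠ p (P.pos v) (P.B a)) (∠ q (P.pos v) (P.B a)) with hle | hle
    · refine ⟨[], P.cwD a (P.deg v), Or.inl ⟨rfl, rfl⟩,
        Or.inr (Or.inl ⟨P.deg v, by omega, le_rfl, rfl, hfull.symm, fun _ => hle⟩), ?_, ?_⟩
      · rw [P.fang_nil, P.fang_cwD ha _ (by omega), P.C2b_sum_cw ha (zero_add (P.deg v))]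
        rw [P.iterate_cw_rot a (show P.deg v - 1 + 1 = _ by rw [ha]; omega)]
        have h1 : P.rot^[1] a = P.rot a := rfl
        rw [h1, hd, abs_of_nonpos (by linarith), htot,
          EuclideanGeometry.angle_comm (P.B (P.rot a)) (P.pos v) q]
        linarith
      · intro e
        rw [P.par_nil, zero_add]
        have := P.par_cwD_full a e
        rwa [ha] at this
    · refine ⟨[], P.ccwD a (P.deg v), Or.inl ⟨rfl, rfl⟩,
        Or.inr (Or.inr ⟨P.deg v, by omega, le_rfl, rfl, hfull'.symm, fun _ => hle⟩), ?_, ?_⟩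
      · rw [P.fang_nil, P.fang_ccwD ha _ (by omega), hfull', hd, abs_of_nonneg (by linarith), htot,
          EuclideanGeometry.angle_comm (P.B a) (P.pos v) q]
        have h1 : (0 : ℕ) + 1 = 1 := rfl
        rw [h1]
        linarith
      · intro e
        rw [P.par_nil, zero_add]
        have := P.par_ccwD_full a e
        rwa [ha] at this
  · obtain ⟨k, hk, hkb⟩ := P.exists_iterate_rot a b (ha.trans hb.symm)
    rw [ha] at hk
    have hk0 : k ≠ 0 := by
      rintro rfl
      exact hab hkb
    have hk1 : 1 ≤ k := Nat.one_le_iff_ne_zero.2 hk0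
    have hsum : k + (P.deg v - k) = P.deg v := by omega
    have hcw : P.cw^[P.deg v - k] a = b := by
      rw [P.iterate_cw_rot a (show P.deg v - k + k = _ by rw [ha]; omega), hkb]
    refine ⟨P.ccwD a k, P.cwD a (P.deg v - k),
      Or.inr (Or.inr ⟨k, hk1, hk.le, rfl, hkb.symm, fun h => absurd h hk.ne⟩),
      Or.inr (Or.inl ⟨P.deg v - k, by omega, by omega, rfl, hcw.symm, fun h => absurd h (by omega)⟩),
      ?_, fun e => P.C2b_par ha hsum e⟩
    rw [P.fang_ccwD ha _ hk1, P.fang_cwD ha _ (by omega), P.C2b_sum_cw ha hsum, hkb]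
    rw [P.iterate_cw_rot a (show P.deg v - k - 1 + (k + 1) = _ by rw [ha]; omega),
      Function.iterate_succ_apply', hkb]
    have htot := P.C2b_tot ha
    rw [Finset.range_eq_Ico, Finset.sum_eq_sum_Ico_succ_bot (by omega),
      ← Finset.sum_Ico_consecutive _ (show 0 + 1 ≤ k by omega) (show k ≤ P.deg v by omega),
      Finset.sum_eq_sum_Ico_succ_bot hk, hkb] at htot
    have h0 : P.rot^[0] a = a := rfl
    rw [h0] at htot
    rw [htot, EuclideanGeometry.angle_comm (P.B b) (P.pos v) q,
      EuclideanGeometry.angle_comm (P.B (P.rot b)) (P.pos v) q]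
    have h1 : (0 : ℕ) + 1 = 1 := rfl
    rw [h1]
    linarith

/-- a fan with no crossing has angle less than `π` -/
theorem fang_nil_lt {v : P.V} {a : P.D} (ha : P.tail a = v) {p q : E3}
    (hp : p ∈ P.tri a) (hq : q ∈ P.tri a) (hpz : p ≠ P.pos v) (hqz : q ≠ P.pos v) :
    P.fang v p [] q < Real.pi := by
  have hAa : P.A a = P.pos v := by rw [← ha]; rfl
  have sp := P.ang_split hp (by rw [hAa]; exact hpz)
  have sq := P.ang_split hq (by rw [hAa]; exact hqz)
  have hd := P.ang_diff hp (by rw [hAa]; exact hpz) hq (by rw [hAa]; exact hqz)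
  rw [P.fang_nil, ← hAa, hd]
  refine lt_of_le_of_lt ?_ (P.ang_lt a)
  rw [abs_le]
  have e1 := EuclideanGeometry.angle_nonneg p (P.A a) (P.B a)
  have e2 := EuclideanGeometry.angle_nonneg q (P.A a) (P.B a)
  have e3 := EuclideanGeometry.angle_nonneg p (P.A a) (P.B (P.rot a))
  have e4 := EuclideanGeometry.angle_nonneg q (P.A a) (P.B (P.rot a))
  constructor <;> linarith

end Poly

end QGd
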