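import Pool.Agent.Lib_MP_6b5565_dg.Q.H1x
import Pool.Agent.Lib_MP_6b5565_dg.Q.Fan

/-! [QG-H5b] -/

namespace QGd

open EuclideanGeometry Filter Topology

private theorem h5b_sbtw {v b : E3} (hb : v ≠ b) {ε : ℝ} (h0 : 0 < ε) (h1 : ε < 1) :
    Sbtw ℝ v (v + ε • (b - v)) b := by
  have h2 : v + ε • (b - v) = AffineMap.lineMap v b ε := by
    rw [AffineMap.lineMap_apply, vsub_eq_sub, vadd_eq_add, add_comm]
  rw [h2, sbtw_lineMap_iff]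
  exact ⟨hb, h0, h1⟩

/-- the two angles at the inner segments of a fan -/
private theorem h5b_inner {v b b' : E3} (hb : v ≠ b) (hb' : v ≠ b') {ε : ℝ} (h0 : 0 < ε)
    (h1 : ε < 1) : ∠ (v + ε • (b - v)) (v + ε • (b' - v)) b' +
      ∠ (v + ε • (b' - v)) (v + ε • (b - v)) b = Real.pi + ∠ b v b' := by
  have s := h5b_sbtw hb h0 h1
  have s' := h5b_sbtw hb' h0 h1
  have hz : v + ε • (b - v) ≠ v := s.ne_left
  have ang : ∠ (v + ε • (b' - v)) v (v + ε • (b - v)) = ∠ b v b' := by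
    rw [angle_comm]
    unfold EuclideanGeometry.angle
    rw [vsub_eq_sub, vsub_eq_sub, add_sub_cancel_left, add_sub_cancel_left, vsub_eq_sub, vsub_eq_sub,
      InnerProductGeometry.angle_smul_left_of_pos _ _ h0, InnerProductGeometry.angle_smul_right_of_pos _ _ h0]
  generalize v + ε • (b - v) = z at *
  generalize v + ε • (b' - v) = z' at *
  have e1 := angle_add_angle_eq_pi_of_angle_eq_pi z' s.angle₁₂₃_eq_pi
  have e2 := angle_add_angle_eq_pi_of_angle_eq_pi z s'.angle₁₂₃_eq_pi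
  have e3 := angle_add_angle_add_angle_eq_pi z' hz
  rw [ang] at e3
  rw [angle_comm v z z'] at e3
  linarith

private theorem h5b_lim {f g : ℝ → E3} {a v b : E3} (hf : Tendsto f (𝓝[>] 0) (𝓝 a))
    (hg : Tendsto g (𝓝[>] 0) (𝓝 v)) (ha : a ≠ v) (hb : v ≠ b) :
    Tendsto (fun ε => ∠ (f ε) (g ε) b) (𝓝[>] 0) (𝓝 (∠ a v b)) := by
  have h6 : ContinuousAt (fun y : E3 × E3 => InnerProductGeometry.angle y.1 y.2)
      (a - v, b - v) :=
    InnerProductGeometry.continuousAt_angle (x := (a - v, b - v)) (sub_ne_zero.2 ha)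
      (sub_ne_zero.2 hb.symm)
  have h7 : Tendsto (fun ε => (f ε - g ε, b - g ε)) (𝓝[>] 0) (𝓝 (a - v, b - v)) :=
    (hf.sub hg).prodMk_nhds (hg.const_sub b)
  have h8 := h6.tendsto.comp h7
  exact h8

/-- the sum over the fan -/
private theorem h5b_sum {n : ℕ} (hn : 0 < n) (p q : Fin n → ℝ) (a : ℕ → ℝ)
    (hpq : ∀ t (h : t + 1 < n), p ⟨t + 1, h⟩ + q ⟨t, by omega⟩ = Real.pi + a t) :
    ∑ t, (Real.pi - p t - q t) = Real.pi - p ⟨0, hn⟩ - q ⟨n - 1, by omega⟩ -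
      ∑ t ∈ Finset.range (n - 1), a t := by
  obtain ⟨l, rfl⟩ : ∃ l, n = l + 1 := ⟨n - 1, by omega⟩
  rw [Finset.sum_sub_distrib, Finset.sum_sub_distrib, Fin.sum_univ_succ p,
    Fin.sum_univ_castSucc q]
  have h1 : ∑ t : Fin l, p t.succ + ∑ t : Fin l, q t.castSucc =
      ∑ t : Fin l, (Real.pi + a (t : ℕ)) := by
    rw [← Finset.sum_add_distrib]
    exact Finset.sum_congr rfl fun t _ => hpq t (by have := t.2; omega)
  have h2 : ∑ t : Fin l, (Real.pi + a (t : ℕ)) = l * Real.pi + ∑ t ∈ Finset.range l, a t := by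
    rw [Finset.sum_add_distrib, Finset.sum_const, Finset.card_univ, Fintype.card_fin, nsmul_eq_mul,
      Finset.sum_range]
  have h3 : ∑ _t : Fin (l + 1), Real.pi = l * Real.pi + Real.pi := by
    rw [Finset.sum_const, Finset.card_univ, Fintype.card_fin, nsmul_eq_mul]
    push_cast
    ring
  have h4 : p ⟨0, hn⟩ = p 0 := rfl
  have h5 : q ⟨l + 1 - 1, by omega⟩ = q (Fin.last l) := rfl
  rw [h3, h4, h5, add_tsub_cancel_right]
  rw [h2] at h1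
  linarith

/-- the total angle as a sum -/
private theorem h5b_angList (z q : E3) (L : List E3) : ∀ p : E3, L ≠ [] →
    angList z (p :: (L ++ [q])) = ∠ p z (L.getD 0 0) +
      ∑ t ∈ Finset.range (L.length - 1), ∠ (L.getD t 0) z (L.getD (t + 1) 0) +
      ∠ (L.getD (L.length - 1) 0) z q := by
  induction L with
  | nil => intro p h; exact absurd rfl h
  | cons b L ih =>
    intro p _
    cases L with
    | nil =>
      simp [angList]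
    | cons b' L =>
      have h1 := ih b (by simp)
      have h2 : angList z (p :: ((b :: b' :: L) ++ [q])) =
          ∠ p z b + angList z (b :: ((b' :: L) ++ [q])) := rfl
      rw [h2, h1]
      have h3 : (b :: b' :: L).length - 1 = (b' :: L).length - 1 + 1 := by simp
      rw [h3, Finset.sum_range_succ']
      simp only [List.getD_cons_succ, List.getD_cons_zero]
      ring

namespace Route

variable {P : Poly} {m : ℕ} [NeZero m] {C : Cyc P m} (ρ : Route C)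

private theorem h5b_tendsto_xx (i : ρ.Idx) :
    Tendsto (fun ε => ρ.xx ε i) (𝓝[>] 0) (𝓝 (C.y i.1)) := by
  unfold xx
  split_ifs with h
  · exact tendsto_const_nhds
  · have h1 : Continuous fun ε : ℝ => C.y i.1 + ε • (P.far (ρ.vtx i.1) (ρ.dd i) - C.y i.1) := by
      fun_prop
    have h2 := h1.tendsto 0
    rw [zero_smul, add_zero] at h2
    exact h2.mono_left nhdsWithin_le_nhds

/-- [QG-H5b] clockwise vertex node with `k` crossings: inside the fan the angle at index `t` towards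
`t+1` and the angle at `t+1` towards `t` add up to `π + ang` exactly (triangle with vertex `v`), so
the sum is `k π - ∠(prev) - ∠(next) - ∑ (π + ang)` and tends to `π - ρ.ang j` -/
theorem lim_cw (h : C.Nice) (nx : Equiv.Perm ρ.Idx)
    (h1 : ∀ (j : ZMod m) (t : ℕ) (h : t + 1 < (ρ.W j).length),
        nx ⟨j, ⟨t, by omega⟩⟩ = ⟨j, ⟨t + 1, h⟩⟩)
    (h2 : ∀ (j : ZMod m) (t : ℕ) (h : t + 1 = (ρ.W j).length),
        nx ⟨j, ⟨t, by omega⟩⟩ = ⟨j + 1, ⟨0, List.length_pos_iff.2 (ρ.W_ne (j + 1))⟩⟩)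
    (j : ZMod m) (hj : ¬ P.NV (C.y j)) (hsen : ρ.sense j = true) :
    Tendsto (fun ε => ∑ t : Fin (ρ.W j).length,
      (Real.pi - ∠ (ρ.xx ε (nx.symm ⟨j, t⟩)) (ρ.xx ε ⟨j, t⟩) (P.B (ρ.dd ⟨j, t⟩)) -
        ∠ (ρ.xx ε (nx ⟨j, t⟩)) (ρ.xx ε ⟨j, t⟩) (P.B (ρ.dd ⟨j, t⟩)))) (𝓝[>] 0) (𝓝 (ρ.turn j)) := by
  have hn : 0 < (ρ.W j).length := List.length_pos_iff.2 (ρ.W_ne j)
  have hv : C.y j = P.pos (ρ.vtx j) := ρ.hvtx j hj
  -- the half-edges start at the vertex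
  have htail : ∀ t : Fin (ρ.W j).length, P.tail (ρ.dd ⟨j, t⟩) = ρ.vtx j :=
    fun t => ρ.tail_of_cw (i := ⟨j, t⟩) hj hsen
  have hfar : ∀ t : Fin (ρ.W j).length, P.far (ρ.vtx j) (ρ.dd ⟨j, t⟩) = P.B (ρ.dd ⟨j, t⟩) := by
    intro t
    rw [Poly.far, if_pos (htail t)]
  have hneB : ∀ t : Fin (ρ.W j).length, C.y j ≠ P.B (ρ.dd ⟨j, t⟩) := by
    intro t
    have h3 := P.A_ne_B (ρ.dd ⟨j, t⟩)
    rw [Poly.A, htail t, ← hv] at h3
    exact h3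
  have hxx : ∀ (ε : ℝ) (t : Fin (ρ.W j).length),
      ρ.xx ε ⟨j, t⟩ = C.y j + ε • (P.B (ρ.dd ⟨j, t⟩) - C.y j) := by
    intro ε t
    unfold xx
    rw [if_neg hj, hfar t]
  -- the far ends
  set L : List E3 := (ρ.W j).map (P.far (ρ.vtx j)) with hL
  have hLlen : L.length = (ρ.W j).length := List.length_map _
  have hLget : ∀ (t : ℕ) (ht : t < (ρ.W j).length), L.getD t 0 = P.B (ρ.dd ⟨j, ⟨t, ht⟩⟩) := by
    intro t ht
    rw [← hfar, List.getD_eq_getElem _ _ (by rw [hLlen]; exact ht)]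
    simp only [hL, List.getElem_map]
    rfl
  -- previous and next indices
  have hprev : ∀ (t : ℕ) (ht : t + 1 < (ρ.W j).length),
      nx.symm ⟨j, ⟨t + 1, ht⟩⟩ = ⟨j, ⟨t, by omega⟩⟩ := by
    intro t ht
    rw [Equiv.symm_apply_eq, h1 j t ht]
  have hprev0 : (nx.symm ⟨j, ⟨0, hn⟩⟩).1 = j - 1 := by
    have hn' : 0 < (ρ.W (j - 1)).length := List.length_pos_iff.2 (ρ.W_ne (j - 1))
    have h3 := h2 (j - 1) ((ρ.W (j - 1)).length - 1) (by omega)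
    have h4 : nx ⟨j - 1, ⟨(ρ.W (j - 1)).length - 1, by omega⟩⟩ = ⟨j, ⟨0, hn⟩⟩ := by
      rw [h3]
      have h5 : ∀ (j' : ZMod m) (hj' : j' = j), (⟨j', ⟨0, List.length_pos_iff.2 (ρ.W_ne j')⟩⟩ : ρ.Idx) =
          ⟨j, ⟨0, hn⟩⟩ := by
        rintro _ rfl
        rfl
      exact h5 _ (sub_add_cancel j 1)
    rw [← h4, Equiv.symm_apply_apply]
  have hnext : nx ⟨j, ⟨(ρ.W j).length - 1, by omega⟩⟩ =
      ⟨j + 1, ⟨0, List.length_pos_iff.2 (ρ.W_ne (j + 1))⟩⟩ := h2 j _ (by omega)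
  -- the exact value
  have key : ∀ ε : ℝ, 0 < ε → ε < 1 → ∑ t : Fin (ρ.W j).length,
      (Real.pi - ∠ (ρ.xx ε (nx.symm ⟨j, t⟩)) (ρ.xx ε ⟨j, t⟩) (P.B (ρ.dd ⟨j, t⟩)) -
        ∠ (ρ.xx ε (nx ⟨j, t⟩)) (ρ.xx ε ⟨j, t⟩) (P.B (ρ.dd ⟨j, t⟩))) =
      Real.pi - ∠ (ρ.xx ε (nx.symm ⟨j, ⟨0, hn⟩⟩)) (ρ.xx ε ⟨j, ⟨0, hn⟩⟩) (P.B (ρ.dd ⟨j, ⟨0, hn⟩⟩)) -
        ∠ (ρ.xx ε (nx ⟨j, ⟨(ρ.W j).length - 1, by omega⟩⟩))
          (ρ.xx ε ⟨j, ⟨(ρ.W j).length - 1, by omega⟩⟩)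
          (P.B (ρ.dd ⟨j, ⟨(ρ.W j).length - 1, by omega⟩⟩)) -
        ∑ t ∈ Finset.range ((ρ.W j).length - 1), ∠ (L.getD t 0) (C.y j) (L.getD (t + 1) 0) := by
    intro ε h0 h1'
    refine h5b_sum hn
      (fun t => ∠ (ρ.xx ε (nx.symm ⟨j, t⟩)) (ρ.xx ε ⟨j, t⟩) (P.B (ρ.dd ⟨j, t⟩)))
      (fun t => ∠ (ρ.xx ε (nx ⟨j, t⟩)) (ρ.xx ε ⟨j, t⟩) (P.B (ρ.dd ⟨j, t⟩)))
      (fun t => ∠ (L.getD t 0) (C.y j) (L.getD (t + 1) 0)) ?_
    intro t ht
    rw [hprev t ht, h1 j t ht, hxx, hxx, hLget t (by omega), hLget (t + 1) ht]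
    exact h5b_inner (hneB _) (hneB _) h0 h1'
  -- the limits of the two end angles
  have lim1 : Tendsto (fun ε => ∠ (ρ.xx ε (nx.symm ⟨j, ⟨0, hn⟩⟩)) (ρ.xx ε ⟨j, ⟨0, hn⟩⟩)
      (P.B (ρ.dd ⟨j, ⟨0, hn⟩⟩))) (𝓝[>] 0)
      (𝓝 (∠ (C.y (j - 1)) (C.y j) (P.B (ρ.dd ⟨j, ⟨0, hn⟩⟩)))) := by
    have hne : C.y (j - 1) ≠ C.y j := by
      have := C.ne (j - 1)
      rwa [sub_add_cancel] at this
    have h3 := (h5b_tendsto_xx ρ (nx.symm ⟨j, ⟨0, hn⟩⟩))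
    rw [hprev0] at h3
    have h4 := (h5b_tendsto_xx ρ ⟨j, ⟨0, hn⟩⟩)
    exact h5b_lim h3 h4 hne (hneB _)
  have lim2 : Tendsto (fun ε => ∠ (ρ.xx ε (nx ⟨j, ⟨(ρ.W j).length - 1, by omega⟩⟩))
      (ρ.xx ε ⟨j, ⟨(ρ.W j).length - 1, by omega⟩⟩)
      (P.B (ρ.dd ⟨j, ⟨(ρ.W j).length - 1, by omega⟩⟩))) (𝓝[>] 0)
      (𝓝 (∠ (C.y (j + 1)) (C.y j) (P.B (ρ.dd ⟨j, ⟨(ρ.W j).length - 1, by omega⟩⟩)))) := by
    have hne : C.y (j + 1) ≠ C.y j := (C.ne j).symm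
    have h3 := (h5b_tendsto_xx ρ (nx ⟨j, ⟨(ρ.W j).length - 1, by omega⟩⟩))
    have h3' : (nx ⟨j, ⟨(ρ.W j).length - 1, by omega⟩⟩).1 = j + 1 := by rw [hnext]
    rw [h3'] at h3
    have h4 := (h5b_tendsto_xx ρ ⟨j, ⟨(ρ.W j).length - 1, by omega⟩⟩)
    exact h5b_lim h3 h4 hne (hneB _)
  have lim3 := ((lim1.const_sub Real.pi).sub lim2).sub_const
    (∑ t ∈ Finset.range ((ρ.W j).length - 1), ∠ (L.getD t 0) (C.y j) (L.getD (t + 1) 0))
  have hval : Real.pi - ∠ (C.y (j - 1)) (C.y j) (P.B (ρ.dd ⟨j, ⟨0, hn⟩⟩)) -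
      ∠ (C.y (j + 1)) (C.y j) (P.B (ρ.dd ⟨j, ⟨(ρ.W j).length - 1, by omega⟩⟩)) -
      ∑ t ∈ Finset.range ((ρ.W j).length - 1), ∠ (L.getD t 0) (C.y j) (L.getD (t + 1) 0) =
      ρ.turn j := by
    have h3 : ρ.turn j = Real.pi - ρ.ang j := by
      unfold turn
      rw [if_neg hj, if_pos hsen]
    have h4 : ρ.ang j = ∠ (C.y (j - 1)) (C.y j) (L.getD 0 0) +
      ∑ t ∈ Finset.range (L.length - 1), ∠ (L.getD t 0) (C.y j) (L.getD (t + 1) 0) +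
      ∠ (L.getD (L.length - 1) 0) (C.y j) (C.y (j + 1)) := by
      unfold ang Poly.fang
      rw [← hv, ← hL]
      exact h5b_angList _ _ L _ (by
        intro h0
        rw [h0] at hLlen
        simp at hLlen
        omega)
    rw [h3, h4, hLlen, hLget 0 hn, hLget ((ρ.W j).length - 1) (by omega),
      angle_comm (P.B (ρ.dd ⟨j, ⟨(ρ.W j).length - 1, by omega⟩⟩)) (C.y j) (C.y (j + 1))]
    ring
  rw [hval] at lim3
  refine lim3.congr' ?_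
  have hev : ∀ᶠ ε in 𝓝[>] (0 : ℝ), 0 < ε ∧ ε < 1 := by
    have := Ioo_mem_nhdsGT (show (0 : ℝ) < 1 by norm_num)
    filter_upwards [this] with ε hε
    exact hε
  filter_upwards [hev] with ε hε
  exact (key ε hε.1 hε.2).symm

end Route

end QGd
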