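import Pool.Agent.Lib_MP_6b5565_dg.Q.H1x

/-! [QG-H5c] -/

namespace QGd

open EuclideanGeometry Filter Topology

private theorem H5c_angList (z : E3) : ∀ (K : ℕ) (f : ℕ → E3) (p q : E3),
    angList z (p :: ((List.range (K + 1)).map f ++ [q])) =
      ∠ p z (f 0) + ∑ t ∈ Finset.range K, ∠ (f t) z (f (t + 1)) + ∠ (f K) z q := by
  intro K
  induction K with
  | zero =>
    intro f p q
    show ∠ p z (f 0) + (∠ (f 0) z q + 0) = _
    rw [Finset.range_zero, Finset.sum_empty]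
    ring
  | succ K ih =>
    intro f p q
    rw [List.range_succ_eq_map, List.map_cons, List.map_map, List.cons_append]
    show ∠ p z (f 0) + angList z (f 0 :: ((List.range (K + 1)).map (f ∘ Nat.succ) ++ [q])) = _
    rw [ih (f ∘ Nat.succ) (f 0) q, Finset.sum_range_succ']
    simp only [Function.comp, Nat.succ_eq_add_one]
    ring

/-- the angle at the end of the fan -/
private theorem H5c_end {v f p : E3} (hf : f ≠ v) (hp : p ≠ v) {xp : ℝ → E3}
    (hxp : Tendsto xp (𝓝[>] 0) (𝓝 p)) :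
    Tendsto (fun ε : ℝ => ∠ (xp ε) (v + ε • (f - v)) v) (𝓝[>] 0) (𝓝 (Real.pi - ∠ p v f)) := by
  have h0 : Tendsto (fun ε : ℝ => v + ε • (f - v)) (𝓝[>] 0) (𝓝 v) := by
    have h1 : Tendsto (fun ε : ℝ => v + ε • (f - v)) (𝓝 0) (𝓝 (v + (0 : ℝ) • (f - v))) :=
      Continuous.tendsto (by fun_prop) 0
    rw [zero_smul, add_zero] at h1
    exact tendsto_nhdsWithin_of_tendsto_nhds h1
  have h1 : Tendsto (fun ε : ℝ => (xp ε - (v + ε • (f - v)), f - v)) (𝓝[>] 0)
      (𝓝 (p - v, f - v)) := (hxp.sub h0).prodMk_nhds tendsto_const_nhds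
  have h2 : ContinuousAt (fun y : E3 × E3 => InnerProductGeometry.angle y.1 y.2)
      (p - v, f - v) :=
    InnerProductGeometry.continuousAt_angle (sub_ne_zero.2 hp) (sub_ne_zero.2 hf)
  have h3 := (h2.tendsto.comp h1).const_sub Real.pi
  refine h3.congr' ?_
  filter_upwards [self_mem_nhdsWithin] with ε hε
  have hε' : (0 : ℝ) < ε := hε
  show Real.pi - InnerProductGeometry.angle (xp ε - (v + ε • (f - v))) (f - v) =
    InnerProductGeometry.angle (xp ε - (v + ε • (f - v))) (v - (v + ε • (f - v)))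
  have h4 : v - (v + ε • (f - v)) = -(ε • (f - v)) := by abel
  rw [h4, InnerProductGeometry.angle_neg_right,
    InnerProductGeometry.angle_smul_right_of_pos _ _ hε']

/-- the triangle inside the fan -/
private theorem H5c_tri {v f g : E3} (hf : f ≠ v) {ε : ℝ} (hε : 0 < ε) :
    ∠ (v + ε • (f - v)) (v + ε • (g - v)) v + ∠ (v + ε • (g - v)) (v + ε • (f - v)) v =
      Real.pi - ∠ f v g := by
  have h1 : v + ε • (f - v) ≠ v := by
    intro h
    rw [add_eq_left] at h
    rcases smul_eq_zero.1 h with h | h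
    · exact hε.ne' h
    · exact hf (sub_eq_zero.1 h)
  have h2 := angle_add_angle_add_angle_eq_pi (v + ε • (g - v)) h1
  -- `∠ v x_f x_g + ∠ x_f x_g v + ∠ x_g v x_f = π`
  have h3 : ∠ (v + ε • (g - v)) v (v + ε • (f - v)) = ∠ f v g := by
    rw [angle_comm]
    show InnerProductGeometry.angle (v + ε • (f - v) - v) (v + ε • (g - v) - v) =
      InnerProductGeometry.angle (f - v) (g - v)
    rw [add_sub_cancel_left, add_sub_cancel_left, InnerProductGeometry.angle_smul_left_of_pos _ _ hε,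
      InnerProductGeometry.angle_smul_right_of_pos _ _ hε]
  rw [h3, angle_comm v] at h2
  linarith

namespace Route

variable {P : Poly} {m : ℕ} [NeZero m] {C : Cyc P m} (ρ : Route C)

private theorem H5c_tendsto (i : ρ.Idx) :
    Tendsto (fun ε => ρ.xx ε i) (𝓝[>] 0) (𝓝 (C.y i.1)) := by
  by_cases h : P.NV (C.y i.1)
  · have e : (fun ε => ρ.xx ε i) = fun _ => C.y i.1 := by
      funext ε
      unfold xx
      rw [if_pos h]
    rw [e]
    exact tendsto_const_nhds
  · have e : (fun ε => ρ.xx ε i) =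
        fun ε : ℝ => C.y i.1 + ε • (P.far (ρ.vtx i.1) (ρ.dd i) - C.y i.1) := by
      funext ε
      unfold xx
      rw [if_neg h]
    rw [e]
    have h1 : Tendsto (fun ε : ℝ => C.y i.1 + ε • (P.far (ρ.vtx i.1) (ρ.dd i) - C.y i.1)) (𝓝 0)
        (𝓝 (C.y i.1 + (0 : ℝ) • (P.far (ρ.vtx i.1) (ρ.dd i) - C.y i.1))) :=
      Continuous.tendsto (by fun_prop) 0
    rw [zero_smul, add_zero] at h1
    exact tendsto_nhdsWithin_of_tendsto_nhds h1

private theorem H5c_tail (a : P.D) (t : ℕ) : P.tail (P.rot^[t] a) = P.tail a := by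
  induction t generalizing a with
  | zero => rfl
  | succ t ih => rw [Function.iterate_succ_apply, ih, P.tail_rot]

private theorem H5c_length (a : P.D) (k : ℕ) : (P.ccwD a k).length = k := by
  induction k generalizing a with
  | zero => rfl
  | succ k ih =>
    show (P.ccwD (P.rot a) k).length + 1 = k + 1
    rw [ih]

/-- [QG-H5c] counterclockwise vertex node (the heads are `v`): inside the fan the two angles add up
to `π - ang`; at the ends the angles with the head direction are `π -` the angles with the far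
direction; the sum tends to `ρ.ang j - π` -/
theorem lim_ccw (h : C.Nice) (nx : Equiv.Perm ρ.Idx)
    (h1 : ∀ (j : ZMod m) (t : ℕ) (h : t + 1 < (ρ.W j).length),
        nx ⟨j, ⟨t, by omega⟩⟩ = ⟨j, ⟨t + 1, h⟩⟩)
    (h2 : ∀ (j : ZMod m) (t : ℕ) (h : t + 1 = (ρ.W j).length),
        nx ⟨j, ⟨t, by omega⟩⟩ = ⟨j + 1, ⟨0, List.length_pos_iff.2 (ρ.W_ne (j + 1))⟩⟩)
    (j : ZMod m) (hj : ¬ P.NV (C.y j)) (hsen : ρ.sense j = false) :
    Tendsto (fun ε => ∑ t : Fin (ρ.W j).length,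
      (Real.pi - ∠ (ρ.xx ε (nx.symm ⟨j, t⟩)) (ρ.xx ε ⟨j, t⟩) (P.B (ρ.dd ⟨j, t⟩)) -
        ∠ (ρ.xx ε (nx ⟨j, t⟩)) (ρ.xx ε ⟨j, t⟩) (P.B (ρ.dd ⟨j, t⟩)))) (𝓝[>] 0) (𝓝 (ρ.turn j)) := by
  obtain ⟨a, k, ha, hk1, -, hW, -⟩ := ρ.ccw j hj hsen
  have hv := ρ.hvtx j hj
  obtain ⟨K, rfl⟩ : ∃ K, k = K + 1 := ⟨k - 1, by omega⟩
  have hlen : (ρ.W j).length = K + 1 := by rw [hW, H5c_length]
  set v : E3 := C.y j with hvdef
  set fr : ℕ → E3 := fun t => P.B (P.rot^[t + 1] a) with hfr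
  have htail : ∀ t, P.tail (P.rot^[t + 1] a) = ρ.vtx j := fun t => (H5c_tail a _).trans ha
  have hfv : ∀ t, fr t ≠ v := by
    intro t h
    rw [hv, ← htail t] at h
    exact P.A_ne_B (P.rot^[t + 1] a) h.symm
  have hdd : ∀ t (ht : t < (ρ.W j).length), ρ.dd ⟨j, ⟨t, ht⟩⟩ = P.inv (P.rot^[t + 1] a) := by
    intro t ht
    show (ρ.W j)[t] = _
    rw [List.getElem_of_eq hW ht, P.getElem_ccwD]
  have hB : ∀ t (ht : t < (ρ.W j).length), P.B (ρ.dd ⟨j, ⟨t, ht⟩⟩) = v := by
    intro t ht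
    rw [hdd t ht, hv]
    show P.pos (P.head (P.inv (P.rot^[t + 1] a))) = _
    rw [P.tail_eq_head_inv, htail]
  have hfar : ∀ t, P.far (ρ.vtx j) (P.inv (P.rot^[t + 1] a)) = fr t := by
    intro t
    unfold Poly.far
    rw [if_neg]
    · rfl
    · intro h
      have h3 : P.head (P.rot^[t + 1] a) = ρ.vtx j := h
      exact P.tail_ne_head (P.rot^[t + 1] a) ((htail t).trans h3.symm)
  have hxx : ∀ ε t (ht : t < (ρ.W j).length), ρ.xx ε ⟨j, ⟨t, ht⟩⟩ = v + ε • (fr t - v) := by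
    intro ε t ht
    unfold xx
    rw [if_neg hj, hdd t ht, hfar]
  -- the neighbours
  have hpos : 0 < (ρ.W j).length := by omega
  have hKlt : K < (ρ.W j).length := by omega
  set i0 : ρ.Idx := nx.symm ⟨j, ⟨0, hpos⟩⟩ with hi0
  set i1 : ρ.Idx := nx ⟨j, ⟨K, hKlt⟩⟩ with hi1
  have hi0' : i0.1 = j - 1 := by
    have hl : 0 < (ρ.W (j - 1)).length := List.length_pos_iff.2 (ρ.W_ne (j - 1))
    have h3 := h2 (j - 1) ((ρ.W (j - 1)).length - 1) (by omega)
    have h4 : (⟨j - 1 + 1, ⟨0, List.length_pos_iff.2 (ρ.W_ne (j - 1 + 1))⟩⟩ : ρ.Idx) =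
        ⟨j, ⟨0, hpos⟩⟩ := by
      have h5 : ∀ j' (hj' : j' = j) (hp : 0 < (ρ.W j').length),
          (⟨j', ⟨0, hp⟩⟩ : ρ.Idx) = ⟨j, ⟨0, hpos⟩⟩ := by
        intro j' hj' hp
        subst hj'
        rfl
      exact h5 _ (by ring) _
    rw [h4] at h3
    rw [hi0, ← h3, Equiv.symm_apply_apply]
  have hi1' : i1.1 = j + 1 := by
    rw [hi1, h2 j K (by omega)]
  have hp : C.y (j - 1) ≠ v := by
    have h3 := C.ne (j - 1)
    rwa [sub_add_cancel] at h3
  have hq : C.y (j + 1) ≠ v := (C.ne j).symm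
  -- limits at the ends
  have l0 := H5c_end (hfv 0) hp (by
    have h3 := ρ.H5c_tendsto i0
    rwa [hi0'] at h3)
  have l1 := H5c_end (hfv K) hq (by
    have h3 := ρ.H5c_tendsto i1
    rwa [hi1'] at h3)
  have hang : ρ.turn j = Real.pi - (Real.pi - ∠ (C.y (j - 1)) v (fr 0)) -
      (Real.pi - ∠ (C.y (j + 1)) v (fr K)) +
      ∑ t ∈ Finset.range K, ∠ (fr t) v (fr (t + 1)) := by
    unfold turn
    rw [if_neg hj, if_neg (by rw [hsen]; decide)]
    have h3 : (ρ.W j).map (P.far (ρ.vtx j)) = (List.range (K + 1)).map fr := by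
      apply List.ext_getElem
      · rw [List.length_map, List.length_map, List.length_range, hlen]
      · intro t ht1 ht2
        rw [List.getElem_map, List.getElem_map, List.getElem_range]
        have ht : t < (ρ.W j).length := by rwa [List.length_map] at ht1
        have h4 : (ρ.W j)[t] = P.inv (P.rot^[t + 1] a) := hdd t ht
        rw [h4, hfar]
    unfold ang Poly.fang
    rw [h3, ← hv, H5c_angList, angle_comm (fr K)]
    ring
  rw [hang]
  refine (((l0.const_sub Real.pi).sub l1).add_const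
    (∑ t ∈ Finset.range K, ∠ (fr t) v (fr (t + 1)))).congr' ?_
  filter_upwards [self_mem_nhdsWithin] with ε hε
  have hε' : (0 : ℝ) < ε := hε
  -- the sum over `ℕ`
  set X : ℕ → E3 := fun t => v + ε • (fr t - v) with hX
  set inn : ℕ → ℝ := fun t => if t = 0 then ∠ (ρ.xx ε i0) (X 0) v else ∠ (X (t - 1)) (X t) v
    with hinn
  set out : ℕ → ℝ := fun t => if t = K then ∠ (ρ.xx ε i1) (X K) v else ∠ (X (t + 1)) (X t) v
    with hout
  have hsum : ∑ t : Fin (ρ.W j).length,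
      (Real.pi - ∠ (ρ.xx ε (nx.symm ⟨j, t⟩)) (ρ.xx ε ⟨j, t⟩) (P.B (ρ.dd ⟨j, t⟩)) -
        ∠ (ρ.xx ε (nx ⟨j, t⟩)) (ρ.xx ε ⟨j, t⟩) (P.B (ρ.dd ⟨j, t⟩))) =
      ∑ t : Fin (ρ.W j).length, (Real.pi - inn t - out t) := by
    refine Finset.sum_congr rfl fun t _ => ?_
    obtain ⟨t, ht⟩ := t
    rw [hB t ht, hxx ε t ht]
    have e1 : ∠ (ρ.xx ε (nx.symm ⟨j, ⟨t, ht⟩⟩)) (v + ε • (fr t - v)) v = inn t := by
      simp only [hinn]
      rcases Nat.eq_zero_or_pos t with h0 | h0
      · subst h0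
        rw [if_pos rfl]
      · obtain ⟨s, rfl⟩ : ∃ s, t = s + 1 := ⟨t - 1, by omega⟩
        rw [if_neg (by omega), Nat.add_sub_cancel, ← h1 j s ht, Equiv.symm_apply_apply,
          hxx ε s (by omega)]
    have e2 : ∠ (ρ.xx ε (nx ⟨j, ⟨t, ht⟩⟩)) (v + ε • (fr t - v)) v = out t := by
      simp only [hout]
      by_cases h0 : t = K
      · subst h0
        rw [if_pos rfl]
      · rw [if_neg h0, h1 j t (by omega), hxx ε (t + 1) (by omega)]
    rw [e1, e2]
  rw [hsum, Fin.sum_univ_eq_sum_range (fun t => Real.pi - inn t - out t), hlen,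
    Finset.sum_sub_distrib, Finset.sum_sub_distrib, Finset.sum_range_succ' inn,
    Finset.sum_range_succ out, Finset.sum_const, Finset.card_range, nsmul_eq_mul]
  have e3 : ∑ t ∈ Finset.range K, inn (t + 1) + ∑ t ∈ Finset.range K, out t =
      K * Real.pi - ∑ t ∈ Finset.range K, ∠ (fr t) v (fr (t + 1)) := by
    rw [← Finset.sum_add_distrib]
    have e4 : ∀ t ∈ Finset.range K, inn (t + 1) + out t = Real.pi - ∠ (fr t) v (fr (t + 1)) := by
      intro t ht
      rw [Finset.mem_range] at ht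
      simp only [hinn, hout]
      rw [if_neg (by omega), if_neg (by omega), Nat.add_sub_cancel]
      exact H5c_tri (hfv t) hε'
    rw [Finset.sum_congr rfl e4, Finset.sum_sub_distrib, Finset.sum_const, Finset.card_range,
      nsmul_eq_mul]
  have e5 : inn 0 = ∠ (ρ.xx ε i0) (v + ε • (fr 0 - v)) v := by
    simp only [hinn, if_true, hX]
  have e6 : out K = ∠ (ρ.xx ε i1) (v + ε • (fr K - v)) v := by
    simp only [hout, if_true, hX]
  rw [e5, e6]
  push_cast
  linarith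

end Route

end QGd
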