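import Pool.Agent.Lib_MP_6b5565_dg.Q.Defs

/-! [QG-A1] elementary facts on half-edges (case analysis on `SF`, `nxt3`, `inv_inv`, `tail_inv`, affine independence for distinctness) -/

namespace QGd

namespace Poly

variable (P : Poly)

theorem SF_refl (a : P.D) : P.SF a a := Or.inl rfl

theorem SF_nxt (a : P.D) : P.SF a (P.nxt a) := Or.inr (Or.inl rfl)

theorem SF_prev (a : P.D) : P.SF a (P.prev a) := Or.inr (Or.inr rfl)

theorem prev_nxt (a : P.D) : P.prev (P.nxt a) = a := P.nxt3 a

theorem nxt_prev (a : P.D) : P.nxt (P.prev a) = a := P.nxt3 a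

theorem prev_prev (a : P.D) : P.prev (P.prev a) = P.nxt a := by
  show P.nxt (P.nxt (P.nxt (P.nxt a))) = P.nxt a
  rw [P.nxt3]

theorem SF_symm {a b : P.D} (h : P.SF a b) : P.SF b a := by
  rcases h with h | h | h
  · subst h; exact P.SF_refl _
  · subst h; exact Or.inr (Or.inr (P.prev_nxt a).symm)
  · subst h; exact Or.inr (Or.inl (P.nxt_prev a).symm)

theorem SF_trans {a b c : P.D} (h : P.SF a b) (h' : P.SF b c) : P.SF a c := by
  rcases h with h | h | h <;> rcases h' with h' | h' | h' <;> subst h <;> subst h'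
  · exact P.SF_refl _
  · exact P.SF_nxt _
  · exact P.SF_prev _
  · exact P.SF_nxt _
  · exact P.SF_prev _
  · exact Or.inl (P.prev_nxt a)
  · exact P.SF_prev _
  · exact Or.inl (P.nxt_prev a)
  · exact Or.inr (Or.inl (P.prev_prev a))

theorem head_eq (d : P.D) : P.head d = P.tail (P.nxt d) := P.tail_inv d

theorem tail_eq_head_inv (d : P.D) : P.head (P.inv d) = P.tail d := by
  unfold head; rw [P.inv_inv]

theorem head_prev (d : P.D) : P.head (P.prev d) = P.tail d := by
  rw [head_eq, nxt_prev]

theorem head_nxt (d : P.D) : P.head (P.nxt d) = P.tail (P.prev d) := P.head_eq _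

theorem tail_rot (d : P.D) : P.tail (P.rot d) = P.tail d := by
  show P.head (P.prev d) = _
  exact P.head_prev d

theorem tail_cw (d : P.D) : P.tail (P.cw d) = P.tail d := by
  show P.tail (P.nxt (P.inv d)) = _
  rw [← head_eq, tail_eq_head_inv]

theorem rot_cw (d : P.D) : P.rot (P.cw d) = d := by
  show P.inv (P.prev (P.nxt (P.inv d))) = d
  rw [prev_nxt, P.inv_inv]

theorem cw_rot (d : P.D) : P.cw (P.rot d) = d := by
  show P.nxt (P.inv (P.inv (P.prev d))) = d
  rw [P.inv_inv, nxt_prev]

theorem head_rot (d : P.D) : P.head (P.rot d) = P.tail (P.prev d) := by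
  show P.head (P.inv (P.prev d)) = _
  exact P.tail_eq_head_inv _

theorem pos_inj : Function.Injective P.pos := by
  intro v w h
  classical
  obtain ⟨d, hd⟩ := P.surj v
  obtain ⟨d', hd'⟩ := P.surj w
  have h1 := P.geom d d' (Pi.single v 1) (Pi.single w 1)
    (fun u => by by_cases hu : u = v <;> simp [Pi.single_apply, hu])
    (fun u => by by_cases hu : u = w <;> simp [Pi.single_apply, hu])
    (fun u hu => by
      by_cases huv : u = v
      · rw [huv, ← hd]; simp
      · exact absurd (by simp [huv]) hu)
    (fun u hu => by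
      by_cases huv : u = w
      · rw [huv, ← hd']; simp
      · exact absurd (by simp [huv]) hu)
    (by simp) (by simp)
    (by simpa [Pi.single_apply] using h)
  by_contra hvw
  have h2 := congrFun h1 v
  rw [Pi.single_eq_same, Pi.single_eq_of_ne hvw] at h2
  exact one_ne_zero h2

theorem tail_ne_head (d : P.D) : P.tail d ≠ P.head d := by
  intro h
  have h1 := (P.indep d).injective.ne (show (0 : Fin 3) ≠ 1 by decide)
  apply h1
  simp only [Matrix.cons_val_zero, Matrix.cons_val_one]
  rw [h, head_eq]

theorem tail_ne_prev (d : P.D) : P.tail d ≠ P.tail (P.prev d) := by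
  intro h
  have h1 := (P.indep d).injective.ne (show (0 : Fin 3) ≠ 2 by decide)
  apply h1
  simp only [Matrix.cons_val_zero, Matrix.cons_val]
  rw [h]
  rfl

theorem head_ne_prev (d : P.D) : P.head d ≠ P.tail (P.prev d) := by
  intro h
  have h1 := (P.indep d).injective.ne (show (1 : Fin 3) ≠ 2 by decide)
  apply h1
  simp only [Matrix.cons_val_one, Matrix.cons_val]
  rw [← head_eq, h]
  rfl

theorem A_ne_B (d : P.D) : P.A d ≠ P.B d := fun h => P.tail_ne_head d (P.pos_inj h)

theorem inv_ne (d : P.D) : P.inv d ≠ d := by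
  intro h
  have h1 : P.head d = P.tail d := by unfold head; rw [h]
  exact P.tail_ne_head d h1.symm

theorem nxt_ne (d : P.D) : P.nxt d ≠ d := by
  intro h
  have h1 : P.head d = P.tail d := by rw [head_eq, h]
  exact P.tail_ne_head d h1.symm

theorem prev_ne (d : P.D) : P.prev d ≠ d := by
  intro h
  exact P.tail_ne_prev d (by rw [h])

theorem prev_ne_nxt (d : P.D) : P.prev d ≠ P.nxt d := by
  intro h
  exact P.head_ne_prev d (by rw [h, head_eq])

/-- the two faces at an edge are different -/
theorem not_SF_inv (d : P.D) : ¬ P.SF d (P.inv d) := by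
  rintro (h | h | h)
  · exact P.inv_ne d h
  · have h1 : P.tail d = P.tail (P.prev d) := by
      rw [← P.head_nxt d, ← h, P.tail_eq_head_inv]
    exact P.tail_ne_prev d h1
  · have h1 : P.head d = P.tail (P.prev d) := by
      rw [← h]
      rfl
    exact P.head_ne_prev d h1

theorem SF_tail_inj {a b : P.D} (h : P.SF a b) (ht : P.tail a = P.tail b) : a = b := by
  rcases h with h | h | h
  · exact h.symm
  · exfalso
    apply P.tail_ne_head a
    rw [ht, h, head_eq]
  · exfalso
    apply P.tail_ne_prev a
    rw [← h, ht]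

/-- two faces meet in at most one edge -/
theorem SF_two {a b : P.D} (h : P.SF (P.inv a) (P.inv b)) (h' : P.SF a b) : a = b := by
  -- two neighbouring faces with the same vertices do not exist
  have key : P.tail (P.prev (P.inv a)) ≠ P.tail (P.prev a) := by
    intro hk
    have h1 := P.face_inj a (P.inv a) (by
      have e1 : P.tail (P.inv a) = P.tail (P.nxt a) := P.tail_inv a
      have e2 : P.tail (P.nxt (P.inv a)) = P.tail a := by
        rw [← P.head_eq, P.tail_eq_head_inv]
      have e3 : P.tail (P.nxt (P.nxt (P.inv a))) = P.tail (P.nxt (P.nxt a)) := hk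
      rw [e1, e2, e3]
      ext u
      simp only [Finset.mem_insert, Finset.mem_singleton]
      tauto)
    exact P.not_SF_inv a h1
  have hinv : ∀ c, P.inv b = c → P.tail c = P.head b ∧ P.head c = P.tail b := by
    rintro c rfl
    exact ⟨rfl, P.tail_eq_head_inv b⟩
  rcases h with h | h | h
  · have := congrArg P.inv h
    rw [P.inv_inv, P.inv_inv] at this
    exact this.symm
  · obtain ⟨h1, h2⟩ := hinv _ h
    rw [← P.head_eq, P.tail_eq_head_inv] at h1
    rw [P.head_nxt] at h2
    rcases h' with h' | h' | h'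
    · exact h'.symm
    · exfalso
      rw [h', P.head_nxt] at h1
      exact P.tail_ne_prev a h1
    · exfalso
      rw [h'] at h2
      exact key h2
  · obtain ⟨h1, h2⟩ := hinv _ h
    rcases h' with h' | h' | h'
    · exact h'.symm
    · exfalso
      rw [h', P.head_nxt] at h1
      exact key h1
    · exfalso
      rw [h', P.head_prev, ← P.tail_eq_head_inv a] at h1
      exact P.head_ne_prev (P.inv a) h1.symm

/-- in a face, a vertex is the tail of exactly one half-edge of the face -/
theorem exists_tail_of_mem {d : P.D} {v : P.V} (h : v = P.tail d ∨ v = P.head d ∨ v = P.tail (P.prev d)) :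
    ∃ a, P.SF d a ∧ P.tail a = v := by
  rcases h with h | h | h
  · exact ⟨d, P.SF_refl _, h.symm⟩
  · exact ⟨P.nxt d, P.SF_nxt _, by rw [h, head_eq]⟩
  · exact ⟨P.prev d, P.SF_prev _, h.symm⟩

theorem inv_injective : Function.Injective P.inv := fun a b h => by
  have := congrArg P.inv h; rwa [P.inv_inv, P.inv_inv] at this

theorem seg_inv (d : P.D) : P.seg (P.inv d) = P.seg d := by
  unfold seg A B
  rw [tail_eq_head_inv]
  exact segment_symm ℝ _ _

theorem oseg_inv (d : P.D) : P.oseg (P.inv d) = P.oseg d := by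
  unfold oseg A B
  rw [tail_eq_head_inv]
  exact openSegment_symm ℝ _ _

theorem tri_SF {a b : P.D} (h : P.SF a b) : P.tri a = P.tri b := by
  rcases h with h | h | h
  · rw [h]
  · subst h
    unfold tri
    rw [P.prev_nxt]
    congr 1
    ext x
    simp only [Set.mem_insert_iff, Set.mem_singleton_iff]
    show _ ↔ x = P.A (P.nxt a) ∨ x = P.A (P.prev a) ∨ x = P.A a
    tauto
  · subst h
    unfold tri
    rw [P.nxt_prev, P.prev_prev]
    congr 1
    ext x
    simp only [Set.mem_insert_iff, Set.mem_singleton_iff]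
    tauto

theorem seg_sub_tri (d : P.D) : P.seg d ⊆ P.tri d := by
  have h1 : P.B d = P.A (P.nxt d) := by unfold A B; rw [head_eq]
  unfold seg tri
  rw [h1]
  exact segment_subset_convexHull (by simp) (by simp)

theorem seg_sub_tri' {d e : P.D} (h : P.SF e d) : P.seg d ⊆ P.tri e := by
  rw [P.tri_SF h]; exact P.seg_sub_tri d

end Poly

end QGd
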