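import Pool.Agent.Lib_MP_6b5565_dg.Q.Walks0

/-! [QG-A2c] fans -/

namespace QGd

namespace Poly

variable (P : Poly)

private theorem a2c_nxt_prev (a : P.D) : P.nxt (P.prev a) = a := P.nxt3 a

private theorem a2c_prev_nxt (a : P.D) : P.prev (P.nxt a) = a := P.nxt3 a

private theorem a2c_inv_rot (a : P.D) : P.inv (P.rot a) = P.prev a := P.inv_inv _

private theorem a2c_tail_cw (a : P.D) : P.tail (P.cw a) = P.tail a := by
  show P.tail (P.nxt (P.inv a)) = _
  rw [← P.tail_inv (P.inv a), P.inv_inv]

private theorem a2c_tail_rot (a : P.D) : P.tail (P.rot a) = P.tail a := by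
  show P.tail (P.inv (P.nxt (P.nxt a))) = _
  rw [P.tail_inv, P.nxt3]

private theorem a2c_tail_cw_iter (a : P.D) (t : ℕ) : P.tail (P.cw^[t] a) = P.tail a := by
  induction t generalizing a with
  | zero => rfl
  | succ t ih => rw [Function.iterate_succ_apply, ih, a2c_tail_cw]

private theorem a2c_tail_rot_iter (a : P.D) (t : ℕ) : P.tail (P.rot^[t] a) = P.tail a := by
  induction t generalizing a with
  | zero => rfl
  | succ t ih => rw [Function.iterate_succ_apply, ih, a2c_tail_rot]

/-- clockwise fan -/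
theorem DWalk_cwD (a : P.D) (k : ℕ) : P.DWalk a (P.cwD a k) (P.cw^[k] a) := by
  induction k generalizing a with
  | zero => exact Or.inl rfl
  | succ k ih =>
    refine ⟨Or.inl rfl, ?_⟩
    rw [Function.iterate_succ_apply]
    exact P.DWalk_congr_left (Or.inr (Or.inr (P.a2c_prev_nxt (P.inv a)).symm)) (ih (P.cw a))

/-- counterclockwise fan -/
theorem DWalk_ccwD (a : P.D) (k : ℕ) : P.DWalk a (P.ccwD a k) (P.rot^[k] a) := by
  induction k generalizing a with
  | zero => exact Or.inl rfl
  | succ k ih =>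
    refine ⟨Or.inr (Or.inr rfl), ?_⟩
    rw [Function.iterate_succ_apply]
    exact ih (P.rot a)

theorem getElem_cwD (a : P.D) (k t : ℕ) (h : t < (P.cwD a k).length) :
    (P.cwD a k)[t] = P.cw^[t] a := by
  induction k generalizing a t with
  | zero => exact absurd h (by simp [cwD])
  | succ k ih =>
    cases t with
    | zero => rfl
    | succ t =>
      rw [Function.iterate_succ_apply]
      exact ih (P.cw a) t (by simpa [cwD] using h)

theorem getElem_ccwD (a : P.D) (k t : ℕ) (h : t < (P.ccwD a k).length) :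
    (P.ccwD a k)[t] = P.inv (P.rot^[t+1] a) := by
  induction k generalizing a t with
  | zero => exact absurd h (by simp [ccwD])
  | succ k ih =>
    cases t with
    | zero => exact (P.a2c_inv_rot a).symm
    | succ t =>
      rw [Function.iterate_succ_apply]
      exact ih (P.rot a) t (by simpa [ccwD] using h)

theorem IsFan.walk {v : P.V} {p q : E3} {a b : P.D} {W : List P.D} (h : P.IsFan v p q a W b) :
    P.DWalk a W b := by
  rcases h with ⟨rfl, rfl⟩ | ⟨k, -, -, rfl, rfl, -⟩ | ⟨k, -, -, rfl, rfl, -⟩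
  · exact Or.inl rfl
  · exact P.DWalk_cwD a k
  · exact P.DWalk_ccwD a k

/-- all crossings of a fan are at `v` -/
theorem IsFan.mem {v : P.V} {p q : E3} {a b : P.D} {W : List P.D} (ha : P.tail a = v)
    (h : P.IsFan v p q a W b) :
    ∀ e ∈ W, P.tail e = v ∨ P.head e = v := by
  intro e he
  rcases h with ⟨rfl, rfl⟩ | ⟨k, -, -, rfl, rfl, -⟩ | ⟨k, -, -, rfl, rfl, -⟩
  · exact absurd he List.not_mem_nil
  · obtain ⟨t, ht, rfl⟩ := List.getElem_of_mem he
    left
    rw [P.getElem_cwD, P.a2c_tail_cw_iter, ha]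
  · obtain ⟨t, ht, rfl⟩ := List.getElem_of_mem he
    right
    rw [P.getElem_ccwD]
    show P.tail (P.inv (P.inv _)) = v
    rw [P.inv_inv, P.a2c_tail_rot_iter, ha]

end Poly

end QGd
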