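import Pool.Agent.Lib_MP_6b5565_dg.Q.Defs

/-! [QG-A3a] lengths of open polygons -/

namespace QGd

theorem olen_nonneg (l : List E3) : 0 ≤ olen l := by
  match l with
  | [] => exact le_rfl
  | [_] => exact le_rfl
  | a :: b :: l => exact add_nonneg dist_nonneg (olen_nonneg (b :: l))

theorem olen_cons_cons (a b : E3) (l : List E3) : olen (a :: b :: l) = dist a b + olen (b :: l) := rfl

theorem olen_append (l₁ l₂ : List E3) (a : E3) :
    olen (l₁ ++ a :: l₂) = olen (l₁ ++ [a]) + olen (a :: l₂) := by
  match l₁ with
  | [] => exact (zero_add _).symm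
  | [x] =>
    show dist x a + olen (a :: l₂) = (dist x a + 0) + olen (a :: l₂)
    ring
  | x :: y :: l =>
    have h := olen_append (y :: l) l₂ a
    show dist x y + olen ((y :: l) ++ a :: l₂) = (dist x y + olen ((y :: l) ++ [a])) + olen (a :: l₂)
    rw [h]
    ring

/-- concatenation of two nonempty polygons -/
theorem olen_append' (l₁ l₂ : List E3) (a b : E3) :
    olen ((l₁ ++ [a]) ++ (b :: l₂)) = olen (l₁ ++ [a]) + dist a b + olen (b :: l₂) := by
  have h : (l₁ ++ [a]) ++ (b :: l₂) = l₁ ++ a :: (b :: l₂) := by simp
  rw [h, olen_append, olen_cons_cons]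
  ring

theorem olen_reverse (l : List E3) : olen l.reverse = olen l := by
  match l with
  | [] => rfl
  | [_] => rfl
  | x :: y :: l =>
    have h := olen_reverse (y :: l)
    rw [List.reverse_cons] at h
    rw [List.reverse_cons, List.reverse_cons, olen_append', h, olen_cons_cons, dist_comm y x]
    show olen (y :: l) + dist x y + 0 = _
    ring

/-- triangle inequality -/
theorem dist_le_olen (a b : E3) (l : List E3) : dist a b ≤ olen (a :: (l ++ [b])) := by
  induction l generalizing a with
  | nil => exact (add_zero (dist a b)).symm.le
  | cons c l ih =>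
    show dist a b ≤ dist a c + olen (c :: (l ++ [b]))
    have := ih c
    have := dist_triangle a c b
    linarith

/-- deleting the second point does not increase the length -/
private theorem olen_drop_snd (a b : E3) (l : List E3) : olen (a :: l) ≤ olen (a :: b :: l) := by
  match l with
  | [] => exact add_nonneg dist_nonneg le_rfl
  | c :: l =>
    show dist a c + olen (c :: l) ≤ dist a b + (dist b c + olen (c :: l))
    have := dist_triangle a b c
    linarith

private theorem olen_sublist_cons {l₁ l₂ : List E3} (h : l₁.Sublist l₂) :
    ∀ a : E3, olen (a :: l₁) ≤ olen (a :: l₂) := by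
  induction h with
  | slnil => exact fun _ => le_rfl
  | cons b _ ih => exact fun a => (ih a).trans (olen_drop_snd a b _)
  | cons_cons b _ ih => exact fun a => add_le_add le_rfl (ih b)

private theorem olen_tail_le (b : E3) (l : List E3) : olen l ≤ olen (b :: l) := by
  match l with
  | [] => exact le_rfl
  | c :: l => exact le_add_of_nonneg_left dist_nonneg

/-- deleting points does not increase the length -/
theorem olen_sublist {l₁ l₂ : List E3} (h : l₁.Sublist l₂) : olen l₁ ≤ olen l₂ := by
  induction h with
  | slnil => exact le_rfl
  | cons b h ih =>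
    exact ih.trans (olen_tail_le b _)
  | cons_cons b h ih => exact olen_sublist_cons h b

end QGd
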