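import Pool.Agent.Lib_MP_6b5565_dg.Q.Comb

/-!
# Cocycle: on a triangulated sphere every cocycle mod 2 is a coboundary
-/

open Finset

set_option linter.unusedSectionVars false

namespace Pool.Agent.SQd

/-- a surjectivity criterion -/
theorem surj_of_dual {B : Type*} [Fintype B] [DecidableEq B]
    {K : Type*} [Field K] {E : Type*} [AddCommGroup E] [Module K E]
    (T : E →ₗ[K] (B → K))
    (hT : ∀ μ : B → K, (∀ e, ∑ b, T e b * μ b = 0) → μ = 0) : Function.Surjective T := by
  by_contra hns
  have hlt : T.range < ⊤ := by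
    rw [lt_top_iff_ne_top]
    intro h1
    exact hns (LinearMap.range_eq_top.1 h1)
  obtain ⟨φ, hφ, hle⟩ := Submodule.exists_le_ker_of_lt_top _ hlt
  have hphi : ∀ g : B → K, φ g = ∑ b, g b * φ (Pi.single b 1) := by
    intro g
    rw [LinearMap.pi_apply_eq_sum_univ φ g]
    refine Finset.sum_congr rfl fun w _ => ?_
    rw [smul_eq_mul]
    congr 2
    funext i
    rw [Pi.single_apply]
    simp only [eq_comm]
  have h1 := hT (fun b => φ (Pi.single b 1)) (fun e => by
    rw [← hphi]
    exact hle ⟨e, rfl⟩)
  apply hφ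
  refine LinearMap.ext fun g => ?_
  rw [hphi]
  rw [LinearMap.zero_apply]
  refine Finset.sum_eq_zero fun b _ => ?_
  rw [congrFun h1 b]
  simp

section coc

variable {D V : Type*} [Fintype D] [DecidableEq D] [Fintype V] [DecidableEq V]

/-- triangulated connected closed surface given by half-edges -/
structure Surf (inv nxt : D → D) (tail : D → V) : Prop where
  inv_inv : ∀ d, inv (inv d) = d
  inv_ne : ∀ d, inv d ≠ d
  nxt3 : ∀ d, nxt (nxt (nxt d)) = d
  nxt_ne : ∀ d, nxt d ≠ d
  conn : ∀ S : D → Prop, (∃ d, S d) → (∀ d, S d → S (inv d)) → (∀ d, S d → S (nxt d)) → ∀ d, S d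
  tail_rot : ∀ d, tail (inv (nxt (nxt d))) = tail d
  tail_surj : ∀ v, ∃ d, tail d = v

variable {inv nxt : D → D} {tail : D → V}

namespace Surf

variable (h : Surf inv nxt tail)
include h

theorem tail_inv (d : D) : tail (inv d) = tail (nxt d) := by
  have h6 := h.tail_rot (nxt d)
  rw [h.nxt3] at h6
  exact h6

theorem hfi (d : D) : inv (inv d) = d ∨ inv (inv (inv d)) = d := Or.inl (h.inv_inv d)

theorem hfn (d : D) : nxt (nxt d) = d ∨ nxt (nxt (nxt d)) = d := Or.inr (h.nxt3 d)

/-- **cocycles are coboundaries** -/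
theorem exists_colour (hE : 6 * Fintype.card V = Fintype.card D + 12) (par : D → ZMod 2)
    (hp1 : ∀ d, par (inv d) = par d)
    (hp2 : ∀ d, par d + par (nxt d) + par (nxt (nxt d)) = 0) :
    ∃ col : V → ZMod 2, ∀ d, par d = col (tail d) + col (tail (nxt d)) := by
  classical
  let A := Quotient (orb inv h.hfi)
  let B := Quotient (orb nxt h.hfn)
  have : Fintype A := Fintype.ofFinite _
  have : Fintype B := Fintype.ofFinite _
  let a : D → A := fun d => Quotient.mk _ d
  let b : D → B := fun d => Quotient.mk _ d
  have hainv : ∀ d, a (inv d) = a d := fun d => orb_map inv h.hfi d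
  have hbnxt : ∀ d, b (nxt d) = b d := fun d => orb_map nxt h.hfn d
  have haeq : ∀ d e, a d = a e ↔ d = e ∨ d = inv e := by
    intro d e
    constructor
    · intro h1
      obtain ⟨k, hk⟩ := Quotient.exact h1
      rcases iter2 inv d (h.inv_inv d) k with h2 | h2
      · left
        rw [← hk, h2]
      · right
        rw [← hk, h2, h.inv_inv]
    · rintro (rfl | rfl)
      · rfl
      · exact hainv e
  have hbeq : ∀ d e, b e = b d ↔ e = d ∨ e = nxt d ∨ e = nxt (nxt d) := by
    intro d e
    constructor
    · intro h1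
      obtain ⟨k, hk⟩ := Quotient.exact h1.symm
      rcases iter3 nxt d (h.nxt3 d) k with h2 | h2 | h2
      · left
        rw [← hk, h2]
      · right; left
        rw [← hk, h2]
      · right; right
        rw [← hk, h2]
    · rintro (rfl | rfl | rfl)
      · rfl
      · exact hbnxt d
      · rw [hbnxt, hbnxt]
  have hnn : ∀ d, nxt (nxt d) ≠ d := by
    intro d h4
    have h5 := h.nxt3 d
    rw [h4] at h5
    exact h.nxt_ne d h5
  have hcA : 2 * Fintype.card A = Fintype.card D := by
    have h1 := card_quot (orb inv h.hfi) (fun _ : D => (1 / 2 : ℚ)) (by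
      intro x
      rw [card2 inv h.hfi _ (h.inv_inv x) (h.inv_ne x)]
      norm_num)
    rw [Finset.sum_const, nsmul_eq_mul, Finset.card_univ] at h1
    have h2 : (2 * Fintype.card A : ℚ) = Fintype.card D := by
      rw [← h1]
      ring
    exact_mod_cast h2
  have hcB : 3 * Fintype.card B = Fintype.card D := by
    have h1 := card_quot (orb nxt h.hfn) (fun _ : D => (1 / 3 : ℚ)) (by
      intro x
      rw [card3 nxt h.hfn _ (h.nxt3 x) (h.nxt_ne x)]
      norm_num)
    rw [Finset.sum_const, nsmul_eq_mul, Finset.card_univ] at h1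
    have h2 : (3 * Fintype.card B : ℚ) = Fintype.card D := by
      rw [← h1]
      ring
    exact_mod_cast h2
  -- the face sums
  have hfib : ∀ (g : D → ZMod 2) (d : D), ∑ e ∈ univ.filter (fun e => b e = b d), g e =
      g d + g (nxt d) + g (nxt (nxt d)) := by
    intro g d
    have h1 : univ.filter (fun e => b e = b d) = {d, nxt d, nxt (nxt d)} := by
      ext e
      rw [mem_filter, mem_insert, mem_insert, mem_singleton]
      exact ⟨fun h2 => (hbeq d e).1 h2.2, fun h2 => ⟨mem_univ _, (hbeq d e).2 h2⟩⟩
    rw [h1, Finset.sum_insert, Finset.sum_pair, add_assoc]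
    · intro h2
      exact h.nxt_ne _ h2.symm
    · rw [mem_insert, mem_singleton]
      rintro (h2 | h2)
      · exact h.nxt_ne _ h2.symm
      · exact hnn _ h2.symm
  -- a half-edge
  obtain ⟨d₀, -⟩ : ∃ d : D, True := by
    by_contra hno
    have hno : ∀ d : D, False := fun d => hno ⟨d, trivial⟩
    have : IsEmpty D := ⟨hno⟩
    have h1 : Fintype.card D = 0 := Fintype.card_eq_zero
    have h2 : IsEmpty V := ⟨fun v => (h.tail_surj v).elim fun d _ => (hno d).elim⟩
    have h3 : Fintype.card V = 0 := Fintype.card_eq_zero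
    omega
  let T : ((A → ZMod 2) × ZMod 2) →ₗ[ZMod 2] (B → ZMod 2) :=
    { toFun := fun gt β => (∑ e ∈ univ.filter (fun e => b e = β), gt.1 (a e)) +
        (if β = b d₀ then gt.2 else 0)
      map_add' := by
        intro u v
        funext β
        simp only [Prod.fst_add, Prod.snd_add, Pi.add_apply, Finset.sum_add_distrib]
        split_ifs <;> ring
      map_smul' := by
        intro c u
        funext β
        simp only [Prod.smul_fst, Prod.smul_snd, Pi.smul_apply, smul_eq_mul, RingHom.id_apply,
          mul_add, Finset.mul_sum]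
        split_ifs <;> simp }
  have hTs : Function.Surjective T := by
    refine surj_of_dual T fun μ hμ => ?_
    have h1 : ∀ gt : (A → ZMod 2) × ZMod 2, ∑ e, gt.1 (a e) * μ (b e) + gt.2 * μ (b d₀) = 0 := by
      intro gt
      rw [← hμ gt]
      have h2 : ∀ β, T gt β * μ β = (∑ e ∈ univ.filter (fun e => b e = β),
          gt.1 (a e) * μ (b e)) + (if β = b d₀ then gt.2 * μ (b d₀) else 0) := by
        intro β
        change ((∑ e ∈ univ.filter (fun e => b e = β), gt.1 (a e)) +
          (if β = b d₀ then gt.2 else 0)) * μ β = _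
        rw [add_mul, Finset.sum_mul]
        congr 1
        · refine Finset.sum_congr rfl fun e he => ?_
          rw [(mem_filter.1 he).2]
        · split_ifs with h3
          · rw [h3]
          · rw [zero_mul]
      rw [Finset.sum_congr rfl fun β _ => h2 β, Finset.sum_add_distrib]
      congr 1
      · rw [← Finset.sum_fiberwise_of_maps_to (s := univ) (t := univ) (g := b)
          (fun x _ => mem_univ _)]
      · rw [Finset.sum_ite_eq' univ (b d₀)]
        simp
    have hμ0 : μ (b d₀) = 0 := by
      have h2 := h1 (0, 1)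
      simpa using h2
    have h2 : ∀ d, μ (b (inv d)) = μ (b d) := by
      intro d
      have h3 := h1 (Pi.single (a d) 1, 0)
      simp only [zero_mul, add_zero] at h3
      have h4 : ∑ e, (Pi.single (a d) (1 : ZMod 2) : A → ZMod 2) (a e) * μ (b e) =
          ∑ e ∈ ({d, inv d} : Finset D), μ (b e) := by
        have h5 : ∀ e, (Pi.single (a d) (1 : ZMod 2) : A → ZMod 2) (a e) * μ (b e) =
            if e ∈ ({d, inv d} : Finset D) then μ (b e) else 0 := by
          intro e
          have hmem : e ∈ ({d, inv d} : Finset D) ↔ (e = d ∨ e = inv d) := by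
            rw [mem_insert, mem_singleton]
          rw [Pi.single_apply]
          by_cases h6 : e = d ∨ e = inv d
          · rw [if_pos (hmem.2 h6), if_pos ((haeq e d).2 h6), one_mul]
          · rw [if_neg (fun h7 => h6 (hmem.1 h7)), if_neg (fun h7 => h6 ((haeq e d).1 h7)),
              zero_mul]
        rw [Finset.sum_congr rfl fun e _ => h5 e, Finset.sum_ite_mem, Finset.univ_inter]
      rw [h4, Finset.sum_pair (Ne.symm (h.inv_ne d))] at h3
      have : ∀ x y : ZMod 2, x + y = 0 → y = x := by decide
      exact this _ _ h3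
    have h3 := h.conn (fun d => μ (b d) = 0) ⟨d₀, hμ0⟩ (fun d hd => by rw [h2]; exact hd)
      (fun d hd => by rw [hbnxt]; exact hd)
    funext β
    obtain ⟨d, rfl⟩ := Quotient.exists_rep β
    exact h3 d
  have hkT : Module.finrank (ZMod 2) T.ker + Fintype.card B = Fintype.card A + 1 := by
    have h1 := LinearMap.finrank_range_add_finrank_ker T
    rw [LinearMap.range_eq_top.2 hTs] at h1
    simp at h1
    omega
  -- cocycles
  let Z : Submodule (ZMod 2) (D → ZMod 2) :=
    { carrier := {f | (∀ d, f (inv d) = f d) ∧ ∀ d, f d + f (nxt d) + f (nxt (nxt d)) = 0}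
      add_mem' := by
        rintro f g ⟨h1, h2⟩ ⟨h3, h4⟩
        refine ⟨fun d => by simp only [Pi.add_apply, h1, h3], fun d => ?_⟩
        have h5 := h2 d
        have h6 := h4 d
        simp only [Pi.add_apply]
        linear_combination h5 + h6
      zero_mem' := ⟨fun d => rfl, fun d => by simp⟩
      smul_mem' := by
        rintro c f ⟨h1, h2⟩
        refine ⟨fun d => by simp only [Pi.smul_apply, h1], fun d => ?_⟩
        have h5 := h2 d
        simp only [Pi.smul_apply, smul_eq_mul]
        linear_combination c * h5 }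
  let P : ((A → ZMod 2) × ZMod 2) →ₗ[ZMod 2] (D → ZMod 2) :=
    { toFun := fun gt => gt.1 ∘ a
      map_add' := fun u v => rfl
      map_smul' := fun c u => rfl }
  have hZ : Z ≤ T.ker.map P := by
    rintro f ⟨h1, h2⟩
    have hl : ∀ d e, (orb inv h.hfi) d e → f d = f e := by
      intro d e hde
      have h3 : a d = a e := Quotient.sound hde
      rcases (haeq d e).1 h3 with h4 | h4
      · rw [h4]
      · rw [h4, h1]
    let g : A → ZMod 2 := Quotient.lift f hl
    have hg : ∀ d, g (a d) = f d := fun d => rfl
    refine ⟨(g, 0), ?_, ?_⟩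
    · change (g, (0 : ZMod 2)) ∈ T.ker
      rw [LinearMap.mem_ker]
      funext β
      obtain ⟨d, rfl⟩ := Quotient.exists_rep β
      change (∑ e ∈ univ.filter (fun e => b e = b d), g (a e)) +
        (if b d = b d₀ then (0 : ZMod 2) else 0) = 0
      rw [Finset.sum_congr rfl fun e _ => hg e, hfib, h2]
      simp
    · funext d
      exact hg d
  have hZr : Module.finrank (ZMod 2) Z ≤ Module.finrank (ZMod 2) T.ker :=
    (Submodule.finrank_mono hZ).trans (Submodule.finrank_map_le _ _)
  -- coboundaries
  let δ : (V → ZMod 2) →ₗ[ZMod 2] (D → ZMod 2) :=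
    { toFun := fun c d => c (tail d) + c (tail (nxt d))
      map_add' := by
        intro u v
        funext d
        simp only [Pi.add_apply]
        ring
      map_smul' := by
        intro c u
        funext d
        simp only [Pi.smul_apply, smul_eq_mul, RingHom.id_apply]
        ring }
  have hδZ : δ.range ≤ Z := by
    rintro f ⟨c, rfl⟩
    refine ⟨fun d => ?_, fun d => ?_⟩
    · change c (tail (inv d)) + c (tail (nxt (inv d))) = c (tail d) + c (tail (nxt d))
      have h1 := h.tail_inv (inv d)
      rw [h.inv_inv] at h1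
      rw [h.tail_inv, ← h1]
      ring
    · change (c (tail d) + c (tail (nxt d))) + (c (tail (nxt d)) + c (tail (nxt (nxt d)))) +
        (c (tail (nxt (nxt d))) + c (tail (nxt (nxt (nxt d))))) = 0
      rw [h.nxt3]
      have h1 := z2_add_self (c (tail d))
      have h2 := z2_add_self (c (tail (nxt d)))
      have h3 := z2_add_self (c (tail (nxt (nxt d))))
      linear_combination h1 + h2 + h3
  have hkδ : Module.finrank (ZMod 2) δ.ker ≤ 1 := by
    have h1 : δ.ker ≤ Submodule.span (ZMod 2) {(fun _ => 1 : V → ZMod 2)} := by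
      intro c hc
      have h2 : ∀ d, c (tail d) + c (tail (nxt d)) = 0 := fun d =>
        congrFun (LinearMap.mem_ker.1 hc) d
      have h3 : ∀ d, c (tail (nxt d)) = c (tail d) := by
        intro d
        have : ∀ x y : ZMod 2, x + y = 0 → y = x := by decide
        exact this _ _ (h2 d)
      have h4 := h.conn (fun d => c (tail d) = c (tail d₀)) ⟨d₀, rfl⟩
        (fun d hd => by rw [h.tail_inv, h3, hd]) (fun d hd => by rw [h3, hd])
      rw [Submodule.mem_span_singleton]
      refine ⟨c (tail d₀), ?_⟩
      funext v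
      obtain ⟨d, rfl⟩ := h.tail_surj v
      rw [h4 d]
      simp
    exact (Submodule.finrank_mono h1).trans ((finrank_span_le_card (R := ZMod 2) _).trans (by simp))
  have hδr : Module.finrank (ZMod 2) δ.range + Module.finrank (ZMod 2) δ.ker = Fintype.card V := by
    rw [LinearMap.finrank_range_add_finrank_ker]
    simp
  have heq : δ.range = Z := Submodule.eq_of_le_of_finrank_le hδZ (by omega)
  have hpar : par ∈ δ.range := by
    rw [heq]
    exact ⟨hp1, hp2⟩
  obtain ⟨c, hc⟩ := hpar
  exact ⟨c, fun d => (congrFun hc d).symm⟩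

/-- two colourings with the same coboundary differ by a constant -/
theorem colour_unique {col col' : V → ZMod 2}
    (hc : ∀ d, col (tail d) + col (tail (nxt d)) = col' (tail d) + col' (tail (nxt d))) :
    ∃ c, ∀ v, col' v = col v + c := by
  classical
  by_cases hD : ∃ d : D, True
  · obtain ⟨d₀, -⟩ := hD
    have h3 : ∀ d, col' (tail (nxt d)) + col (tail (nxt d)) = col' (tail d) + col (tail d) := by
      intro d
      have : ∀ x y z w : ZMod 2, x + y = z + w → w + y = z + x := by decide
      exact this _ _ _ _ (hc d)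
    have h4 := h.conn (fun d => col' (tail d) + col (tail d) = col' (tail d₀) + col (tail d₀))
      ⟨d₀, rfl⟩ (fun d hd => by rw [h.tail_inv, h3, hd]) (fun d hd => by rw [h3, hd])
    refine ⟨col' (tail d₀) + col (tail d₀), fun v => ?_⟩
    obtain ⟨d, rfl⟩ := h.tail_surj v
    have : ∀ x y z : ZMod 2, x + y = z → x = y + z := by decide
    exact this _ _ _ (h4 d)
  · refine ⟨0, fun v => ?_⟩
    obtain ⟨d, -⟩ := h.tail_surj v
    exact absurd ⟨d, trivial⟩ hD

/-- a cocycle supported on the star of `z` -/
theorem par_star (horb : ∀ d e, tail d = tail e → ∃ k : ℕ, (fun d => inv (nxt (nxt d)))^[k] d = e)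
    (hloop : ∀ d, tail (nxt d) ≠ tail d) (par : D → ZMod 2)
    (hp1 : ∀ d, par (inv d) = par d)
    (hp2 : ∀ d, par d + par (nxt d) + par (nxt (nxt d)) = 0) (z : V)
    (hz : ∀ d, tail d ≠ z → tail (nxt d) ≠ z → par d = 0) :
    ∃ c : ZMod 2, (∀ d, tail d = z → par d = c) ∧ (∀ d, tail (nxt d) = z → par d = c) := by
  obtain ⟨d₀, hd₀⟩ := h.tail_surj z
  have h1 : ∀ d, tail d = z → par (inv (nxt (nxt d))) = par d := by
    intro d hd
    have h2 : par (nxt d) = 0 := by
      refine hz _ (fun h3 => hloop d (h3.trans hd.symm)) (fun h3 => ?_)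
      have h4 := hloop (nxt (nxt d))
      rw [h.nxt3] at h4
      exact h4 (hd.trans h3.symm)
    have h3 := hp2 d
    rw [h2, add_zero] at h3
    rw [hp1]
    have : ∀ x y : ZMod 2, x + y = 0 → y = x := by decide
    exact this _ _ h3
  have h2 : ∀ k : ℕ, tail ((fun d => inv (nxt (nxt d)))^[k] d₀) = z ∧
      par ((fun d => inv (nxt (nxt d)))^[k] d₀) = par d₀ := by
    intro k
    induction k with
    | zero => exact ⟨hd₀, rfl⟩
    | succ k ih =>
      rw [Function.iterate_succ_apply']
      exact ⟨(h.tail_rot _).trans ih.1, (h1 _ ih.1).trans ih.2⟩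
  have h3 : ∀ d, tail d = z → par d = par d₀ := by
    intro d hd
    obtain ⟨k, hk⟩ := horb d₀ d (hd₀.trans hd.symm)
    rw [← hk]
    exact (h2 k).2
  refine ⟨par d₀, h3, fun d hd => ?_⟩
  rw [← hp1]
  exact h3 _ ((h.tail_inv d).trans hd)

/-- a colouring whose coboundary is supported on the star of `z` is constant off `z` -/
theorem colour_star (horb : ∀ d e, tail d = tail e → ∃ k : ℕ, (fun d => inv (nxt (nxt d)))^[k] d = e)
    (hloop : ∀ d, tail (nxt d) ≠ tail d) (col : V → ZMod 2) (z : V)
    (hz : ∀ d, tail d ≠ z → tail (nxt d) ≠ z → col (tail d) + col (tail (nxt d)) = 0) :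
    ∃ c, ∀ v, v ≠ z → col v = c := by
  classical
  have hcob : ∀ d, col (tail (inv d)) + col (tail (nxt (inv d))) =
      col (tail d) + col (tail (nxt d)) := by
    intro d
    have h1 := h.tail_inv (inv d)
    rw [h.inv_inv] at h1
    rw [h.tail_inv, ← h1]
    ring
  obtain ⟨c, hc1, hc2⟩ := h.par_star horb hloop (fun d => col (tail d) + col (tail (nxt d)))
    hcob (fun d => by
      change (col (tail d) + col (tail (nxt d))) + (col (tail (nxt d)) + col (tail (nxt (nxt d)))) +
        (col (tail (nxt (nxt d))) + col (tail (nxt (nxt (nxt d))))) = 0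
      rw [h.nxt3]
      have h1 := z2_add_self (col (tail d))
      have h2 := z2_add_self (col (tail (nxt d)))
      have h3 := z2_add_self (col (tail (nxt (nxt d))))
      linear_combination h1 + h2 + h3) z hz
  obtain ⟨c', hc'⟩ := h.colour_unique (col := fun v => if v = z then c else 0) (col' := col)
    (fun d => by
      by_cases h1 : tail d = z
      · have h2 : tail (nxt d) ≠ z := fun h3 => hloop d (h3.trans h1.symm)
        rw [if_pos h1, if_neg h2, add_zero]
        exact (hc1 d h1).symm
      · by_cases h2 : tail (nxt d) = z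
        · rw [if_neg h1, if_pos h2, zero_add]
          exact (hc2 d h2).symm
        · rw [if_neg h1, if_neg h2, add_zero]
          exact (hz d h1 h2).symm)
  refine ⟨c', fun v hv => ?_⟩
  rw [hc', if_neg hv, zero_add]

end Surf

end coc

end Pool.Agent.SQd
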