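import Pool.Agent.Lib_MP_6b5565_dg.Q.A4a

/-! [QG-A4b] every cocycle is a coboundary -/

namespace QGd

namespace Poly

variable (P : Poly)

/-- [QG-A4b] `H¹(S²; ℤ/2) = 0`: every cocycle is a coboundary.
Proof by dimensions over the field `ZMod 2`. Let `X` = functions `D → ZMod 2` invariant under `inv`
(dimension `|D|/2`), `δ : (V → ZMod 2) → X` the coboundary (kernel = constants by `conn`, so the
image has dimension `V - 1`), `∂ : X → (functions on D invariant under nxt)` the face sum
(`|D|/3` = number of faces dimensional); the image of `∂` is the annihilator of .. : its rank is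
`F - 1`, because the transpose (f ↦ (e ↦ f e + f (inv e))) on `nxt`-invariant `f` has kernel the
constants by `dual_conn`. So `dim ker ∂ = D/2 - D/3 + 1 = D/6 + 1 = V - 1` (`euler`), and
`im δ ⊆ ker ∂` gives equality. -/
theorem exists_col {p : P.D → ZMod 2} (hinv : ∀ e, p (P.inv e) = p e)
    (hface : ∀ e, p e + p (P.nxt e) + p (P.prev e) = 0) : ∃ c, P.Col p c := by
  obtain ⟨col, hcol⟩ := P.surf.exists_colour P.euler p hinv hface
  refine ⟨col, fun d => ?_⟩
  rw [P.head_eq]
  exact (hcol d).symm

end Poly

end QGd
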