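import Pool.Agent.Lib_MP_6b5565_dg.Q.Cocycle

/-!
# Block: shortening of a closed track by deleting blocks between crossings of one edge
-/

open Finset

set_option linter.unusedSectionVars false

namespace Pool.Agent.SQd

section track

variable {D V : Type*} [Fintype D] [DecidableEq D] [Fintype V] [DecidableEq V]
variable {E : Type*} [PseudoMetricSpace E]

/-- the track may cross `b` after `a`: then it leaves through `b` the face entered through `a` -/
def adj (inv nxt : D → D) (a b : D) : Prop := b = inv a ∨ b = inv (nxt a) ∨ b = inv (nxt (nxt a))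

/-- a list of crossings, coming from the half-edge `a` -/
def chain (inv nxt : D → D) : D → List (D × E) → Prop
  | _, [] => True
  | a, s :: l => adj inv nxt a s.1 ∧ chain inv nxt s.1 l

/-- the last half-edge -/
def lastD : D → List (D × E) → D
  | a, [] => a
  | _, s :: l => lastD s.1 l

/-- the last point -/
def lastX : E → List (D × E) → E
  | p, [] => p
  | _, s :: l => lastX s.2 l

/-- the length, coming from the point `p` -/
def plen : E → List (D × E) → ℝ
  | _, [] => 0
  | p, s :: l => dist p s.2 + plen s.2 l

/-- the parity of the number of crossings of `d` -/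
def par (inv : D → D) (l : List (D × E)) (d : D) : ZMod 2 :=
  (l.map fun s => if s.1 = d ∨ s.1 = inv d then (1 : ZMod 2) else 0).sum

theorem chain_append (inv nxt : D → D) (a : D) (l m : List (D × E)) :
    chain inv nxt a (l ++ m) ↔ chain inv nxt a l ∧ chain inv nxt (lastD a l) m := by
  induction l generalizing a with
  | nil => simp [chain, lastD]
  | cons s l ih =>
    simp only [List.cons_append, chain, lastD, ih]
    tauto

theorem lastD_append (a : D) (l m : List (D × E)) : lastD a (l ++ m) = lastD (lastD a l) m := by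
  induction l generalizing a with
  | nil => rfl
  | cons s l ih => simp only [List.cons_append, lastD, ih]

theorem lastX_append (p : E) (l m : List (D × E)) : lastX p (l ++ m) = lastX (lastX p l) m := by
  induction l generalizing p with
  | nil => rfl
  | cons s l ih => simp only [List.cons_append, lastX, ih]

theorem plen_append (p : E) (l m : List (D × E)) :
    plen p (l ++ m) = plen p l + plen (lastX p l) m := by
  induction l generalizing p with
  | nil => simp [plen, lastX]
  | cons s l ih => simp only [List.cons_append, plen, lastX, ih]; ring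

theorem plen_nonneg (p : E) (l : List (D × E)) : 0 ≤ plen p l := by
  induction l generalizing p with
  | nil => exact le_rfl
  | cons s l ih => exact add_nonneg dist_nonneg (ih _)

theorem dist_le_plen (p : E) (l : List (D × E)) : dist p (lastX p l) ≤ plen p l := by
  induction l generalizing p with
  | nil => simp [lastX, plen]
  | cons s l ih => exact (dist_triangle _ s.2 _).trans (add_le_add le_rfl (ih _))

/-- the same list from another point -/
theorem plen_change (p q : E) (l : List (D × E)) : plen q l ≤ dist q p + plen p l := by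
  cases l with
  | nil => simp [plen]
  | cons s l =>
    simp only [plen]
    linarith [dist_triangle q p s.2]

theorem lastX_indep (p q : E) {l : List (D × E)} (hl : l ≠ []) : lastX p l = lastX q l := by
  cases l with
  | nil => exact absurd rfl hl
  | cons s l => rfl

theorem lastD_indep (a b : D) {l : List (D × E)} (hl : l ≠ []) : lastD a l = lastD b l := by
  cases l with
  | nil => exact absurd rfl hl
  | cons s l => rfl

theorem par_append (inv : D → D) (l m : List (D × E)) (d : D) :
    par inv (l ++ m) d = par inv l d + par inv m d := by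
  unfold par
  rw [List.map_append, List.sum_append]

/-- `1` if `a` is a half-edge of the face of `d` -/
def inF (nxt : D → D) (d a : D) : ZMod 2 :=
  (if a = d then 1 else 0) + (if a = nxt d then 1 else 0) + (if a = nxt (nxt d) then 1 else 0)

variable {inv nxt : D → D} {tail : D → V}

namespace Surf

variable (hS : Surf inv nxt tail)
include hS

theorem par_inv (l : List (D × E)) (d : D) : par inv l (inv d) = par inv l d := by
  unfold par
  congr 1
  refine List.map_congr_left fun s _ => ?_
  rw [hS.inv_inv]
  by_cases h : s.1 = d ∨ s.1 = inv d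
  · rw [if_pos h, if_pos (or_comm.1 h)]
  · rw [if_neg h, if_neg (fun h1 => h (or_comm.1 h1))]

theorem inF_nxt (d a : D) : inF nxt d (nxt a) = inF nxt d a := by
  have h1 : nxt a = d ↔ a = nxt (nxt d) := by
    constructor
    · rintro rfl
      rw [hS.nxt3]
    · rintro rfl
      rw [hS.nxt3]
  have hi : ∀ u v, nxt u = nxt v → u = v := by
    intro u v h
    rw [← hS.nxt3 u, h, hS.nxt3]
  have h2 : nxt a = nxt d ↔ a = d := ⟨fun h => hi _ _ h, fun h => by rw [h]⟩
  have h3 : nxt a = nxt (nxt d) ↔ a = nxt d := ⟨fun h => hi _ _ h, fun h => by rw [h]⟩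
  unfold inF
  simp only [h1, h2, h3]
  ring

theorem inF_adj {a b : D} (hab : adj inv nxt a b) (d : D) : inF nxt d (inv b) = inF nxt d a := by
  rcases hab with h | h | h
  · rw [h, hS.inv_inv]
  · rw [h, hS.inv_inv, hS.inF_nxt]
  · rw [h, hS.inv_inv, hS.inF_nxt, hS.inF_nxt]

theorem step_sum (s : D × E) (d : D) :
    (if s.1 = d ∨ s.1 = inv d then (1 : ZMod 2) else 0) +
      (if s.1 = nxt d ∨ s.1 = inv (nxt d) then (1 : ZMod 2) else 0) +
      (if s.1 = nxt (nxt d) ∨ s.1 = inv (nxt (nxt d)) then (1 : ZMod 2) else 0) =
      inF nxt d s.1 + inF nxt d (inv s.1) := by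
  have key : ∀ e, (if s.1 = e ∨ s.1 = inv e then (1 : ZMod 2) else 0) =
      (if s.1 = e then 1 else 0) + (if inv s.1 = e then 1 else 0) := by
    intro e
    have h1 : s.1 = inv e ↔ inv s.1 = e := by
      constructor
      · intro h
        rw [h, hS.inv_inv]
      · intro h
        rw [← h, hS.inv_inv]
    by_cases h2 : s.1 = e
    · have h3 : ¬ inv s.1 = e := by
        intro h4
        rw [← h2] at h4
        exact hS.inv_ne _ h4
      rw [if_pos (Or.inl h2), if_pos h2, if_neg h3, add_zero]
    · by_cases h3 : inv s.1 = e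
      · rw [if_pos (Or.inr (h1.2 h3)), if_neg h2, if_pos h3, zero_add]
      · rw [if_neg, if_neg h2, if_neg h3, add_zero]
        rintro (h4 | h4)
        · exact h2 h4
        · exact h3 (h1.1 h4)
  rw [key, key, key]
  unfold inF
  ring

/-- parities telescope -/
theorem par_chain (l : List (D × E)) (a d : D) (hl : chain inv nxt a l) :
    par inv l d + par inv l (nxt d) + par inv l (nxt (nxt d)) =
      inF nxt d a + inF nxt d (lastD a l) := by
  induction l generalizing a with
  | nil =>
    simp only [par, List.map_nil, List.sum_nil, lastD]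
    rw [z2_add_self (inF nxt d a)]
    ring
  | cons s l ih =>
    obtain ⟨h1, h2⟩ := hl
    have h3 := ih s.1 h2
    have h4 := hS.step_sum s d
    have h5 := hS.inF_adj h1 d
    simp only [par, List.map_cons, List.sum_cons] at h3 ⊢
    have h6 := z2_add_self (inF nxt d s.1)
    rw [h5] at h4
    simp only [lastD]
    linear_combination h3 + h4 + h6

/-- the parity of a closed track is a cocycle -/
theorem par_closed (l : List (D × E)) (a d : D) (hl : chain inv nxt a l) (ha : lastD a l = a) :
    par inv l d + par inv l (nxt d) + par inv l (nxt (nxt d)) = 0 := by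
  rw [hS.par_chain l a d hl, ha, z2_add_self]

/-- as many cocycles as vertices are dependent -/
theorem dep (hE : 6 * Fintype.card V = Fintype.card D + 12) {ι : Type*} [Fintype ι]
    (v : ι → D → ZMod 2) (h1 : ∀ i d, v i (inv d) = v i d)
    (h2 : ∀ i d, v i d + v i (nxt d) + v i (nxt (nxt d)) = 0)
    (hc : Fintype.card V ≤ Fintype.card ι) :
    ∃ J : Finset ι, J.Nonempty ∧ ∀ d, ∑ j ∈ J, v j d = 0 := by
  classical
  have hV : 0 < Fintype.card V := by omega
  obtain ⟨v₀⟩ := Fintype.card_pos_iff.1 hV
  have hex : ∀ i, ∃ col : V → ZMod 2, (∀ d, v i d = col (tail d) + col (tail (nxt d))) ∧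
      col v₀ = 0 := by
    intro i
    obtain ⟨col, hcol⟩ := hS.exists_colour hE (v i) (h1 i) (h2 i)
    refine ⟨fun w => col w + col v₀, fun d => ?_, z2_add_self _⟩
    rw [hcol]
    have := z2_add_self (col v₀)
    linear_combination -this
  choose col hcol hcol0 using hex
  have hdep : ¬ LinearIndependent (ZMod 2)
      (fun i => (fun w : {w // w ≠ v₀} => col i w.1 : {w // w ≠ v₀} → ZMod 2)) := by
    intro hli
    have h3 := hli.fintype_card_le_finrank
    rw [Module.finrank_fintype_fun_eq_card] at h3
    have h4 : Fintype.card {w // w ≠ v₀} = Fintype.card V - 1 := by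
      rw [Fintype.card_subtype_compl, Fintype.card_subtype_eq]
    omega
  rw [Fintype.not_linearIndependent_iff] at hdep
  obtain ⟨g, hg, i₀, hi₀⟩ := hdep
  have hg1 : ∀ w, ∑ i, g i * col i w = 0 := by
    intro w
    by_cases hw : w = v₀
    · rw [hw]
      refine Finset.sum_eq_zero fun i _ => ?_
      rw [hcol0, mul_zero]
    · have h3 := congrFun hg ⟨w, hw⟩
      simp only [Finset.sum_apply, Pi.smul_apply, smul_eq_mul, Pi.zero_apply] at h3
      exact h3
  refine ⟨univ.filter fun i => g i = 1, ⟨i₀, ?_⟩, fun d => ?_⟩
  · rw [mem_filter]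
    refine ⟨mem_univ _, ?_⟩
    have : ∀ x : ZMod 2, x ≠ 0 → x = 1 := by decide
    exact this _ hi₀
  · rw [Finset.sum_filter]
    have h3 : ∀ i, (if g i = 1 then v i d else 0) = g i * v i d := by
      intro i
      have : ∀ x y : ZMod 2, (if x = 1 then y else 0) = x * y := by decide
      exact this _ _
    rw [Finset.sum_congr rfl fun i _ => h3 i]
    have h4 : ∀ i, g i * v i d = g i * col i (tail d) + g i * col i (tail (nxt d)) := by
      intro i
      rw [hcol]
      ring
    rw [Finset.sum_congr rfl fun i _ => h4 i, Finset.sum_add_distrib, hg1, hg1, add_zero]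

end Surf

/-- blocks: inner steps and the last step -/
abbrev Blk (D E : Type*) := List (D × E) × (D × E)

/-- the steps of a block -/
def Blk.steps (b : Blk D E) : List (D × E) := b.1 ++ [b.2]

/-- the original list -/
def orig (b : ℕ → Blk D E) (k : ℕ) : List (D × E) := (List.range k).flatMap fun i => (b i).1 ++ [(b i).2]

/-- what remains of the block `i`; `c i` is the half-edge of the last crossing before the block -/
def piece (b : ℕ → Blk D E) (c : ℕ → D) (del : ℕ → Bool) (i : ℕ) : List (D × E) :=
  if del i = true then (if (b i).2.1 = c i then [] else [(b i).2]) else (b i).1 ++ [(b i).2]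

/-- the shortened list -/
def out (b : ℕ → Blk D E) (c : ℕ → D) (del : ℕ → Bool) (k : ℕ) : List (D × E) :=
  (List.range k).flatMap (piece b c del)

/-- parity of the deleted steps of the block `i` -/
def dv (inv : D → D) (b : ℕ → Blk D E) (c : ℕ → D) (i : ℕ) (d : D) : ZMod 2 :=
  if (b i).2.1 = c i then par inv ((b i).1 ++ [(b i).2]) d else par inv (b i).1 d

theorem orig_succ (b : ℕ → Blk D E) (k : ℕ) : orig b (k + 1) = orig b k ++ ((b k).1 ++ [(b k).2]) := by
  unfold orig
  rw [List.range_succ, List.flatMap_append, List.flatMap_singleton]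

theorem out_succ (b : ℕ → Blk D E) (c : ℕ → D) (del : ℕ → Bool) (k : ℕ) :
    out b c del (k + 1) = out b c del k ++ piece b c del k := by
  unfold out
  rw [List.range_succ, List.flatMap_append, List.flatMap_singleton]

/-- hypotheses on the blocks -/
structure Blocks (inv nxt : D → D) (h : D) (b : ℕ → Blk D E) (m : ℕ) (c : ℕ → D) : Prop where
  pos : 0 < m
  c0 : c 0 = (b (m - 1)).2.1
  cs : ∀ i, c (i + 1) = (b i).2.1
  edge : ∀ i, (b i).2.1 = h ∨ (b i).2.1 = inv h
  chn : ∀ i, i < m → chain inv nxt (c i) ((b i).1 ++ [(b i).2])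

namespace Blocks

variable {h : D} {b : ℕ → Blk D E} {m : ℕ} {c : ℕ → D} (hS : Surf inv nxt tail)
  (hb : Blocks inv nxt h b m c)
include hS hb

theorem c_edge (i : ℕ) : c i = h ∨ c i = inv h := by
  cases i with
  | zero => rw [hb.c0]; exact hb.edge _
  | succ i => rw [hb.cs]; exact hb.edge _

theorem cm : c m = c 0 := by
  have h1 := hb.pos
  obtain ⟨k, rfl⟩ : ∃ k, m = k + 1 := ⟨m - 1, by omega⟩
  rw [hb.cs, hb.c0]
  simp

theorem opp {i : ℕ} (hi : ¬ (b i).2.1 = c i) : (b i).2.1 = inv (c i) := by
  rcases hb.edge i with h1 | h1 <;> rcases hb.c_edge hS i with h2 | h2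
  · exact absurd (h1.trans h2.symm) hi
  · rw [h1, h2, hS.inv_inv]
  · rw [h1, h2]
  · exact absurd (h1.trans h2.symm) hi

theorem out_chain (del : ℕ → Bool) (k : ℕ) (hk : k ≤ m) :
    chain inv nxt (c 0) (out b c del k) ∧ lastD (c 0) (out b c del k) = c k := by
  induction k with
  | zero => exact ⟨trivial, rfl⟩
  | succ k ih =>
    obtain ⟨h1, h2⟩ := ih (by omega)
    rw [out_succ, chain_append, lastD_append, h2, hb.cs]
    unfold piece
    by_cases h3 : del k = true
    · rw [if_pos h3]
      by_cases h4 : (b k).2.1 = c k
      · rw [if_pos h4]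
        exact ⟨⟨h1, trivial⟩, h4.symm⟩
      · rw [if_neg h4]
        exact ⟨⟨h1, Or.inl (hb.opp hS h4), trivial⟩, rfl⟩
    · rw [if_neg h3]
      refine ⟨⟨h1, hb.chn k (by omega)⟩, ?_⟩
      rw [lastD_append]
      rfl

theorem out_len (del : ℕ → Bool) (p : E) (k : ℕ) (hk : k ≤ m) :
    plen p (out b c del k) + dist (lastX p (out b c del k)) (lastX p (orig b k)) ≤
      plen p (orig b k) := by
  induction k with
  | zero =>
    change (0 : ℝ) + dist p p ≤ 0
    simp
  | succ k ih =>
    have h1 := ih (by omega)
    set Q := lastX p (out b c del k) with hQ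
    set P := lastX p (orig b k) with hP
    have h2 : lastX p (orig b (k + 1)) = (b k).2.2 := by
      rw [orig_succ, lastX_append, lastX_append]
      rfl
    have h3 : plen p (orig b (k + 1)) = plen p (orig b k) + plen P ((b k).1 ++ [(b k).2]) := by
      rw [orig_succ, plen_append]
    have h4 : dist P (b k).2.2 ≤ plen P ((b k).1 ++ [(b k).2]) := by
      have := dist_le_plen P ((b k).1 ++ [(b k).2])
      rw [lastX_append] at this
      exact this
    rw [h2, h3, out_succ, plen_append, lastX_append, ← hQ]
    unfold piece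
    by_cases h5 : del k = true
    · rw [if_pos h5]
      by_cases h6 : (b k).2.1 = c k
      · rw [if_pos h6]
        change plen p (out b c del k) + 0 + dist Q (b k).2.2 ≤ _
        linarith [dist_triangle Q P (b k).2.2]
      · rw [if_neg h6]
        change plen p (out b c del k) + (dist Q (b k).2.2 + 0) + dist (b k).2.2 (b k).2.2 ≤ _
        rw [dist_self]
        linarith [dist_triangle Q P (b k).2.2]
    · rw [if_neg h5, lastX_append]
      change plen p (out b c del k) + plen Q ((b k).1 ++ [(b k).2]) +
        dist (b k).2.2 (b k).2.2 ≤ _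
      rw [dist_self]
      linarith [plen_change P Q ((b k).1 ++ [(b k).2])]

theorem out_par (del : ℕ → Bool) (d : D) (k : ℕ) :
    par inv (out b c del k) d + ∑ i ∈ (range k).filter (fun i => del i = true), dv inv b c i d =
      par inv (orig b k) d := by
  induction k with
  | zero => simp [out, orig, par]
  | succ k ih =>
    rw [out_succ, orig_succ, par_append, par_append, ← ih, Finset.range_add_one,
      Finset.filter_insert]
    by_cases h5 : del k = true
    · rw [if_pos h5, Finset.sum_insert (by simp)]
      unfold piece dv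
      rw [if_pos h5]
      by_cases h6 : (b k).2.1 = c k
      · rw [if_pos h6, if_pos h6]
        simp only [par, List.map_nil, List.sum_nil]
        ring
      · rw [if_neg h6, if_neg h6, par_append]
        ring
    · rw [if_neg h5]
      unfold piece
      rw [if_neg h5]
      ring

theorem dv_inv (i : ℕ) (d : D) : dv inv b c i (inv d) = dv inv b c i d := by
  unfold dv
  rw [hS.par_inv, hS.par_inv]

theorem dv_face {i : ℕ} (hi : i < m) (d : D) :
    dv inv b c i d + dv inv b c i (nxt d) + dv inv b c i (nxt (nxt d)) = 0 := by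
  have h1 := hb.chn i hi
  unfold dv
  by_cases h6 : (b i).2.1 = c i
  · simp only [if_pos h6]
    refine hS.par_closed _ (c i) d h1 ?_
    rw [lastD_append]
    exact h6
  · simp only [if_neg h6]
    rw [chain_append] at h1
    rw [hS.par_chain _ (c i) d h1.1]
    have h2 : adj inv nxt (lastD (c i) (b i).1) (b i).2.1 := h1.2.1
    have h3 := hS.inF_adj h2 d
    rw [hb.opp hS h6, hS.inv_inv] at h3
    rw [← h3, z2_add_self]

theorem out_length (del : ℕ → Bool) (k : ℕ) :
    (out b c del k).length ≤ (orig b k).length := by
  induction k with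
  | zero => exact le_rfl
  | succ k ih =>
    rw [out_succ, orig_succ, List.length_append, List.length_append]
    unfold piece
    split_ifs <;> simp <;> omega

theorem out_length_lt (del : ℕ → Bool) (k : ℕ)
    (hex : ∃ i, i < k ∧ del i = true ∧ ¬ ((b i).1 = [] ∧ ¬ (b i).2.1 = c i)) :
    (out b c del k).length < (orig b k).length := by
  induction k with
  | zero =>
    obtain ⟨i, hi, -⟩ := hex
    omega
  | succ k ih =>
    rw [out_succ, orig_succ, List.length_append, List.length_append]
    obtain ⟨i, hi, h1, h2⟩ := hex
    by_cases hik : i = k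
    · subst hik
      have h3 := hb.out_length hS del i
      unfold piece
      rw [if_pos h1]
      by_cases h4 : (b i).2.1 = c i
      · rw [if_pos h4]
        simp
        omega
      · rw [if_neg h4]
        have h5 : (b i).1 ≠ [] := fun h6 => h2 ⟨h6, h4⟩
        have h6 := List.length_pos_of_ne_nil h5
        simp
        omega
    · have h3 := ih ⟨i, by omega, h1, h2⟩
      unfold piece
      split_ifs <;> simp <;> omega

/-- the steps of the blocks which are kept -/
theorem mem_out (del : ℕ → Bool) {k i : ℕ} (hi : i < k) (hd : ¬ del i = true) {s : D × E}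
    (hs : s ∈ (b i).1 ++ [(b i).2]) : s ∈ out b c del k := by
  unfold out
  rw [List.mem_flatMap]
  refine ⟨i, List.mem_range.2 hi, ?_⟩
  unfold piece
  rw [if_neg hd]
  exact hs

theorem out_sub (del : ℕ → Bool) {k : ℕ} {s : D × E} (hs : s ∈ out b c del k) :
    s ∈ orig b k := by
  unfold out at hs
  rw [List.mem_flatMap] at hs
  obtain ⟨i, hi, h1⟩ := hs
  unfold orig
  rw [List.mem_flatMap]
  refine ⟨i, hi, ?_⟩
  unfold piece at h1
  split_ifs at h1
  · simp at h1
  · rw [List.mem_singleton] at h1
    rw [h1]
    simp
  · exact h1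

/-- **the block lemma**: if there are at least as many non trivial blocks in `U` as vertices, some
blocks of `U` can be deleted -/
theorem reduce (hE : 6 * Fintype.card V = Fintype.card D + 12) (U : Finset ℕ)
    (hU : ∀ i ∈ U, i < m ∧ ¬ ((b i).1 = [] ∧ ¬ (b i).2.1 = c i))
    (hcard : Fintype.card V ≤ U.card) (p : E) (hp : p = (b (m - 1)).2.2) :
    ∃ l : List (D × E), chain inv nxt (c 0) l ∧ lastD (c 0) l = c 0 ∧
      (∀ d, par inv l d = par inv (orig b m) d) ∧ l.length < (orig b m).length ∧
      plen p l + dist (lastX p l) p ≤ plen p (orig b m) ∧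
      (∀ s ∈ l, s ∈ orig b m) ∧
      (∀ i, i < m → i ∉ U → ∀ s ∈ (b i).1 ++ [(b i).2], s ∈ l) := by
  classical
  obtain ⟨J, hJ, hJ0⟩ := hS.dep hE (ι := U) (fun i => dv inv b c i.1)
    (fun i d => hb.dv_inv hS i.1 d) (fun i d => hb.dv_face hS (hU i.1 i.2).1 d)
    (by rw [Fintype.card_coe]; exact hcard)
  let J' : Finset ℕ := J.map ⟨Subtype.val, Subtype.val_injective⟩
  have hJ' : ∀ i, i ∈ J' → i ∈ U := by
    intro i hi
    rw [Finset.mem_map] at hi
    obtain ⟨j, -, rfl⟩ := hi
    exact j.2
  let del : ℕ → Bool := fun i => decide (i ∈ J')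
  have hdel : ∀ i, del i = true ↔ i ∈ J' := fun i => decide_eq_true_iff
  have h1 := hb.out_chain hS del m le_rfl
  have hlast : lastX p (orig b m) = p := by
    have hpos := hb.pos
    obtain ⟨k, rfl⟩ : ∃ k, m = k + 1 := ⟨m - 1, by omega⟩
    rw [orig_succ, lastX_append, lastX_append, hp]
    simp [lastX]
  refine ⟨out b c del m, h1.1, ?_, ?_, ?_, ?_, ?_, ?_⟩
  · rw [h1.2, hb.cm hS]
  · intro d
    have h2 := hb.out_par hS del d m
    have h3 : ∑ i ∈ (range m).filter (fun i => del i = true), dv inv b c i d = 0 := by
      have h4 : (range m).filter (fun i => del i = true) = J' := by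
        ext i
        rw [mem_filter, hdel, mem_range]
        exact ⟨fun h => h.2, fun h => ⟨(hU i (hJ' i h)).1, h⟩⟩
      rw [h4, Finset.sum_map]
      exact hJ0 d
    rw [h3, add_zero] at h2
    exact h2
  · obtain ⟨j, hj⟩ := hJ
    have hjU := j.2
    refine hb.out_length_lt hS del m ⟨j.1, (hU _ hjU).1, ?_, (hU _ hjU).2⟩
    rw [hdel, Finset.mem_map]
    exact ⟨j, hj, rfl⟩
  · have h2 := hb.out_len hS del p m le_rfl
    rw [hlast] at h2
    exact h2
  · intro s hs
    exact hb.out_sub hS del hs
  · intro i hi hiU s hs
    refine hb.mem_out hS del hi ?_ hs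
    rw [hdel]
    exact fun h2 => hiU (hJ' i h2)

end Blocks

end track

end Pool.Agent.SQd
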