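import Pool.Agent.Lib_MP_6b5565_dg.Q.A4a
import Pool.Agent.Lib_MP_6b5565_dg.Q.Block

/-! [QG-A4c] linear dependence of coboundaries -/

namespace QGd

namespace Poly

variable (P : Poly)

/-- [QG-A4c] at least `nV` coboundaries have a nonempty subfamily with sum zero (the space of
coboundaries has dimension at most `nV - 1`) -/
theorem exists_subset_sum {ι : Type} (s : Finset ι) (p : ι → P.D → ZMod 2)
    (hp : ∀ i ∈ s, ∃ c, P.Col (p i) c) (hs : P.nV ≤ s.card) :
    ∃ J ⊆ s, J.Nonempty ∧ ∀ e, ∑ i ∈ J, p i e = 0 := by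
  have h2 : (2 : ZMod 2) = 0 := rfl
  obtain ⟨J, hJ, hJ0⟩ := P.surf.dep P.euler (ι := s) (fun i => p i.1)
    (by
      intro i d
      obtain ⟨c, hc⟩ := hp i.1 i.2
      have e1 := hc d
      have e2 := hc (P.inv d)
      rw [P.tail_eq_head_inv] at e2
      show p i.1 (P.inv d) = p i.1 d
      rw [← e1, ← e2]
      show c (P.head d) + c (P.tail d) = _
      ring)
    (by
      intro i d
      obtain ⟨c, hc⟩ := hp i.1 i.2
      have e1 := hc d
      have e2 := hc (P.nxt d)
      have e3 := hc (P.prev d)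
      rw [P.head_nxt, ← P.head_eq] at e2
      rw [P.head_prev] at e3
      show p i.1 d + p i.1 (P.nxt d) + p i.1 (P.prev d) = 0
      rw [← e1, ← e2, ← e3]
      linear_combination (c (P.tail d) + c (P.head d) + c (P.tail (P.prev d))) * h2)
    (by rw [Fintype.card_coe]; exact hs)
  refine ⟨J.map ⟨Subtype.val, Subtype.val_injective⟩, ?_, ?_, ?_⟩
  · intro i hi
    rw [Finset.mem_map] at hi
    obtain ⟨j, -, rfl⟩ := hi
    exact j.2
  · exact hJ.map
  · intro e
    rw [Finset.sum_map]
    exact hJ0 e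

end Poly

end QGd
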