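import Pool.Agent.Lib_MP_6b5565_dg.Q.Walks0

/-! [QG-A4d] cocycles at one vertex -/

namespace QGd

namespace Poly

variable (P : Poly)

/-- [QG-A4d] a cocycle supported on the star of `v` is `0` or the whole star (in the face of a
half-edge `d` at `v` the two edges at `v` have the same value, go around with `orbit`) -/
theorem cocycle_star {v : P.V} {p : P.D → ZMod 2} (hinv : ∀ e, p (P.inv e) = p e)
    (hface : ∀ e, p e + p (P.nxt e) + p (P.prev e) = 0)
    (hsupp : ∀ e, P.tail e ≠ v → P.head e ≠ v → p e = 0) :
    (∀ e, p e = 0) ∨ (∀ e, p e = P.star v e) := by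
  obtain ⟨d₀, hd₀⟩ := P.surj v
  have h2 : (2 : ZMod 2) = 0 := rfl
  have hstep : ∀ d, P.tail d = v → p (P.inv (P.nxt (P.nxt d))) = p d := by
    intro d hd
    have h1 := hface d
    have h3 : p (P.nxt d) = 0 := by
      apply hsupp
      · rw [← P.head_eq, ← hd]; exact (P.tail_ne_head d).symm
      · rw [P.head_nxt, ← hd]; exact (P.tail_ne_prev d).symm
    rw [hinv]
    show p (P.prev d) = p d
    linear_combination h1 - h3 - p d * h2
  have hit : ∀ (k : ℕ) (d : P.D), P.tail d = v →
      p ((fun a => P.inv (P.nxt (P.nxt a)))^[k] d) = p d ∧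
      P.tail ((fun a => P.inv (P.nxt (P.nxt a)))^[k] d) = v := by
    intro k
    induction k with
    | zero => intro d hd; exact ⟨rfl, hd⟩
    | succ k ih =>
        intro d hd
        rw [Function.iterate_succ_apply']
        obtain ⟨i1, i2⟩ := ih d hd
        exact ⟨by rw [hstep _ i2, i1], by rw [← i2]; exact P.tail_rot _⟩
  have hall : ∀ e, P.tail e = v → p e = p d₀ := by
    intro e he
    obtain ⟨k, hk⟩ := P.orbit d₀ e (by rw [hd₀, he])
    rw [← hk]
    exact (hit k d₀ hd₀).1
  have hall' : ∀ e, P.head e = v → p e = p d₀ := by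
    intro e he
    rw [← hinv e]
    exact hall _ he
  have h01 : p d₀ = 0 ∨ p d₀ = 1 := by
    generalize p d₀ = z
    revert z
    decide
  rcases h01 with h0 | h1
  · left
    intro e
    by_cases h3 : P.tail e = v
    · rw [hall e h3, h0]
    · by_cases h4 : P.head e = v
      · rw [hall' e h4, h0]
      · exact hsupp e h3 h4
  · right
    intro e
    unfold star
    by_cases h3 : P.tail e = v
    · rw [hall e h3, h1, if_pos (Or.inl h3)]
    · by_cases h4 : P.head e = v
      · rw [hall' e h4, h1, if_pos (Or.inr h4)]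
      · rw [hsupp e h3 h4, if_neg (by tauto)]

theorem Col_star (v : P.V) : P.Col (P.star v) (fun u => if u = v then 1 else 0) := by
  intro d
  unfold star
  have h := P.tail_ne_head d
  by_cases h3 : P.tail d = v
  · have h4 : P.head d ≠ v := fun h5 => h (h3.trans h5.symm)
    simp [h3, h4]
  · by_cases h4 : P.head d = v
    · simp [h3, h4]
    · simp [h3, h4]

end Poly

end QGd
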