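import Pool.Agent.Lib_MP_6b5565_dg.Q.Order

/-!
# Angle: Gauss-Bonnet for a simple track
-/

open Finset

set_option linter.unusedSectionVars false

namespace Pool.Agent.SQd

theorem alt_sum (c₀ b : ZMod 2) (n : ℕ) :
    ∑ k ∈ range n, (if c₀ + (k : ZMod 2) = b then (-1 : ℝ) else 1) =
      (if c₀ + (n : ZMod 2) = b then 1 else 0) - (if c₀ = b then 1 else 0) := by
  induction n with
  | zero => simp
  | succ n ih =>
    rw [Finset.sum_range_succ, ih]
    have h1 : c₀ + ((n + 1 : ℕ) : ZMod 2) = b ↔ ¬ (c₀ + (n : ZMod 2) = b) := by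
      push_cast
      have : ∀ x y z : ZMod 2, x + (y + 1) = z ↔ ¬ (x + y = z) := by decide
      exact this _ _ _
    by_cases h2 : c₀ + (n : ZMod 2) = b
    · rw [if_pos h2, if_pos h2, if_neg (fun h3 => h1.1 h3 h2)]
      ring
    · rw [if_neg h2, if_neg h2, if_pos (h1.2 h2)]
      ring

section ang

variable {D V : Type*} [Fintype D] [DecidableEq D] [Fintype V] [DecidableEq V]
variable {N : ℕ} [NeZero N]
variable {inv nxt : D → D} {tail : D → V} {dd : ZMod N → D} {x : ZMod N → ℝ}

/-- the angle at the crossing `i` in the face of `d` on the side of colour `b`, `τ d i` being the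
angle towards the tail of `d` -/
noncomputable def gg (inv : D → D) (tail : D → V) (dd : ZMod N → D) (x : ZMod N → ℝ)
    (col : V → ZMod 2) (b : ZMod 2) (τ : D → ZMod N → ℝ) (d : D) (i : ZMod N) : ℝ :=
  if col (tail d) + (pos inv dd x d i : ZMod 2) = b then τ d i else Real.pi - τ d i

/-- the angle of the track at the crossing `i` on the side of colour `b` -/
noncomputable def beta (inv : D → D) (tail : D → V) (dd : ZMod N → D) (x : ZMod N → ℝ)
    (col : V → ZMod 2) (b : ZMod 2) (τ : D → ZMod N → ℝ) (i : ZMod N) : ℝ :=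
  if col (tail (dd i)) + (pos inv dd x (dd i) i : ZMod 2) = b then
    τ (dd i) i + (Real.pi - τ (inv (dd i)) i)
  else (Real.pi - τ (dd i) i) + τ (inv (dd i)) i

namespace Chords

variable (hS : Surf inv nxt tail) (h : Chords inv nxt dd x) {col : V → ZMod 2}
  (hcol : ∀ d, ((onF inv dd d).card : ZMod 2) = col (tail d) + col (tail (nxt d)))
include hS h hcol

theorem col_inv' (d : D) : col (tail (inv d)) = col (tail d) + ((onF inv dd d).card : ZMod 2) := by
  rw [hS.tail_inv, hcol]
  have := z2_add_self (col (tail d))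
  linear_combination -this

theorem col_prev' (d : D) : col (tail d) =
    col (tail (nxt (nxt d))) + ((onF inv dd (nxt (nxt d))).card : ZMod 2) := by
  have h1 := hcol (nxt (nxt d))
  rw [hS.nxt3] at h1
  rw [h1]
  have := z2_add_self (col (tail (nxt (nxt d))))
  linear_combination -this

theorem tailcol_inv {d : D} {i : ZMod N} (hi : On inv dd d i) (b : ZMod 2) :
    col (tail (inv d)) + (pos inv dd x (inv d) i : ZMod 2) = b ↔
      ¬ (col (tail d) + (pos inv dd x d i : ZMod 2) = b) := by
  rw [pos_inv hS h hi, col_inv' hS h hcol]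
  have h1 := pos_add_sop hS h hi
  have h2 : ((onF inv dd d).card : ZMod 2) = (pos inv dd x d i : ZMod 2) +
      (sop inv dd x d i : ZMod 2) + 1 := by
    rw [← h1]
    push_cast
    ring
  rw [h2]
  have : ∀ x y z w : ZMod 2, x + (y + z + 1) + z = w ↔ ¬ (x + y = w) := by decide
  exact this _ _ _ _

theorem tailcol_cut {d : D} {i j : ZMod N} (hc : Cut inv nxt dd d i j) (b : ZMod 2) :
    col (tail (nxt (nxt d))) + (pos inv dd x (nxt (nxt d)) j : ZMod 2) = b ↔
      ¬ (col (tail d) + (pos inv dd x d i : ZMod 2) = b) := by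
  rw [col_prev' hS h hcol d, ← sop_cut hS h hc]
  have h1 := pos_add_sop hS h (cut_on' hS h hc)
  have h2 : ((onF inv dd (nxt (nxt d))).card : ZMod 2) =
      (pos inv dd x (nxt (nxt d)) j : ZMod 2) +
      (sop inv dd x (nxt (nxt d)) j : ZMod 2) + 1 := by
    rw [← h1]
    push_cast
    ring
  rw [h2]
  have : ∀ x y z w : ZMod 2, x + y = w ↔ ¬ (x + (y + z + 1) + z = w) := by decide
  exact this _ _ _ _

theorem beta_eq (b : ZMod 2) (τ : D → ZMod N → ℝ) (i : ZMod N) :
    beta inv tail dd x col b τ i =
      gg inv tail dd x col b τ (dd i) i + gg inv tail dd x col b τ (inv (dd i)) i := by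
  have hon : On inv dd (dd i) i := Or.inl rfl
  have h1 := tailcol_inv hS h hcol hon b
  unfold beta gg
  by_cases h2 : col (tail (dd i)) + (pos inv dd x (dd i) i : ZMod 2) = b
  · rw [if_pos h2, if_pos h2, if_neg (fun h3 => h1.1 h3 h2)]
  · rw [if_neg h2, if_neg h2, if_pos (h1.2 h2)]

/-- double counting of the pairs half-edge, crossing -/
theorem sum_on (g : D → ZMod N → ℝ) :
    ∑ d, ∑ i ∈ onF inv dd d, g d i = ∑ i, (g (dd i) i + g (inv (dd i)) i) := by
  classical
  have h1 : ∀ d, ∑ i ∈ onF inv dd d, g d i = ∑ i, if On inv dd d i then g d i else 0 := by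
    intro d
    unfold onF
    rw [Finset.sum_filter]
  rw [Finset.sum_congr rfl fun d _ => h1 d, Finset.sum_comm]
  refine Finset.sum_congr rfl fun i _ => ?_
  have h2 : ∀ d, (if On inv dd d i then g d i else 0) =
      if d ∈ ({dd i, inv (dd i)} : Finset D) then g d i else 0 := by
    intro d
    have h3 : On inv dd d i ↔ d ∈ ({dd i, inv (dd i)} : Finset D) := by
      rw [mem_insert, mem_singleton]
      unfold On
      constructor
      · rintro (h4 | h4)
        · exact Or.inl h4.symm
        · right
          rw [h4, hS.inv_inv]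
      · rintro (h4 | h4)
        · exact Or.inl h4.symm
        · right
          rw [h4, hS.inv_inv]
    by_cases h4 : On inv dd d i
    · rw [if_pos h4, if_pos (h3.1 h4)]
    · rw [if_neg h4, if_neg (fun h5 => h4 (h3.2 h5))]
  rw [Finset.sum_congr rfl fun d _ => h2 d, Finset.sum_ite_mem, Finset.univ_inter,
    Finset.sum_pair (Ne.symm (hS.inv_ne _))]

/-- sums over the chords -/
theorem sum_chord (g : D → ZMod N → ℝ) (f : D → ZMod N → ℝ)
    (hf : ∀ d i j, Cut inv nxt dd d i j → f d i = g d i + g (nxt (nxt d)) j) :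
    ∑ d, ∑ i ∈ onF inv dd d, g d i = ∑ d, ∑ i ∈ cutF inv nxt dd d, f d i := by
  classical
  have hsplit : ∀ d, ∑ i ∈ onF inv dd d, g d i = ∑ i ∈ cutF inv nxt dd d, g d i +
      ∑ i ∈ (onF inv dd d).filter (fun i => ∃ k, Cut inv nxt dd (nxt d) k i), g d i := by
    intro d
    have h2 : cutF inv nxt dd d =
        (onF inv dd d).filter fun i => ¬ ∃ k, Cut inv nxt dd (nxt d) k i := by
      ext i
      rw [mem_cutF, mem_filter, mem_onF]
      constructor
      · rintro ⟨j, hj⟩
        refine ⟨cut_on hS h hj, ?_⟩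
        rintro ⟨k, hk⟩
        exact lt_irrefl _ (h.sep d i j k i hj hk)
      · rintro ⟨h3, h4⟩
        rcases type hS h h3 with h5 | h5
        · exact h5
        · exact absurd h5 h4
    rw [h2, add_comm]
    exact (Finset.sum_filter_add_sum_filter_not _ _ _).symm
  have hpart : ∀ d, ∑ i ∈ (onF inv dd d).filter (fun i => ∃ k, Cut inv nxt dd (nxt d) k i),
      g d i = ∑ k ∈ cutF inv nxt dd (nxt d), (f (nxt d) k - g (nxt d) k) := by
    intro d
    symm
    refine Finset.sum_bij' (fun k _ => if hk : ∃ j, Cut inv nxt dd (nxt d) k j then hk.choose else k)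
      (fun i _ => if hi : ∃ k, Cut inv nxt dd (nxt d) k i then hi.choose else i) ?_ ?_ ?_ ?_ ?_
    · intro k hk
      rw [mem_cutF] at hk
      rw [dif_pos hk, mem_filter, mem_onF]
      have h2 := hk.choose_spec
      refine ⟨?_, k, h2⟩
      have h3 := cut_on' hS h h2
      rw [hS.nxt3] at h3
      exact h3
    · intro i hi
      rw [mem_filter] at hi
      rw [dif_pos hi.2, mem_cutF]
      exact ⟨i, hi.2.choose_spec⟩
    · intro k hk
      rw [mem_cutF] at hk
      have h2 := hk.choose_spec
      have h3 : ∃ k', Cut inv nxt dd (nxt d) k' hk.choose := ⟨k, h2⟩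
      simp only [dif_pos hk, dif_pos h3]
      exact cut_left hS h h3.choose_spec h2
    · intro i hi
      rw [mem_filter] at hi
      have h2 := hi.2.choose_spec
      have h3 : ∃ j, Cut inv nxt dd (nxt d) hi.2.choose j := ⟨i, h2⟩
      simp only [dif_pos hi.2, dif_pos h3]
      exact cut_right hS h h3.choose_spec h2
    · intro k hk
      rw [mem_cutF] at hk
      have h2 := hk.choose_spec
      rw [dif_pos hk]
      have h3 := hf _ _ _ h2
      rw [hS.nxt3] at h3
      rw [h3]
      ring
  have hperm : ∑ d, ∑ k ∈ cutF inv nxt dd (nxt d), (f (nxt d) k - g (nxt d) k) =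
      ∑ d, ∑ k ∈ cutF inv nxt dd d, (f d k - g d k) := by
    refine Function.Bijective.sum_comp (e := nxt) ?_
      (fun d => ∑ k ∈ cutF inv nxt dd d, (f d k - g d k))
    constructor
    · intro a c hac
      rw [← hS.nxt3 a, hac, hS.nxt3]
    · intro a
      exact ⟨nxt (nxt a), hS.nxt3 a⟩
  rw [Finset.sum_congr rfl fun d _ => hsplit d, Finset.sum_add_distrib,
    Finset.sum_congr rfl fun d _ => hpart d, hperm, ← Finset.sum_add_distrib]
  refine Finset.sum_congr rfl fun d _ => ?_
  rw [← Finset.sum_add_distrib]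
  exact Finset.sum_congr rfl fun i _ => by ring

/-- the positions of the chords at a corner -/
theorem sum_cut_pos (d : D) (w : ℕ → ℝ) :
    ∑ i ∈ cutF inv nxt dd d, w (pos inv dd x d i) =
      ∑ k ∈ range (cutF inv nxt dd d).card, w k := by
  classical
  have hinj : Set.InjOn (pos inv dd x d) (cutF inv nxt dd d : Set (ZMod N)) := by
    intro i hi j hj hij
    obtain ⟨i', hi'⟩ := mem_cutF.1 (Finset.mem_coe.1 hi)
    obtain ⟨j', hj'⟩ := mem_cutF.1 (Finset.mem_coe.1 hj)
    have hi' := cut_on hS h hi'
    have hj' := cut_on hS h hj'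
    have hmono : ∀ a b, On inv dd d a → On inv dd d b → pp dd x d a < pp dd x d b →
        pos inv dd x d a < pos inv dd x d b := by
      intro a b ha hb hab
      unfold pos
      apply Finset.card_lt_card
      rw [Finset.ssubset_iff_of_subset]
      · refine ⟨a, mem_filter.2 ⟨mem_onF.2 ha, hab⟩, ?_⟩
        rw [mem_filter]
        exact fun h1 => lt_irrefl _ h1.2
      · intro l hl
        rw [mem_filter] at hl ⊢
        exact ⟨hl.1, hl.2.trans hab⟩
    rcases lt_trichotomy (pp dd x d i) (pp dd x d j) with h2 | h2 | h2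
    · exact absurd hij (hmono i j hi' hj' h2).ne
    · exact h.inj d i j hi' hj' h2
    · exact absurd hij.symm (hmono j i hj' hi' h2).ne
  have himg : (cutF inv nxt dd d).image (pos inv dd x d) = range (cutF inv nxt dd d).card := by
    apply Finset.eq_of_subset_of_card_le
    · intro m hm
      rw [mem_image] at hm
      obtain ⟨i, hi, rfl⟩ := hm
      obtain ⟨i', hi'⟩ := mem_cutF.1 hi
      rw [mem_range]
      exact pos_lt_cut hS h hi'
    · rw [card_range, Finset.card_image_of_injOn hinj]
  rw [← himg, Finset.sum_image hinj]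

/-- the number of steps -/
theorem sum_nc : ∑ d, ((cutF inv nxt dd d).card : ℝ) = N := by
  have h1 := sum_on hS h hcol (fun _ _ => (1 : ℝ))
  have h2 := sum_chord hS h hcol (fun _ _ => (1 : ℝ)) (fun _ _ => (2 : ℝ))
    (fun _ _ _ _ => by norm_num)
  rw [h1] at h2
  simp only [Finset.sum_const, nsmul_eq_mul, Finset.card_univ, ZMod.card] at h2
  rw [← Finset.sum_mul] at h2
  linarith

/-- **Gauss-Bonnet** for a simple track: the sum of the angles on the side of colour `b` -/
theorem gauss_bonnet (hE : 6 * Fintype.card V = Fintype.card D + 12)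
    (ang : D → ℝ) (hang : ∀ d, ang d + ang (nxt d) + ang (nxt (nxt d)) = Real.pi)
    (τ : D → ZMod N → ℝ)
    (hτ : ∀ d i j, Cut inv nxt dd d i j → τ (nxt (nxt d)) j = τ d i + ang d) (b : ZMod 2) :
    ∑ i, beta inv tail dd x col b τ i = N * Real.pi - 2 * Real.pi +
      ∑ v ∈ univ.filter (fun v => col v = b),
        (2 * Real.pi - ∑ d ∈ univ.filter (fun d => tail d = v), ang d) := by
  classical
  rw [Finset.sum_congr rfl fun i _ => beta_eq hS h hcol b τ i,
    ← sum_on hS h hcol (gg inv tail dd x col b τ)]
  rw [sum_chord hS h hcol (gg inv tail dd x col b τ)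
    (fun d i => Real.pi + ang d *
      (if col (tail d) + (pos inv dd x d i : ZMod 2) = b then (-1 : ℝ) else 1)) ?_]
  swap
  · intro d i j hc
    have h1 := tailcol_cut hS h hcol hc b
    have h2 := hτ d i j hc
    unfold gg
    by_cases h3 : col (tail d) + (pos inv dd x d i : ZMod 2) = b
    · rw [if_pos h3, if_pos h3, if_neg (fun h4 => h1.1 h4 h3), h2]
      ring
    · rw [if_neg h3, if_neg h3, if_pos (h1.2 h3), h2]
      ring
  have h3 : ∀ d, ∑ i ∈ cutF inv nxt dd d, (Real.pi + ang d *
      (if col (tail d) + (pos inv dd x d i : ZMod 2) = b then (-1 : ℝ) else 1)) =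
      (cutF inv nxt dd d).card * Real.pi +
        ((if col (tail d) + ((cutF inv nxt dd d).card : ZMod 2) = b then ang d else 0) -
        (if col (tail d) = b then ang d else 0)) := by
    intro d
    rw [Finset.sum_add_distrib, Finset.sum_const, nsmul_eq_mul, ← Finset.mul_sum,
      sum_cut_pos hS h hcol d (fun k => if col (tail d) + (k : ZMod 2) = b then (-1 : ℝ) else 1),
      alt_sum]
    split_ifs <;> ring
  rw [Finset.sum_congr rfl fun d _ => h3 d, Finset.sum_add_distrib, ← Finset.sum_mul,
    sum_nc hS h hcol, Finset.sum_sub_distrib]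
  -- the faces
  have hy : ∀ d, col (tail (nxt d)) + ((cutF inv nxt dd (nxt d)).card : ZMod 2) =
      col (tail d) + ((cutF inv nxt dd d).card : ZMod 2) := by
    intro d
    have h4 := hcol d
    rw [card_on hS h] at h4
    push_cast at h4
    have : ∀ a b c d : ZMod 2, a + b = c + d → d + b = c + a := by decide
    exact this _ _ _ _ h4
  have hface : ∑ d, (if col (tail d) + ((cutF inv nxt dd d).card : ZMod 2) = b then ang d else 0) =
      Real.pi / 3 * (univ.filter fun d =>
        col (tail d) + ((cutF inv nxt dd d).card : ZMod 2) = b).card := by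
    have hp : ∀ f : D → ℝ, ∑ d, f (nxt d) = ∑ d, f d := by
      intro f
      refine Function.Bijective.sum_comp (e := nxt) ?_ f
      constructor
      · intro a c hac
        rw [← hS.nxt3 a, hac, hS.nxt3]
      · intro a
        exact ⟨nxt (nxt a), hS.nxt3 a⟩
    have h5 := hp (fun d => if col (tail d) + ((cutF inv nxt dd d).card : ZMod 2) = b
      then ang d else 0)
    have h6 := hp (fun d => if col (tail (nxt d)) + ((cutF inv nxt dd (nxt d)).card : ZMod 2) = b
      then ang (nxt d) else 0)
    simp only [hy] at h5 h6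
    have h7 : ∑ d, ((if col (tail d) + ((cutF inv nxt dd d).card : ZMod 2) = b then ang d else 0) +
        (if col (tail d) + ((cutF inv nxt dd d).card : ZMod 2) = b then ang (nxt d) else 0) +
        (if col (tail d) + ((cutF inv nxt dd d).card : ZMod 2) = b then ang (nxt (nxt d)) else 0))
        = Real.pi * (univ.filter fun d =>
          col (tail d) + ((cutF inv nxt dd d).card : ZMod 2) = b).card := by
      rw [Finset.card_filter, Nat.cast_sum, Finset.mul_sum]
      refine Finset.sum_congr rfl fun d _ => ?_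
      by_cases h8 : col (tail d) + ((cutF inv nxt dd d).card : ZMod 2) = b
      · simp only [if_pos h8]
        rw [hang]
        simp
      · simp only [if_neg h8]
        simp
    rw [Finset.sum_add_distrib, Finset.sum_add_distrib] at h7
    linarith
  have hvert : ∑ d, (if col (tail d) = b then ang d else 0) =
      ∑ v ∈ univ.filter (fun v => col v = b), ∑ d ∈ univ.filter (fun d => tail d = v), ang d := by
    rw [Finset.sum_filter, ← Finset.sum_fiberwise_of_maps_to (s := univ) (t := univ) (g := tail)
      (fun x _ => mem_univ _)]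
    refine Finset.sum_congr rfl fun v _ => ?_
    by_cases hv : col v = b
    · rw [if_pos hv]
      refine Finset.sum_congr rfl fun d hd => ?_
      rw [(mem_filter.1 hd).2, if_pos hv]
    · rw [if_neg hv]
      refine Finset.sum_eq_zero fun d hd => ?_
      rw [(mem_filter.1 hd).2, if_neg hv]
  have hmain := disc hS h hE hcol b
  have hmain' : (6 : ℝ) * (univ.filter fun v => col v = b).card =
      (univ.filter fun d => col (tail d) + ((cutF inv nxt dd d).card : ZMod 2) = b).card + 6 := by
    exact_mod_cast hmain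
  rw [hface, hvert, Finset.sum_sub_distrib, Finset.sum_const, nsmul_eq_mul]
  linear_combination (-Real.pi / 3) * hmain'

end Chords

end ang

end Pool.Agent.SQd
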