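import Pool.Agent.Lib_MP_6b5565_dg.Q.A4a
import Pool.Agent.Lib_MP_6b5565_dg.Q.A4b
import Pool.Agent.Lib_MP_6b5565_dg.Q.A4c
import Pool.Agent.Lib_MP_6b5565_dg.Q.A4d
import Pool.Agent.Lib_MP_6b5565_dg.Q.A4e
import Pool.Agent.Lib_MP_6b5565_dg.Q.A4f

/-! cohomology of the surface over `ZMod 2`, curvature sums -/

namespace QGd

namespace Poly

variable (P : Poly)

/-- colouring of a closed walk -/
theorem exists_col_walk {F : P.D} {l : List P.D} (w : P.DWalk F l F) : ∃ c, P.Col (P.par l) c :=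
  P.exists_col (P.par_inv l) (P.par_face w)

end Poly

end QGd
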