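import Pool.Agent.Lib_MP_6b5565_dg.Q.Walks
import Pool.Agent.Lib_MP_6b5565_dg.Q.D1d

/-! [QG-C2a] angles and parities of fans -/

namespace QGd

open EuclideanGeometry

namespace Poly

variable (P : Poly)

private theorem c2_tail_cw (a : P.D) (j : ℕ) : P.tail (P.cw^[j] a) = P.tail a := by
  induction j generalizing a with
  | zero => rfl
  | succ j ih => rw [Function.iterate_succ_apply, ih, P.tail_cw]

private theorem c2_tail_rot (a : P.D) (j : ℕ) : P.tail (P.rot^[j] a) = P.tail a := by
  induction j generalizing a with
  | zero => rfl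
  | succ j ih => rw [Function.iterate_succ_apply, ih, P.tail_rot]

private theorem c2_rot_cw (a : P.D) (j : ℕ) : P.rot^[j] (P.cw^[j] a) = a := by
  induction j generalizing a with
  | zero => rfl
  | succ j ih =>
    rw [Function.iterate_succ_apply (f := P.cw), Function.iterate_succ_apply' (f := P.rot), ih, P.rot_cw]

private theorem c2_cwD (a : P.D) (k : ℕ) : P.cwD a k = (List.range k).map (fun j => P.cw^[j] a) := by
  induction k generalizing a with
  | zero => rfl
  | succ k ih =>
    rw [List.range_succ_eq_map, List.map_cons, List.map_map]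
    show a :: P.cwD (P.cw a) k = _
    rw [ih]
    rfl

private theorem c2_ccwD (a : P.D) (k : ℕ) :
    P.ccwD a k = ((List.range k).map (fun j => P.rot^[j+1] a)).map P.inv := by
  induction k generalizing a with
  | zero => rfl
  | succ k ih =>
    rw [List.range_succ_eq_map, List.map_cons, List.map_cons, List.map_map, List.map_map]
    show P.prev a :: P.ccwD (P.rot a) k = _
    rw [ih, List.map_map]
    congr 1
    show P.prev a = P.inv (P.inv (P.prev a))
    rw [P.inv_inv]

private theorem c2_par (v : P.V) (l : List P.D) (hn : l.Nodup) (hm : ∀ x, x ∈ l ↔ P.tail x = v) (e : P.D) :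
    P.par l e = P.star v e := by
  have key : l.countP (fun x => decide (x = e ∨ x = P.inv e)) = l.count e + l.count (P.inv e) := by
    have hne : e ≠ P.inv e := fun h => P.inv_ne e h.symm
    clear hn hm
    induction l with
    | nil => rfl
    | cons x l ih =>
      rw [List.countP_cons, ih, List.count_cons, List.count_cons]
      by_cases h1 : x = e
      · subst h1
        simp only [true_or, decide_true, if_true, beq_self_eq_true]
        have : (x == P.inv x) = false := by simpa using hne
        rw [this]
        simp only [Bool.false_eq_true, if_false]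
        omega
      · by_cases h2 : x = P.inv e
        · subst h2
          simp only [or_true, decide_true, if_true, beq_self_eq_true]
          have : (P.inv e == e) = false := by simpa using h1
          rw [this]
          simp only [Bool.false_eq_true, if_false]
          omega
        · have g1 : (x == e) = false := by simpa using h1
          have g2 : (x == P.inv e) = false := by simpa using h2
          rw [g1, g2]
          simp [h1, h2]
  unfold par star
  rw [key, hn.count, hn.count]
  have hne := P.tail_ne_head e
  have h3 : (e ∈ l) ↔ P.tail e = v := hm e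
  have h4 : (P.inv e ∈ l) ↔ P.head e = v := hm _
  by_cases h1 : P.tail e = v
  · have h2 : P.head e ≠ v := fun h => hne (h1.trans h.symm)
    rw [if_pos (h3.2 h1), if_neg (fun h => h2 (h4.1 h)), if_pos (Or.inl h1)]
    norm_num
  · by_cases h2 : P.head e = v
    · rw [if_neg (fun h => h1 (h3.1 h)), if_pos (h4.2 h2), if_pos (Or.inr h2)]
      norm_num
    · rw [if_neg (fun h => h1 (h3.1 h)), if_neg (fun h => h2 (h4.1 h)), if_neg (by tauto)]
      norm_num

private theorem c2_fang_cons (v : P.V) (p q : E3) (d : P.D) (W : List P.D) :
    P.fang v p (d :: W) q = ∠ p (P.pos v) (P.far v d) + P.fang v (P.far v d) W q := rfl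

/-- explicit angle of a clockwise fan -/
theorem fang_cwD {v : P.V} {a : P.D} (ha : P.tail a = v) (k : ℕ) (hk : 1 ≤ k) (p q : E3) :
    P.fang v p (P.cwD a k) q = ∠ p (P.pos v) (P.B a) +
      ∑ j ∈ Finset.Ico 1 k, P.ang (P.cw^[j] a) + ∠ (P.B (P.cw^[k-1] a)) (P.pos v) q := by
  induction k, hk using Nat.le_induction generalizing a p with
  | base =>
    show P.fang v p [a] q = _
    rw [c2_fang_cons]
    have h1 : P.far v a = P.B a := by unfold far; rw [if_pos ha]
    rw [h1]
    simp [fang, angList]
  | succ k hk ih =>
    show P.fang v p (a :: P.cwD (P.cw a) k) q = _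
    rw [c2_fang_cons]
    have h1 : P.far v a = P.B a := by unfold far; rw [if_pos ha]
    rw [h1, ih (by rw [P.tail_cw, ha])]
    have h2 : ∠ (P.B a) (P.pos v) (P.B (P.cw a)) = P.ang (P.cw a) := by
      rw [← P.ang_eq, P.rot_cw, angle_comm]
      unfold A
      rw [P.tail_cw, ha]
    rw [h2, Finset.sum_eq_sum_Ico_succ_bot (by omega : 1 < k + 1)]
    rw [← Finset.sum_Ico_add' (fun j => P.ang (P.cw^[j] a)) 1 k 1]
    have h3 : P.cw^[k - 1] (P.cw a) = P.cw^[k + 1 - 1] a := by
      rw [← Function.iterate_succ_apply]
      congr 2
      omega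
    rw [h3]
    simp only [Function.iterate_succ_apply, Function.iterate_zero_apply]
    ring

/-- explicit angle of a counterclockwise fan -/
theorem fang_ccwD {v : P.V} {a : P.D} (ha : P.tail a = v) (k : ℕ) (hk : 1 ≤ k) (p q : E3) :
    P.fang v p (P.ccwD a k) q = ∠ p (P.pos v) (P.B (P.rot a)) +
      ∑ j ∈ Finset.Ico 1 k, P.ang (P.rot^[j] a) + ∠ (P.B (P.rot^[k] a)) (P.pos v) q := by
  have h0 : ∀ b : P.D, P.tail b = v → P.far v (P.prev b) = P.B (P.rot b) := by
    intro b hb
    unfold far
    rw [if_neg (fun h => P.tail_ne_prev b (hb.trans h.symm))]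
    unfold A B
    rw [P.head_rot]
  induction k, hk using Nat.le_induction generalizing a p with
  | base =>
    show P.fang v p [P.prev a] q = _
    rw [c2_fang_cons, h0 a ha]
    simp [fang, angList]
  | succ k hk ih =>
    show P.fang v p (P.prev a :: P.ccwD (P.rot a) k) q = _
    rw [c2_fang_cons, h0 a ha, ih (by rw [P.tail_rot, ha])]
    have h2 : ∠ (P.B (P.rot a)) (P.pos v) (P.B (P.rot (P.rot a))) = P.ang (P.rot a) := by
      rw [← P.ang_eq]
      unfold A
      rw [P.tail_rot, ha]
    rw [h2, Finset.sum_eq_sum_Ico_succ_bot (by omega : 1 < k + 1)]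
    rw [← Finset.sum_Ico_add' (fun j => P.ang (P.rot^[j] a)) 1 k 1]
    simp only [Function.iterate_succ_apply, Function.iterate_zero_apply]
    ring

theorem fang_nil (v : P.V) (p q : E3) : P.fang v p [] q = ∠ p (P.pos v) q := by
  simp [fang, angList]

/-- every edge at `v` is crossed once by a full fan, and a fan with `k ≤ deg v` crosses no edge
twice -/
theorem par_cwD_full (a : P.D) (e : P.D) : P.par (P.cwD a (P.deg (P.tail a))) e = P.star (P.tail a) e := by
  rw [c2_cwD]
  have h0 := P.three_le_deg (P.tail a)
  apply c2_par
  · apply List.Nodup.map_on _ List.nodup_range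
    have aux : ∀ i j, i < j → j < P.deg (P.tail a) → P.cw^[i] a ≠ P.cw^[j] a := by
      intro i j hij hj h
      have h1 : P.rot^[j] (P.cw^[j] a) = a := c2_rot_cw P a j
      rw [← h] at h1
      have h2 : j = (j - i) + i := by omega
      rw [h2, Function.iterate_add_apply, c2_rot_cw] at h1
      have h3 := P.iterate_rot_inj a (i := j - i) (j := 0) (by omega) (by omega) h1
      omega
    intro i hi j hj h
    rw [List.mem_range] at hi hj
    rcases lt_trichotomy i j with h1 | h1 | h1
    · exact absurd h (aux i j h1 hj)
    · exact h1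
    · exact absurd h.symm (aux j i h1 hi)
  · intro x
    rw [List.mem_map]
    constructor
    · rintro ⟨j, -, rfl⟩
      exact c2_tail_cw P a j
    · intro hx
      obtain ⟨k, hk, rfl⟩ := P.exists_iterate_rot a x hx.symm
      rcases Nat.eq_zero_or_pos k with h1 | h1
      · subst h1
        exact ⟨0, List.mem_range.2 (by omega), rfl⟩
      · exact ⟨P.deg (P.tail a) - k, List.mem_range.2 (by omega), P.iterate_cw_rot a (by omega)⟩

theorem par_ccwD_full (a : P.D) (e : P.D) :
    P.par (P.ccwD a (P.deg (P.tail a))) e = P.star (P.tail a) e := by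
  rw [c2_ccwD, P.par_map_inv]
  have h0 := P.three_le_deg (P.tail a)
  have hinj : Function.Injective P.rot := fun x y h => by
    have := congrArg P.cw h
    rwa [P.cw_rot, P.cw_rot] at this
  apply c2_par
  · apply List.Nodup.map_on _ List.nodup_range
    intro i hi j hj h
    rw [List.mem_range] at hi hj
    rw [Function.iterate_succ_apply', Function.iterate_succ_apply'] at h
    exact P.iterate_rot_inj a hi hj (hinj h)
  · intro x
    rw [List.mem_map]
    constructor
    · rintro ⟨j, -, rfl⟩
      exact c2_tail_rot P a _
    · intro hx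
      obtain ⟨k, hk, rfl⟩ := P.exists_iterate_rot a x hx.symm
      rcases Nat.eq_zero_or_pos k with h1 | h1
      · subst h1
        refine ⟨P.deg (P.tail a) - 1, List.mem_range.2 (by omega), ?_⟩
        have : P.deg (P.tail a) - 1 + 1 = P.deg (P.tail a) := by omega
        rw [this]
        exact P.iterate_rot_deg a
      · refine ⟨k - 1, List.mem_range.2 (by omega), ?_⟩
        have : k - 1 + 1 = k := by omega
        rw [this]

end Poly

end QGd
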