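import Pool.Agent.Lib_MP_6b5565_dg.Q.Defs

/-! [QG-F0a] -/

namespace QGd

open EuclideanGeometry

noncomputable section

/-- [QG-F0a] the cycle of all pairs `(j, t)`, `j ∈ ℤ/m`, `t < k j`: go on inside node `j`, then to
node `j + 1` -/
theorem exists_sigma_cycle (m : ℕ) [NeZero m] (k : ZMod m → ℕ) (hk : ∀ j, 1 ≤ k j) :
    ∃ nx : Equiv.Perm (Σ j : ZMod m, Fin (k j)),
      (∀ (j : ZMod m) (t : ℕ) (h : t + 1 < k j),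
        nx ⟨j, ⟨t, by omega⟩⟩ = ⟨j, ⟨t + 1, h⟩⟩) ∧
      (∀ (j : ZMod m) (t : ℕ) (h : t + 1 = k j),
        nx ⟨j, ⟨t, by omega⟩⟩ = ⟨j + 1, ⟨0, hk (j + 1)⟩⟩) ∧
      ∀ a b, ∃ n : ℕ, (⇑nx)^[n] a = b := by
  classical
  let f : (Σ j : ZMod m, Fin (k j)) → (Σ j : ZMod m, Fin (k j)) := fun a =>
    if h : a.2.1 + 1 < k a.1 then ⟨a.1, ⟨a.2.1 + 1, h⟩⟩ else ⟨a.1 + 1, ⟨0, hk (a.1 + 1)⟩⟩
  have f1 : ∀ (j : ZMod m) (t : ℕ) (h : t + 1 < k j), f ⟨j, ⟨t, by omega⟩⟩ = ⟨j, ⟨t + 1, h⟩⟩ := by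
    intro j t h
    show (if h : t + 1 < k j then (⟨j, ⟨t + 1, h⟩⟩ : Σ j : ZMod m, Fin (k j)) else ⟨j + 1, ⟨0, hk (j + 1)⟩⟩) = _
    rw [dif_pos h]
  have f2 : ∀ (j : ZMod m) (t : ℕ) (h : t + 1 = k j), f ⟨j, ⟨t, by omega⟩⟩ = ⟨j + 1, ⟨0, hk (j + 1)⟩⟩ := by
    intro j t h
    show (if h : t + 1 < k j then (⟨j, ⟨t + 1, h⟩⟩ : Σ j : ZMod m, Fin (k j)) else ⟨j + 1, ⟨0, hk (j + 1)⟩⟩) = _
    rw [dif_neg (by omega)]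
  have hsurj : Function.Surjective f := by
    rintro ⟨j, ⟨t, ht⟩⟩
    rcases Nat.eq_zero_or_pos t with h | h
    · subst h
      have h1 := hk (j - 1)
      refine ⟨⟨j - 1, ⟨k (j - 1) - 1, by omega⟩⟩, ?_⟩
      rw [f2 (j - 1) (k (j - 1) - 1) (by omega)]
      have key : ∀ j' : ZMod m, j' = j → (⟨j', ⟨0, hk j'⟩⟩ : Σ j : ZMod m, Fin (k j)) = ⟨j, ⟨0, ht⟩⟩ := by
        rintro j' rfl
        rfl
      exact key _ (by ring)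
    · refine ⟨⟨j, ⟨t - 1, by omega⟩⟩, ?_⟩
      rw [f1 j (t - 1) (by omega)]
      have key : ∀ (t' : ℕ) (ht' : t' < k j), t' = t →
          (⟨j, ⟨t', ht'⟩⟩ : Σ j : ZMod m, Fin (k j)) = ⟨j, ⟨t, ht⟩⟩ := by
        rintro t' ht' rfl
        rfl
      exact key _ _ (by omega)
  have hinj : Function.Injective f := Finite.injective_iff_surjective.2 hsurj
  refine ⟨Equiv.ofBijective f ⟨hinj, hsurj⟩, f1, f2, ?_⟩
  show ∀ a b, ∃ n : ℕ, f^[n] a = b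
  have tr : ∀ a b c, (∃ n : ℕ, f^[n] a = b) → (∃ n : ℕ, f^[n] b = c) → ∃ n : ℕ, f^[n] a = c := by
    rintro a b c ⟨n, rfl⟩ ⟨n', rfl⟩
    exact ⟨n' + n, Function.iterate_add_apply _ _ _ _⟩
  have in1 : ∀ (s : ℕ) (j : ZMod m) (t : ℕ) (h : t + s < k j),
      ∃ n : ℕ, f^[n] ⟨j, ⟨t, by omega⟩⟩ = ⟨j, ⟨t + s, h⟩⟩ := by
    intro s
    induction s with
    | zero => intro j t h; exact ⟨0, rfl⟩
    | succ s ih =>
      intro j t h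
      obtain ⟨n, hn⟩ := ih j t (by omega)
      refine ⟨n + 1, ?_⟩
      rw [Function.iterate_succ_apply', hn, f1 j (t + s) (by omega)]
      rfl
  have st1 : ∀ (j : ZMod m) (t : ℕ) (h : t < k j),
      ∃ n : ℕ, f^[n] ⟨j, ⟨t, h⟩⟩ = ⟨j + 1, ⟨0, hk (j + 1)⟩⟩ := by
    intro j t h
    obtain ⟨n, hn⟩ := in1 (k j - 1 - t) j t (by omega)
    refine ⟨n + 1, ?_⟩
    rw [Function.iterate_succ_apply', hn, f2 j (t + (k j - 1 - t)) (by omega)]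
  have st2 : ∀ (s : ℕ) (j : ZMod m) (t : ℕ) (h : t < k j),
      ∃ n : ℕ, f^[n] ⟨j, ⟨t, h⟩⟩ = ⟨j + 1 + (s : ZMod m), ⟨0, hk _⟩⟩ := by
    intro s
    induction s with
    | zero =>
      intro j t h
      obtain ⟨n, hn⟩ := st1 j t h
      refine ⟨n, ?_⟩
      rw [hn]
      have key : ∀ j' : ZMod m, j' = j + 1 →
          (⟨j', ⟨0, hk j'⟩⟩ : Σ j : ZMod m, Fin (k j)) = ⟨j + 1, ⟨0, hk (j + 1)⟩⟩ := by
        rintro j' rfl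
        rfl
      exact (key _ (by push_cast; ring)).symm
    | succ s ih =>
      intro j t h
      apply tr _ _ _ (ih j t h)
      obtain ⟨n, hn⟩ := st1 (j + 1 + (s : ZMod m)) 0 (hk _)
      refine ⟨n, ?_⟩
      rw [hn]
      have key : ∀ j' : ZMod m, j' = j + 1 + (s : ZMod m) + 1 →
          (⟨j', ⟨0, hk j'⟩⟩ : Σ j : ZMod m, Fin (k j)) =
            ⟨j + 1 + (s : ZMod m) + 1, ⟨0, hk (j + 1 + (s : ZMod m) + 1)⟩⟩ := by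
        rintro j' rfl
        rfl
      exact (key _ (by push_cast; ring)).symm
  rintro ⟨j, ⟨t, ht⟩⟩ ⟨j', ⟨t', ht'⟩⟩
  obtain ⟨n, hn⟩ := in1 t' j' 0 (by omega)
  obtain ⟨n', hn'⟩ := st2 (j' - (j + 1)).val j t ht
  have key : ∀ j₁ : ZMod m, j₁ = j' →
      (⟨j₁, ⟨0, hk j₁⟩⟩ : Σ j : ZMod m, Fin (k j)) = ⟨j', ⟨0, hk j'⟩⟩ := by
    rintro j₁ rfl
    rfl
  rw [key _ (by rw [ZMod.natCast_zmod_val]; ring)] at hn'
  have key2 : ∀ (t₁ : ℕ) (h₁ : t₁ < k j'), t₁ = t' →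
      (⟨j', ⟨t₁, h₁⟩⟩ : Σ j : ZMod m, Fin (k j)) = ⟨j', ⟨t', ht'⟩⟩ := by
    rintro t₁ h₁ rfl
    rfl
  rw [key2 (0 + t') (by omega) (by omega)] at hn
  exact tr _ _ _ ⟨n', hn'⟩ ⟨n, hn⟩

end

end QGd
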