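import Pool.Agent.Lib_MP_6b5565_dg.Q.CyDefs

/-! [QG-F0b] -/

namespace QGd

open EuclideanGeometry

noncomputable section

private theorem f0b_olen_range (f : ℕ → E3) (n : ℕ) :
    olen ((List.range (n + 1)).map f) = ∑ t ∈ Finset.range n, dist (f t) (f (t + 1)) := by
  induction n with
  | zero => simp [olen]
  | succ n ih =>
    rw [Finset.sum_range_succ, ← ih, List.range_succ, List.range_succ (n := n), List.map_append,
      List.map_append]
    simp only [List.map_cons, List.map_nil, List.append_assoc, List.cons_append, List.nil_append]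
    rw [olen_append]
    show _ = _ + _
    rw [olen_cons_cons]
    show _ + (_ + 0) = _
    ring

private theorem f0b_clen_range (f : ℕ → E3) (n : ℕ) (h : f (n + 1) = f 0) :
    clen ((List.range (n + 1)).map f) = ∑ t ∈ Finset.range (n + 1), dist (f t) (f (t + 1)) := by
  rw [← f0b_olen_range f (n + 1)]
  have h1 : (List.range (n + 1)).map f = f 0 :: (List.range n).map (fun t => f (t + 1)) := by
    rw [List.range_succ_eq_map, List.map_cons, List.map_map]
    rfl
  have h2 : (List.range (n + 1 + 1)).map f = (List.range (n + 1)).map f ++ [f 0] := by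
    rw [List.range_succ, List.map_append, List.map_singleton, h]
  rw [h2, h1]
  rfl

namespace Cy

variable {P : Poly} {ι : Type} [Fintype ι] [DecidableEq ι]

private theorem walk_congr_left {F F' G : P.D} {l : List (Step P)} (h : P.SF F F')
    (w : P.Walk F l G) : P.Walk F' l G := by
  cases l with
  | nil => exact P.SF_trans (P.SF_symm h) w
  | cons s l => exact ⟨P.SF_trans (P.SF_symm h) w.1, w.2⟩

omit [Fintype ι] [DecidableEq ι] in
private theorem walk_iterate (c : Cy P ι) (hx : ∀ i, c.x i ∈ P.seg (c.d i)) (n : ℕ) :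
    ∀ b : ι, P.Walk (c.d b) ((List.range n).map (fun t => (⟨c.d ((⇑c.nx)^[t] b), c.x ((⇑c.nx)^[t] b)⟩ : Step P)))
      (c.d ((⇑c.nx)^[n] b)) := by
  induction n with
  | zero => exact fun b => P.SF_refl _
  | succ n ih =>
    intro b
    rw [List.range_succ_eq_map, List.map_cons, List.map_map]
    refine ⟨P.SF_refl _, hx b, ?_⟩
    exact walk_congr_left (P.SF_symm (c.link b)) (ih (c.nx b))

/-- [QG-F0b] from the abstract cycle to a list: `l = (List.range (card ι)).map (fun t => step (nx^t a))` -/
theorem exists_list (c : Cy P ι) [Nonempty ι] (hx : ∀ i, c.x i ∈ P.seg (c.d i)) :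
    ∃ l : List (Step P), l ≠ [] ∧ (∃ F, P.Walk F l F) ∧ P.len l = c.len ∧
      P.par (l.map Step.d) = c.par ∧ ∀ v, v ∈ P.vis (l.map Step.x) ↔ ∃ i, c.x i = P.pos v := by
  obtain ⟨a⟩ := ‹Nonempty ι›
  set p := Function.minimalPeriod (⇑c.nx) a with hp
  have hper : a ∈ Function.periodicPts (⇑c.nx) :=
    Function.Injective.mem_periodicPts c.nx.injective a
  have hp0 : 0 < p := Function.minimalPeriod_pos_of_mem_periodicPts hper
  have hpa : (⇑c.nx)^[p] a = a := Function.isPeriodicPt_minimalPeriod (⇑c.nx) a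
  set L : List ι := (List.range p).map (fun t => (⇑c.nx)^[t] a) with hL
  have hnd : L.Nodup := by
    rw [hL]
    refine List.Nodup.map_on ?_ List.nodup_range
    intro x hx y hy hxy
    exact Function.iterate_injOn_Iio_minimalPeriod (List.mem_range.1 hx) (List.mem_range.1 hy) hxy
  have hmem : ∀ i, i ∈ L := by
    intro i
    obtain ⟨n, hn⟩ := c.trans a i
    rw [hL, List.mem_map]
    refine ⟨n % p, List.mem_range.2 (Nat.mod_lt _ hp0), ?_⟩
    rw [Function.iterate_mod_minimalPeriod_eq, hn]
  have huniv : (Finset.univ : Finset ι).val = (L : Multiset ι) := by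
    refine (Multiset.Nodup.ext Finset.univ.nodup (Multiset.coe_nodup.2 hnd)).2 ?_
    intro i
    simp [hmem i]
  refine ⟨(List.range p).map (fun t => (⟨c.d ((⇑c.nx)^[t] a), c.x ((⇑c.nx)^[t] a)⟩ : Step P)),
    ?_, ⟨c.d a, ?_⟩, ?_, ?_, ?_⟩
  · intro h
    rw [List.map_eq_nil_iff, List.range_eq_nil] at h
    omega
  · have h := walk_iterate c hx p a
    rw [hpa] at h
    exact h
  · unfold Poly.len len
    rw [List.map_map]
    obtain ⟨q, hq⟩ : ∃ q, p = q + 1 := ⟨p - 1, by omega⟩
    have h1 := f0b_clen_range (fun t => c.x ((⇑c.nx)^[t] a)) q (by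
      show c.x ((⇑c.nx)^[q + 1] a) = c.x ((⇑c.nx)^[0] a)
      rw [← hq, hpa]
      rfl)
    rw [← hq] at h1
    refine Eq.trans h1 ?_
    have h2 : ∑ i, dist (c.x i) (c.x (c.nx i)) =
        (Multiset.map (fun i => dist (c.x i) (c.x (c.nx i))) (Finset.univ : Finset ι).val).sum := rfl
    have h3 : ∀ g : ℕ → ℝ, (List.map g (List.range p)).sum = ∑ t ∈ Finset.range p, g t :=
      fun g => (Multiset.sum_coe _).symm
    rw [h2, huniv, hL, Multiset.map_coe, Multiset.sum_coe, List.map_map, h3]
    refine Finset.sum_congr rfl fun t _ => ?_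
    show dist (c.x _) (c.x ((⇑c.nx)^[t + 1] a)) = _
    rw [Function.iterate_succ_apply']
    rfl
  · funext e
    unfold Poly.par par
    congr 1
    rw [Finset.card_def, Finset.filter_val, huniv, hL, Multiset.filter_coe, Multiset.coe_card,
      List.map_map, ← List.countP_eq_length_filter, List.countP_map, List.countP_map]
    rfl
  · intro v
    rw [Poly.mem_vis, List.map_map, List.mem_map]
    constructor
    · rintro ⟨t, -, ht⟩
      exact ⟨_, ht⟩
    · rintro ⟨i, hi⟩
      obtain ⟨t, ht, rfl⟩ := List.mem_map.1 (hmem i)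
      exact ⟨t, ht, hi⟩

end Cy

end

end QGd
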