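import Pool.Agent.Lib_MP_6b5565_dg.Q.CycDefs

/-! 
# Closed tracks indexed by an abstract finite cycle, and routes

`Cy P ι` : closed track with index set `ι` and successor `nx` (one cycle).
`Route C` : for a cyclic curve `C` a choice, at every node `j`, of a nonempty list `W j` of crossed
half-edges (at vertices: a clockwise or counterclockwise fan with all crossed half-edges strictly
between the directions of the two neighbours) and of faces `G j` for the segments.
 -/

namespace QGd

open EuclideanGeometry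

noncomputable section

structure Cy (P : Poly) (ι : Type) where
  nx : Equiv.Perm ι
  trans : ∀ a b : ι, ∃ n : ℕ, (⇑nx)^[n] a = b
  d : ι → P.D
  x : ι → E3
  link : ∀ i, P.SF (P.inv (d i)) (d (nx i))

namespace Cy

variable {P : Poly} {ι : Type} [Fintype ι] [DecidableEq ι]

/-- parity of a track over `ι` -/
def par (c : Cy P ι) (e : P.D) : ZMod 2 :=
  (((Finset.univ.filter (fun i => c.d i = e ∨ c.d i = P.inv e)).card : ℕ) : ZMod 2)

/-- length -/
def len (c : Cy P ι) : ℝ := ∑ i, dist (c.x i) (c.x (c.nx i))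

end Cy

/-- clockwise fan strictly between the directions of `p` and `q` (the vertex is on the right of the
curve): from the face of `a` (which contains `p`) to the face of `cw^k a` (which contains `q`) -/
def CwFan (P : Poly) (v : P.V) (p q : E3) (G G' : P.D) (W : List P.D) : Prop :=
  ∃ (a : P.D) (k : ℕ), P.tail a = v ∧ 1 ≤ k ∧ k ≤ P.deg v ∧ W = P.cwD a k ∧
    P.SF G a ∧ P.SF G' (P.cw^[k] a) ∧ p ∈ P.tri a ∧ q ∈ P.tri (P.cw^[k] a) ∧
    p ∉ P.seg a ∧ q ∉ P.seg (P.cw^[k-1] a) ∧
    (k = P.deg v → ∠ p (P.pos v) (P.B a) ≤ ∠ q (P.pos v) (P.B a))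

/-- counterclockwise fan strictly between the directions of `p` and `q` -/
def CcwFan (P : Poly) (v : P.V) (p q : E3) (G G' : P.D) (W : List P.D) : Prop :=
  ∃ (a : P.D) (k : ℕ), P.tail a = v ∧ 1 ≤ k ∧ k ≤ P.deg v ∧ W = P.ccwD a k ∧
    P.SF G a ∧ P.SF G' (P.rot^[k] a) ∧ p ∈ P.tri a ∧ q ∈ P.tri (P.rot^[k] a) ∧
    p ∉ P.seg (P.rot a) ∧ q ∉ P.seg (P.rot^[k] a) ∧
    (k = P.deg v → ∠ q (P.pos v) (P.B a) ≤ ∠ p (P.pos v) (P.B a))

structure Route {P : Poly} {m : ℕ} (C : Cyc P m) where
  W : ZMod m → List P.D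
  G : ZMod m → P.D
  /-- `true` : clockwise fan at this node (only relevant at vertex nodes) -/
  sense : ZMod m → Bool
  /-- the vertex at this node (only relevant at vertex nodes) -/
  vtx : ZMod m → P.V
  hvtx : ∀ j, ¬ P.NV (C.y j) → C.y j = P.pos (vtx j)
  W_ne : ∀ j, W j ≠ []
  walk : ∀ j, P.DWalk (G (j - 1)) (W j) (G j)
  inG : ∀ j, C.y j ∈ P.tri (G j) ∧ C.y (j + 1) ∈ P.tri (G j)
  nv : ∀ j, P.NV (C.y j) → W j = C.R j
  cw : ∀ j, ¬ P.NV (C.y j) → sense j = true →
    CwFan P (vtx j) (C.y (j - 1)) (C.y (j + 1)) (G (j - 1)) (G j) (W j)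
  ccw : ∀ j, ¬ P.NV (C.y j) → sense j = false →
    CcwFan P (vtx j) (C.y (j - 1)) (C.y (j + 1)) (G (j - 1)) (G j) (W j)

namespace Route

variable {P : Poly} {m : ℕ} [NeZero m] {C : Cyc P m} (ρ : Route C)

/-- angle of the fan at node `j` -/
def ang (j : ZMod m) : ℝ := P.fang (ρ.vtx j) (C.y (j - 1)) (ρ.W j) (C.y (j + 1))

/-- parity of the routed track -/
def par (e : P.D) : ZMod 2 := ∑ j, P.par (ρ.W j) e

/-- turning to the left at node `j`, as seen from the left side -/
def turn (j : ZMod m) : ℝ :=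
  open Classical in
  if P.NV (C.y j) then 0 else if ρ.sense j = true then Real.pi - ρ.ang j else ρ.ang j - Real.pi

/-- index set of the routed track -/
abbrev Idx : Type := Σ j : ZMod m, Fin (ρ.W j).length

/-- the half-edge at an index -/
def dd (i : ρ.Idx) : P.D := (ρ.W i.1).get i.2

/-- the point at an index, pushed off the vertex by the fraction `ε` of the edge -/
def xx (ε : ℝ) (i : ρ.Idx) : E3 :=
  open Classical in
  if P.NV (C.y i.1) then C.y i.1
  else C.y i.1 + ε • (P.far (ρ.vtx i.1) (ρ.dd i) - C.y i.1)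

end Route

end

end QGd
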