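import Pool.Agent.Lib_MP_6b5565_dg.Q.CycDefs
import Pool.Agent.Lib_MP_6b5565_dg.Q.Tri

/-! [QG-D2f] -/

namespace QGd

open EuclideanGeometry

namespace Cyc

variable {P : Poly} {m : ℕ} [NeZero m] {C : Cyc P m}

private theorem walk_first {F G : P.D} {l : List P.D} (hl : l ≠ []) (w : P.DWalk F l G) :
    ∃ e ∈ l, P.SF F e := by
  cases l with
  | nil => exact absurd rfl hl
  | cons a l => exact ⟨a, List.mem_cons_self, w.1⟩

private theorem walk_last {G : P.D} (l : List P.D) : ∀ F : P.D, l ≠ [] → P.DWalk F l G →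
    ∃ e ∈ l, P.SF G (P.inv e) := by
  induction l with
  | nil => intro F hl; exact absurd rfl hl
  | cons a l ih =>
    intro F _ w
    rcases eq_or_ne l [] with h | h
    · subst h
      exact ⟨a, List.mem_cons_self, P.SF_symm w.2⟩
    · obtain ⟨e, he, h'⟩ := ih (P.inv a) h w.2
      exact ⟨e, List.mem_cons_of_mem _ he, h'⟩

/-- the end points of segment `j` are on edges of its face, and in the face -/
theorem mem_face (C : Cyc P m) (j : ZMod m) : C.y j ∈ P.tri (C.F j) ∧ C.y (j + 1) ∈ P.tri (C.F j) ∧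
    (∃ e, P.SF (C.F j) e ∧ C.y j ∈ P.seg e) ∧ (∃ e, P.SF (C.F j) e ∧ C.y (j + 1) ∈ P.seg e) := by
  have h1 : ∃ e, P.SF (C.F j) e ∧ C.y j ∈ P.seg e := by
    obtain ⟨e, he, h⟩ := walk_last (C.R j) _ (C.R_ne j) (C.walk j)
    exact ⟨P.inv e, h, by rw [P.seg_inv]; exact C.on j e he⟩
  have h2 : ∃ e, P.SF (C.F j) e ∧ C.y (j + 1) ∈ P.seg e := by
    obtain ⟨e, he, h⟩ := walk_first (C.R_ne (j + 1)) (C.walk (j + 1))
    rw [add_sub_cancel_right] at h
    exact ⟨e, h, C.on (j + 1) e he⟩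
  refine ⟨?_, ?_, h1, h2⟩
  · obtain ⟨e, he, h⟩ := h1
    exact P.seg_sub_tri' he h
  · obtain ⟨e, he, h⟩ := h2
    exact P.seg_sub_tri' he h

/-- at a non-vertex node with half-edge `d` the incoming face is the face of `d`, the outgoing face
the face of `inv d` -/
theorem face_single (C : Cyc P m) {j : ZMod m} {d : P.D} (hd : C.R j = [d]) :
    P.SF (C.F (j - 1)) d ∧ P.SF (C.F j) (P.inv d) := by
  have h := C.walk j
  rw [hd] at h
  exact ⟨h.1, P.SF_symm h.2⟩

end Cyc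

end QGd
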