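import Pool.Agent.Lib_MP_6b5565_dg.Q.Cy
import Pool.Agent.Lib_MP_6b5565_dg.Q.D2f

/-! [QG-F1a] routes: the cycle of a route -/

namespace QGd

open EuclideanGeometry

namespace Route

variable {P : Poly} {m : ℕ} [NeZero m] {C : Cyc P m} (ρ : Route C)

private theorem F1a_step {l : List P.D} : ∀ {F G : P.D}, P.DWalk F l G →
    ∀ (t : ℕ) (h : t + 1 < l.length), P.SF (P.inv l[t]) l[t + 1] := by
  induction l with
  | nil => intro F G _ t h; simp at h
  | cons a l ih =>
    intro F G w t h
    cases t with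
    | zero =>
      cases l with
      | nil => simp at h
      | cons b l => exact w.2.1
    | succ t =>
      have h' : t + 1 < l.length := by simpa using h
      exact ih w.2 t h'

private theorem F1a_first {l : List P.D} {F G : P.D} (w : P.DWalk F l G) (h : 0 < l.length) :
    P.SF F l[0] := by
  cases l with
  | nil => simp at h
  | cons a l => exact w.1

private theorem F1a_last {l : List P.D} : ∀ {F G : P.D}, P.DWalk F l G →
    ∀ (t : ℕ) (h : t + 1 = l.length), P.SF (P.inv (l[t]'(by omega))) G := by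
  induction l with
  | nil => intro F G _ t h; simp at h
  | cons a l ih =>
    intro F G w t h
    cases t with
    | zero =>
      cases l with
      | nil => exact w.2
      | cons b l => simp at h
    | succ t =>
      have h' : t + 1 = l.length := by simpa using h
      exact ih w.2 t h'

private theorem F1a_cw {v : P.V} (k : ℕ) : ∀ (a : P.D), P.tail a = v →
    ∀ e ∈ P.cwD a k, P.tail e = v := by
  induction k with
  | zero => intro a _ e he; simp [Poly.cwD] at he
  | succ k ih =>
    intro a ha e he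
    rcases List.mem_cons.1 he with h | h
    · rw [h, ha]
    · exact ih (P.cw a) (by rw [P.tail_cw, ha]) e h

private theorem F1a_ccw {v : P.V} (k : ℕ) : ∀ (a : P.D), P.tail a = v →
    ∀ e ∈ P.ccwD a k, P.head e = v := by
  induction k with
  | zero => intro a _ e he; simp [Poly.ccwD] at he
  | succ k ih =>
    intro a ha e he
    rcases List.mem_cons.1 he with h | h
    · rw [h, P.head_prev, ha]
    · exact ih (P.rot a) (by rw [P.tail_rot, ha]) e h

/-- the cycle of the route (points pushed off by `ε`) -/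
theorem exists_cy : ∃ nx : Equiv.Perm ρ.Idx,
    (∀ (j : ZMod m) (t : ℕ) (h : t + 1 < (ρ.W j).length),
        nx ⟨j, ⟨t, by omega⟩⟩ = ⟨j, ⟨t + 1, h⟩⟩) ∧
    (∀ (j : ZMod m) (t : ℕ) (h : t + 1 = (ρ.W j).length),
        nx ⟨j, ⟨t, by omega⟩⟩ = ⟨j + 1, ⟨0, List.length_pos_iff.2 (ρ.W_ne (j + 1))⟩⟩) ∧
    (∀ a b, ∃ n : ℕ, (⇑nx)^[n] a = b) ∧
    ∀ i, P.SF (P.inv (ρ.dd i)) (ρ.dd (nx i)) := by
  obtain ⟨nx, h1, h2, h3⟩ := exists_sigma_cycle m (fun j => (ρ.W j).length)
    (fun j => List.length_pos_iff.2 (ρ.W_ne j))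
  refine ⟨nx, h1, h2, h3, ?_⟩
  rintro ⟨j, ⟨t, ht⟩⟩
  rcases Nat.lt_or_ge (t + 1) (ρ.W j).length with h | h
  · have e := h1 j t h
    have e' : nx ⟨j, ⟨t, ht⟩⟩ = ⟨j, ⟨t + 1, h⟩⟩ := e
    rw [e']
    exact F1a_step (ρ.walk j) t h
  · have h' : t + 1 = (ρ.W j).length := by omega
    have e' : nx ⟨j, ⟨t, ht⟩⟩ = ⟨j + 1, ⟨0, List.length_pos_iff.2 (ρ.W_ne (j + 1))⟩⟩ := h2 j t h'
    rw [e']
    have w1 : P.SF (P.inv ((ρ.W j)[t]'ht)) (ρ.G j) := F1a_last (ρ.walk j) t h'
    have w2 := F1a_first (ρ.walk (j + 1)) (List.length_pos_iff.2 (ρ.W_ne (j + 1)))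
    rw [add_sub_cancel_right] at w2
    exact P.SF_trans w1 w2

theorem tail_of_cw {i : ρ.Idx} (hv : ¬ P.NV (C.y i.1)) (hs : ρ.sense i.1 = true) :
    P.tail (ρ.dd i) = ρ.vtx i.1 := by
  obtain ⟨a, k, ha, -, -, hW, -⟩ := ρ.cw i.1 hv hs
  refine F1a_cw k a ha _ ?_
  rw [← hW]
  exact List.get_mem _ _

theorem head_of_ccw {i : ρ.Idx} (hv : ¬ P.NV (C.y i.1)) (hs : ρ.sense i.1 = false) :
    P.head (ρ.dd i) = ρ.vtx i.1 := by
  obtain ⟨a, k, ha, -, -, hW, -⟩ := ρ.ccw i.1 hv hs
  refine F1a_ccw k a ha _ ?_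
  rw [← hW]
  exact List.get_mem _ _

/-- the point of node `j` is on all half-edges crossed there; at a clockwise vertex node it is their
tail, at a counterclockwise one their head -/
theorem point_mem (i : ρ.Idx) : C.y i.1 ∈ P.seg (ρ.dd i) := by
  by_cases hv : P.NV (C.y i.1)
  · refine C.on i.1 _ ?_
    rw [← ρ.nv i.1 hv]
    exact List.get_mem _ _
  · rcases hs : ρ.sense i.1 with _ | _
    · have h := ρ.head_of_ccw hv hs
      rw [ρ.hvtx i.1 hv, ← h]
      exact right_mem_segment ℝ _ _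
    · have h := ρ.tail_of_cw hv hs
      rw [ρ.hvtx i.1 hv, ← h]
      exact left_mem_segment ℝ _ _

private theorem F1a_count (l : List P.D) (p : P.D → Prop) [DecidablePred p] :
    l.countP (fun a => p a) = (Finset.univ.filter (fun i : Fin l.length => p (l.get i))).card := by
  rw [Finset.card_filter]
  induction l with
  | nil => simp
  | cons a l ih =>
    rw [List.countP_cons, ih]
    have h := Fin.sum_univ_succ (fun i : Fin (l.length + 1) => if p ((a :: l).get i) then 1 else 0)
    have h' : (∑ i : Fin (a :: l).length, if p ((a :: l).get i) then 1 else 0) =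
      (if p a then 1 else 0) + ∑ i : Fin l.length, if p (l.get i) then 1 else 0 := h
    rw [h', add_comm]
    simp

/-- the parity of the route is the parity over the index set -/
theorem par_eq (e : P.D) : ρ.par e =
    (((Finset.univ.filter (fun i : ρ.Idx => ρ.dd i = e ∨ ρ.dd i = P.inv e)).card : ℕ) : ZMod 2) := by
  unfold par Poly.par
  rw [← Nat.cast_sum]
  congr 1
  rw [Finset.card_filter, Fintype.sum_sigma]
  refine Finset.sum_congr rfl fun j _ => ?_
  rw [F1a_count (ρ.W j) (fun a => a = e ∨ a = P.inv e), Finset.card_filter]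
  rfl

end Route

end QGd
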