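import Pool.Agent.Lib_MP_6b5565_dg.Q.Basic
import Pool.Agent.Lib_MP_6b5565_dg.Q.Angle

set_option linter.unusedSectionVars false

/-!
# Index sets: a transitive permutation of a finite set is `ZMod N` with `+ 1`; the parameter of a
point on an open edge; disjoint segments give `Chords`
-/

namespace QGd

open EuclideanGeometry Pool.Agent

theorem exists_index {ι : Type} [Fintype ι] [Nonempty ι] (nx : Equiv.Perm ι)
    (trans : ∀ a b : ι, ∃ n : ℕ, (⇑nx)^[n] a = b) :
    ∃ (N : ℕ) (_ : NeZero N) (φ : ZMod N → ι), Function.Bijective φ ∧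
      ∀ k, φ (k + 1) = nx (φ k) := by
  classical
  obtain ⟨a₀⟩ := ‹Nonempty ι›
  set p := Function.minimalPeriod (⇑nx) a₀ with hp
  have hper : a₀ ∈ Function.periodicPts (⇑nx) := by
    refine ⟨orderOf nx, orderOf_pos nx, ?_⟩
    show (⇑nx)^[orderOf nx] a₀ = a₀
    rw [← Equiv.Perm.coe_pow, pow_orderOf_eq_one]
    rfl
  have hpos : 0 < p := Function.minimalPeriod_pos_of_mem_periodicPts hper
  have hne : NeZero p := ⟨hpos.ne'⟩
  refine ⟨p, hne, fun k => (⇑nx)^[k.val] a₀, ⟨?_, ?_⟩, ?_⟩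
  · intro k k' h
    have h1 := Function.iterate_injOn_Iio_minimalPeriod (f := ⇑nx) (x := a₀)
      (Set.mem_Iio.2 (ZMod.val_lt k)) (Set.mem_Iio.2 (ZMod.val_lt k')) h
    exact ZMod.val_injective p h1
  · intro b
    obtain ⟨n, hn⟩ := trans a₀ b
    refine ⟨(n : ZMod p), ?_⟩
    show (⇑nx)^[((n : ZMod p)).val] a₀ = b
    rw [ZMod.val_natCast, Function.iterate_mod_minimalPeriod_eq, hn]
  · intro k
    show (⇑nx)^[(k + 1).val] a₀ = nx ((⇑nx)^[k.val] a₀)
    rw [ZMod.val_add, ZMod.val_one_eq_one_mod, Nat.add_mod_mod,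
      Function.iterate_mod_minimalPeriod_eq, Function.iterate_succ_apply']

namespace Poly

variable (P : Poly)

/-- parameter of a point of the edge of `d`, from the tail of `d` -/
noncomputable def prm (d : P.D) (p : E3) : ℝ := dist p (P.A d) / dist (P.A d) (P.B d)

theorem A_inv (d : P.D) : P.A (P.inv d) = P.B d := rfl

theorem B_inv (d : P.D) : P.B (P.inv d) = P.A d := by
  unfold B A
  rw [P.tail_eq_head_inv]

theorem dist_AB_pos (d : P.D) : 0 < dist (P.A d) (P.B d) := dist_pos.2 (P.A_ne_B d)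

theorem prm_of {d : P.D} {t : ℝ} (ht : 0 ≤ t) :
    P.prm d (P.A d + t • (P.B d - P.A d)) = t := by
  unfold prm
  have h1 : dist (P.A d + t • (P.B d - P.A d)) (P.A d) = t * dist (P.A d) (P.B d) := by
    rw [dist_eq_norm, add_sub_cancel_left, norm_smul, Real.norm_of_nonneg ht, dist_comm,
      dist_eq_norm]
  rw [h1]
  exact mul_div_cancel_right₀ _ (P.dist_AB_pos d).ne'

theorem prm_spec {d : P.D} {p : E3} (hp : p ∈ P.oseg d) :
    0 < P.prm d p ∧ P.prm d p < 1 ∧ p = P.A d + P.prm d p • (P.B d - P.A d) := by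
  obtain ⟨a, b, ha, hb, hab, rfl⟩ := hp
  have h1 : a • P.A d + b • P.B d = P.A d + b • (P.B d - P.A d) := by
    have : a = 1 - b := by linarith
    rw [this, sub_smul, smul_sub, one_smul]
    abel
  rw [h1, P.prm_of hb.le]
  exact ⟨hb, by linarith, rfl⟩

theorem prm_inv {d : P.D} {p : E3} (hp : p ∈ P.oseg d) : P.prm (P.inv d) p = 1 - P.prm d p := by
  obtain ⟨h1, h2, h3⟩ := P.prm_spec hp
  have h4 : p = P.A (P.inv d) + (1 - P.prm d p) • (P.B (P.inv d) - P.A (P.inv d)) := by
    rw [P.A_inv, P.B_inv]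
    conv_lhs => rw [h3]
    module
  conv_lhs => rw [h4]
  exact P.prm_of (by linarith)

theorem prm_lt_iff {d : P.D} {p q : E3} :
    P.prm d p < P.prm d q ↔ dist p (P.A d) < dist q (P.A d) := by
  unfold prm
  exact div_lt_div_iff_of_pos_right (P.dist_AB_pos d)

theorem prm_le_iff {d : P.D} {p q : E3} :
    P.prm d p ≤ P.prm d q ↔ dist p (P.A d) ≤ dist q (P.A d) := by
  unfold prm
  exact div_le_div_iff_of_pos_right (P.dist_AB_pos d)

theorem prm_inj {d : P.D} {p q : E3} (hp : p ∈ P.oseg d) (hq : q ∈ P.oseg d)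
    (h : P.prm d p = P.prm d q) : p = q := by
  rw [(P.prm_spec hp).2.2, (P.prm_spec hq).2.2, h]

theorem B_eq (d : P.D) : P.B d = P.A (P.nxt d) := by
  unfold B A
  rw [P.head_eq]

theorem B_prev (d : P.D) : P.B (P.prev d) = P.A d := by
  unfold B A
  rw [P.head_prev]

theorem B_nxt (d : P.D) : P.B (P.nxt d) = P.A (P.prev d) := by
  unfold B A
  rw [P.head_nxt]

/-- a point of the open edge of `prev d` seen from the corner `d` -/
theorem prev_spec {d : P.D} {p : E3} (hp : p ∈ P.oseg (P.prev d)) :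
    p = P.A d + (1 - P.prm (P.prev d) p) • (P.A (P.prev d) - P.A d) := by
  obtain ⟨h1, h2, h3⟩ := P.prm_spec hp
  conv_lhs => rw [h3]
  rw [P.B_prev, sub_smul, one_smul, smul_sub, smul_sub]
  abel

theorem nxt_spec {d : P.D} {p : E3} (hp : p ∈ P.oseg (P.nxt d)) :
    p = P.A d + (P.B d - P.A d) + P.prm (P.nxt d) p •
      ((P.A (P.prev d) - P.A d) - (P.B d - P.A d)) := by
  obtain ⟨h1, h2, h3⟩ := P.prm_spec hp
  conv_lhs => rw [h3]
  rw [P.B_nxt, ← P.B_eq]
  congr 1
  · abel
  · congr 1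
    abel

/-- two disjoint segments which cut off the same corner are nested -/
theorem disjoint_same {d : P.D} {a a' b b' : E3} (ha : a ∈ P.oseg d) (ha' : a' ∈ P.oseg (P.prev d))
    (hb : b ∈ P.oseg d) (hb' : b' ∈ P.oseg (P.prev d))
    (hd : Disjoint (segment ℝ a a') (segment ℝ b b')) (hab : P.prm d a < P.prm d b) :
    P.prm (P.prev d) b' < P.prm (P.prev d) a' := by
  by_contra hcon
  rw [not_lt] at hcon
  have e1 := P.prm_spec ha
  have e2 := P.prm_spec hb
  have e3 := P.prev_spec ha'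
  have e4 := P.prev_spec hb'
  have f1 := P.prm_spec ha'
  have f2 := P.prm_spec hb'
  rcases lt_or_eq_of_le hcon with h1 | h1
  · obtain ⟨x, hx1, hx2⟩ := SQd.cross_same (P.A d) (P.B d - P.A d) (P.A (P.prev d) - P.A d)
      e1.1 hab (t := 1 - P.prm (P.prev d) a') (t' := 1 - P.prm (P.prev d) b') (by linarith)
      (by linarith)
    rw [← e1.2.2, ← e3] at hx1
    rw [← e2.2.2, ← e4] at hx2
    exact Set.disjoint_left.1 hd hx1 hx2
  · have h2 : a' = b' := P.prm_inj ha' hb' h1
    exact Set.disjoint_left.1 hd (right_mem_segment ℝ a a') (h2 ▸ right_mem_segment ℝ b b')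

/-- two disjoint segments which cut off neighbouring corners -/
theorem disjoint_adj {d : P.D} {a a' b b' : E3} (ha : a ∈ P.oseg d) (ha' : a' ∈ P.oseg (P.prev d))
    (hb : b ∈ P.oseg d) (hb' : b' ∈ P.oseg (P.nxt d))
    (hd : Disjoint (segment ℝ a a') (segment ℝ b b')) :
    P.prm d a < P.prm d b := by
  by_contra hcon
  rw [not_lt] at hcon
  have e1 := P.prm_spec ha
  have e2 := P.prm_spec hb
  have e3 := P.prev_spec ha'
  have e4 := P.nxt_spec hb'
  have f1 := P.prm_spec ha'
  have f2 := P.prm_spec hb'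
  rcases lt_or_eq_of_le hcon with h1 | h1
  · obtain ⟨x, hx1, hx2⟩ := SQd.cross_adj (P.A d) (P.B d - P.A d) (P.A (P.prev d) - P.A d)
      (s := P.prm d a) (t := 1 - P.prm (P.prev d) a') (r := P.prm d b)
      (q := P.prm (P.nxt d) b') e2.1 h1 e1.2.1 (by linarith) (by linarith) f2.1 f2.2.1
    rw [← e1.2.2, ← e3] at hx1
    rw [← e2.2.2, ← e4] at hx2
    exact Set.disjoint_left.1 hd hx1 hx2
  · have h2 : b = a := P.prm_inj hb ha h1
    exact Set.disjoint_left.1 hd (left_mem_segment ℝ a a') (h2 ▸ left_mem_segment ℝ b b')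

section track

variable {N : ℕ} [NeZero N] (dd : ZMod N → P.D) (y : ZMod N → E3)

/-- parameters of the crossings -/
noncomputable def xprm (k : ZMod N) : ℝ := P.prm (dd k) (y k)

variable {dd y} (hop : ∀ k, y k ∈ P.oseg (dd k))
  (hstep : ∀ k, dd (k + 1) = P.inv (P.nxt (dd k)) ∨ dd (k + 1) = P.inv (P.nxt (P.nxt (dd k))))
  (hinj : Function.Injective y)
  (hdisj : ∀ i k, i ≠ k → P.SF (dd i) (dd k) →
    Disjoint (segment ℝ (y i) (y (i + 1))) (segment ℝ (y k) (y (k + 1))))

include hop in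
theorem on_oseg {d : P.D} {k : ZMod N} (h : SQd.On P.inv dd d k) : y k ∈ P.oseg d := by
  rcases h with h | h
  · rw [← h]; exact hop k
  · rw [← P.oseg_inv, ← h]; exact hop k

include hop in
theorem pp_eq {d : P.D} {k : ZMod N} (h : SQd.On P.inv dd d k) :
    SQd.pp dd (P.xprm dd y) d k = P.prm d (y k) := by
  unfold SQd.pp xprm
  by_cases h1 : dd k = d
  · rw [if_pos h1, h1]
  · rw [if_neg h1]
    have h2 : dd k = P.inv d := h.resolve_left h1
    have h3 := P.on_oseg hop h
    rw [h2, P.prm_inv h3]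
    ring

include hop hstep hinj hdisj in
theorem chords : SQd.Chords P.inv P.nxt dd (P.xprm dd y) where
  step := hstep
  inj := by
    intro d i j hi hj h
    rw [P.pp_eq hop hi, P.pp_eq hop hj] at h
    exact hinj (P.prm_inj (P.on_oseg hop hi) (P.on_oseg hop hj) h)
  nested := by
    intro d i j i' j' hc hc' h
    have oi : SQd.On P.inv dd d i := by
      rcases hc with ⟨h1, -, -⟩ | ⟨-, -, h1⟩
      · exact Or.inl h1
      · exact Or.inr h1
    have oj : SQd.On P.inv dd (P.prev d) j := by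
      rcases hc with ⟨-, -, h1⟩ | ⟨h1, -, -⟩
      · exact Or.inr h1
      · exact Or.inl h1
    have oi' : SQd.On P.inv dd d i' := by
      rcases hc' with ⟨h1, -, -⟩ | ⟨-, -, h1⟩
      · exact Or.inl h1
      · exact Or.inr h1
    have oj' : SQd.On P.inv dd (P.prev d) j' := by
      rcases hc' with ⟨-, -, h1⟩ | ⟨h1, -, -⟩
      · exact Or.inr h1
      · exact Or.inl h1
    have hii : i ≠ i' := by
      rintro rfl
      exact lt_irrefl _ h
    rw [P.pp_eq hop oi, P.pp_eq hop oi'] at h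
    show SQd.pp dd (P.xprm dd y) (P.prev d) j' < SQd.pp dd (P.xprm dd y) (P.prev d) j
    rw [P.pp_eq hop oj, P.pp_eq hop oj']
    refine P.disjoint_same (P.on_oseg hop oi) (P.on_oseg hop oj) (P.on_oseg hop oi')
      (P.on_oseg hop oj') ?_ h
    rcases hc with ⟨h1, h2, h3⟩ | ⟨h1, h2, h3⟩ <;> rcases hc' with ⟨h1', h2', h3'⟩ | ⟨h1', h2', h3'⟩
    · rw [h2, h2']
      exact hdisj i i' hii (by rw [h1, h1']; exact P.SF_refl _)
    · rw [h2, h2']
      have hne : i ≠ j' := by
        rintro rfl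
        exact P.prev_ne d (h1'.symm.trans h1)
      have := hdisj i j' hne (by rw [h1, h1']; exact P.SF_prev _)
      rw [segment_symm ℝ (y (j' + 1)) (y j')]
      exact this
    · rw [h2, h2']
      have hne : j ≠ i' := by
        rintro rfl
        exact P.prev_ne d (h1.symm.trans h1')
      have := hdisj j i' hne (by rw [h1, h1']; exact P.SF_symm (P.SF_prev _))
      rw [segment_symm ℝ (y (j + 1)) (y j)]
      exact this
    · rw [h2, h2']
      have hne : j ≠ j' := by
        rintro rfl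
        exact hii (h2.trans h2'.symm)
      have := hdisj j j' hne (by rw [h1, h1']; exact P.SF_refl _)
      rw [segment_symm ℝ (y (j + 1)) (y j), segment_symm ℝ (y (j' + 1)) (y j')]
      exact this
  sep := by
    intro d i j k l hc hc'
    have e3 : P.nxt (P.nxt (P.nxt d)) = d := P.nxt3 d
    unfold SQd.Cut at hc'
    rw [e3] at hc'
    have oi : SQd.On P.inv dd d i := by
      rcases hc with ⟨h1, -, -⟩ | ⟨-, -, h1⟩
      · exact Or.inl h1
      · exact Or.inr h1
    have oj : SQd.On P.inv dd (P.prev d) j := by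
      rcases hc with ⟨-, -, h1⟩ | ⟨h1, -, -⟩
      · exact Or.inr h1
      · exact Or.inl h1
    have ok : SQd.On P.inv dd (P.nxt d) k := by
      rcases hc' with ⟨h1, -, -⟩ | ⟨-, -, h1⟩
      · exact Or.inl h1
      · exact Or.inr h1
    have ol : SQd.On P.inv dd d l := by
      rcases hc' with ⟨-, -, h1⟩ | ⟨h1, -, -⟩
      · exact Or.inr h1
      · exact Or.inl h1
    rw [P.pp_eq hop oi, P.pp_eq hop ol]
    refine P.disjoint_adj (P.on_oseg hop oi) (P.on_oseg hop oj) (P.on_oseg hop ol)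
      (P.on_oseg hop ok) ?_
    rcases hc with ⟨h1, h2, h3⟩ | ⟨h1, h2, h3⟩ <;> rcases hc' with ⟨h1', h2', h3'⟩ | ⟨h1', h2', h3'⟩
    · rw [h2, h2']
      have hne : i ≠ k := by
        rintro rfl
        exact P.nxt_ne d (h1'.symm.trans h1)
      have := hdisj i k hne (by rw [h1, h1']; exact P.SF_nxt _)
      rw [segment_symm ℝ (y (k + 1)) (y k)]
      exact this
    · rw [h2, h2']
      have hne : i ≠ l := by
        rintro rfl
        rw [h2, ← h2', h3'] at h3
        exact P.prev_ne_nxt d (P.inv_injective h3).symm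
      have := hdisj i l hne (by rw [h1, h1']; exact P.SF_refl _)
      exact this
    · rw [h2, h2']
      have hne : j ≠ k := by
        rintro rfl
        exact P.prev_ne_nxt d (h1.symm.trans h1')
      have := hdisj j k hne (by rw [h1, h1']; exact P.SF_trans (P.SF_symm (P.SF_prev _)) (P.SF_nxt _))
      rw [segment_symm ℝ (y (j + 1)) (y j), segment_symm ℝ (y (k + 1)) (y k)]
      exact this
    · rw [h2, h2']
      have hne : j ≠ l := by
        rintro rfl
        exact P.prev_ne d (h1.symm.trans h1')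
      have := hdisj j l hne (by rw [h1, h1']; exact P.SF_symm (P.SF_prev _))
      rw [segment_symm ℝ (y (j + 1)) (y j)]
      exact this

end track

end Poly

end QGd
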