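import Pool.Agent.Lib_MP_6b5565_dg.Q.GenDefs
import Pool.Agent.Lib_MP_6b5565_dg.Q.Tri
import Pool.Agent.Lib_MP_6b5565_dg.Q.GBIndex

/-! [QG-G5] -/

set_option linter.unusedSectionVars false

namespace QGd

open EuclideanGeometry Pool.Agent

noncomputable section

namespace Poly

variable (P : Poly)

theorem A_ne_of_oseg {d : P.D} {a : E3} (ha : a ∈ P.oseg d) : P.A d ≠ a := by
  intro h
  obtain ⟨h1, h2, h3⟩ := P.prm_spec ha
  rw [← h] at h3
  have h4 : P.prm d (P.A d) = 0 := by
    unfold prm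
    rw [dist_self, zero_div]
  rw [← h, h4] at h1
  exact lt_irrefl _ h1

theorem angle_corner {d : P.D} {a a' : E3} (ha : a ∈ P.oseg d) (ha' : a' ∈ P.oseg (P.prev d)) :
    ∠ a (P.A d) a' = P.ang d := by
  obtain ⟨h1, h2, h3⟩ := P.prm_spec ha
  have h4 := P.prev_spec ha'
  obtain ⟨h5, h6, -⟩ := P.prm_spec ha'
  unfold ang
  rw [← P.B_eq]
  unfold EuclideanGeometry.angle
  have e1 : a -ᵥ P.A d = P.prm d a • (P.B d -ᵥ P.A d) := by
    simp only [vsub_eq_sub]
    conv_lhs => rw [h3]
    rw [add_sub_cancel_left]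
  have e2 : a' -ᵥ P.A d = (1 - P.prm (P.prev d) a') • (P.A (P.prev d) -ᵥ P.A d) := by
    simp only [vsub_eq_sub]
    conv_lhs => rw [h4]
    rw [add_sub_cancel_left]
  rw [e1, e2, InnerProductGeometry.angle_smul_left_of_pos _ _ h1,
    InnerProductGeometry.angle_smul_right_of_pos _ _ (by linarith)]

theorem corner_ne {d : P.D} {a a' : E3} (ha : a ∈ P.oseg d) (ha' : a' ∈ P.oseg (P.prev d)) :
    a ≠ a' := by
  intro h
  have h1 := P.angle_corner ha ha'
  rw [← h, EuclideanGeometry.angle_self_of_ne (P.A_ne_of_oseg ha).symm] at h1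
  have := P.ang_pos d
  linarith

theorem tau_corner {d : P.D} {a a' : E3} (ha : a ∈ P.oseg d) (ha' : a' ∈ P.oseg (P.prev d)) :
    ∠ a a' (P.A (P.prev d)) = ∠ a' a (P.A d) + P.ang d := by
  have h1 := P.angle_oseg ha' (P.corner_ne ha ha')
  rw [P.B_prev] at h1
  have h2 := EuclideanGeometry.angle_add_angle_add_angle_eq_pi (p₁ := a) (p₂ := P.A d) a'
    (P.A_ne_of_oseg ha)
  rw [P.angle_corner ha ha', EuclideanGeometry.angle_comm (P.A d) a' a] at h2
  linarith

section track

variable {N : ℕ} [NeZero N] (dd : ZMod N → P.D) (y : ZMod N → E3)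

/-- the angle at the crossing `i` in the face of `d`, towards the tail of `d` -/
def tau (d : P.D) (i : ZMod N) : ℝ :=
  if dd i = d then ∠ (y (i + 1)) (y i) (P.A d) else ∠ (y (i - 1)) (y i) (P.A d)

variable {dd y} (hop : ∀ k, y k ∈ P.oseg (dd k))
  (hstep : ∀ k, dd (k + 1) = P.inv (P.nxt (dd k)) ∨ dd (k + 1) = P.inv (P.nxt (P.nxt (dd k))))
  (hinj : Function.Injective y)
  (hdisj : ∀ i k, i ≠ k → P.SF (dd i) (dd k) →
    Disjoint (segment ℝ (y i) (y (i + 1))) (segment ℝ (y k) (y (k + 1))))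

include hop in
theorem tau_cut {d : P.D} {i j : ZMod N} (hc : SQd.Cut P.inv P.nxt dd d i j) :
    P.tau dd y (P.nxt (P.nxt d)) j = P.tau dd y d i + P.ang d := by
  have oi : SQd.On P.inv dd d i := by
    rcases hc with ⟨h1, -, -⟩ | ⟨-, -, h1⟩
    · exact Or.inl h1
    · exact Or.inr h1
  have oj : SQd.On P.inv dd (P.prev d) j := by
    rcases hc with ⟨-, -, h1⟩ | ⟨h1, -, -⟩
    · exact Or.inr h1
    · exact Or.inl h1
  have key := P.tau_corner (P.on_oseg hop oi) (P.on_oseg hop oj)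
  show P.tau dd y (P.prev d) j = P.tau dd y d i + P.ang d
  unfold tau
  rcases hc with ⟨h1, h2, h3⟩ | ⟨h1, h2, h3⟩
  · have h4 : ¬ dd j = P.prev d := by
      have : dd j = P.inv (P.prev d) := h3
      rw [this]
      exact P.inv_ne _
    rw [if_pos h1, if_neg h4]
    have h5 : j - 1 = i := by rw [h2]; ring
    rw [h5, ← h2]
    exact key
  · have h4 : ¬ dd i = d := by
      rw [h3]
      exact P.inv_ne _
    rw [if_pos (show dd j = P.prev d from h1), if_neg h4]
    have h5 : i - 1 = j := by rw [h2]; ring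
    rw [h5, ← h2]
    exact key

include hop hstep in
theorem y_ne (i : ZMod N) : y (i - 1) ≠ y i := by
  have h1 := hstep (i - 1)
  rw [sub_add_cancel] at h1
  have h2 := hop i
  have h3 := hop (i - 1)
  rcases h1 with h1 | h1
  · rw [h1, P.oseg_inv] at h2
    have h4 : P.oseg (P.prev (P.nxt (dd (i - 1)))) = P.oseg (dd (i - 1)) := by rw [P.prev_nxt]
    exact (P.corner_ne h2 (h4 ▸ h3)).symm
  · rw [h1, P.oseg_inv] at h2
    exact P.corner_ne h3 h2

include hop hstep hinj hdisj in
/-- Gauss-Bonnet for tracks indexed by `ZMod N` -/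
theorem track_gb {col : P.V → ZMod 2}
    (hcol : ∀ d, ((SQd.onF P.inv dd d).card : ZMod 2) = col (P.tail d) + col (P.tail (P.nxt d))) :
    ∃ lam : ZMod 2,
      (∀ i, SQd.pos P.inv dd (P.xprm dd y) (dd i) i = 0 → col (P.tail (dd i)) = lam) ∧
      (∀ i, SQd.pos P.inv dd (P.xprm dd y) (P.inv (dd i)) i = 0 →
        col (P.tail (P.inv (dd i))) = lam + 1) ∧
      ∑ i, (Real.pi - ∠ (y (i - 1)) (y i) (P.A (dd i)) - ∠ (y (i + 1)) (y i) (P.A (dd i))) =
        2 * Real.pi - P.K ∅ col lam := by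
  classical
  have hch := P.chords hop hstep hinj hdisj
  set x := P.xprm dd y with hx
  set lam : ZMod 2 := col (P.tail (dd 0)) + (SQd.pos P.inv dd x (dd 0) 0 : ZMod 2) with hlam
  have hnext : ∀ i, col (P.tail (dd i)) + (SQd.pos P.inv dd x (dd i) i : ZMod 2) = lam →
      col (P.tail (dd (i + 1))) + (SQd.pos P.inv dd x (dd (i + 1)) (i + 1) : ZMod 2) = lam := by
    intro i hi
    rcases hstep i with h1 | h1
    · have hc : SQd.Cut P.inv P.nxt dd (P.nxt (dd i)) (i + 1) i :=
        Or.inr ⟨by rw [P.nxt3], rfl, h1⟩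
      have h2 := SQd.Chords.tailcol_cut P.surf hch hcol hc lam
      have h3 := SQd.Chords.tailcol_inv P.surf hch hcol (SQd.Chords.cut_on P.surf hch hc) lam
      rw [P.nxt3] at h2
      rw [h1, h3, ← h2]
      exact hi
    · have hc : SQd.Cut P.inv P.nxt dd (dd i) i (i + 1) := Or.inl ⟨rfl, rfl, h1⟩
      have h2 := SQd.Chords.tailcol_cut P.surf hch hcol hc lam
      have h3 := SQd.Chords.tailcol_inv P.surf hch hcol (SQd.Chords.cut_on' P.surf hch hc) lam
      rw [h1, h3, h2, not_not]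
      exact hi
  have hk : ∀ k : ℕ, col (P.tail (dd (k : ZMod N))) +
      (SQd.pos P.inv dd x (dd (k : ZMod N)) (k : ZMod N) : ZMod 2) = lam := by
    intro k
    induction k with
    | zero => rw [hlam]; norm_num
    | succ k ih =>
        have := hnext _ ih
        push_cast
        exact this
  have hall : ∀ i, col (P.tail (dd i)) + (SQd.pos P.inv dd x (dd i) i : ZMod 2) = lam := by
    intro i
    have := hk i.val
    rwa [ZMod.natCast_zmod_val] at this
  refine ⟨lam, ?_, ?_, ?_⟩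
  · intro i hi
    have := hall i
    rw [hi] at this
    simpa using this
  · intro i hi
    have h1 := SQd.Chords.tailcol_inv P.surf hch hcol (d := dd i) (i := i) (Or.inl rfl) lam
    rw [hi] at h1
    have h2 : ¬ (col (P.tail (P.inv (dd i))) + ((0 : ℕ) : ZMod 2) = lam) := by
      rw [h1, not_not]
      exact hall i
    rw [Nat.cast_zero, add_zero] at h2
    revert h2
    generalize col (P.tail (P.inv (dd i))) = u
    generalize lam = w
    revert u w
    decide
  · have hgb := SQd.Chords.gauss_bonnet P.surf hch hcol P.euler P.ang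
      (fun d => P.ang_face d) (P.tau dd y) (fun d i j hc => P.tau_cut hop hc) lam
    have hbeta : ∀ i, SQd.beta P.inv P.tail dd x col lam (P.tau dd y) i =
        ∠ (y (i - 1)) (y i) (P.A (dd i)) + ∠ (y (i + 1)) (y i) (P.A (dd i)) := by
      intro i
      unfold SQd.beta
      rw [if_pos (hall i)]
      unfold tau
      rw [if_pos rfl, if_neg (fun h => P.inv_ne (dd i) h.symm), P.A_inv]
      have h1 := P.angle_oseg (hop i) (P.y_ne hop hstep i)
      linarith
    have hK : P.K ∅ col lam = ∑ v ∈ Finset.univ.filter (fun v => col v = lam),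
        (2 * Real.pi - ∑ d ∈ Finset.univ.filter (fun d => P.tail d = v), P.ang d) := by
      unfold K kap tot
      refine Finset.sum_congr ?_ (fun v _ => rfl)
      ext v
      simp
    have hsum : ∑ i, (Real.pi - ∠ (y (i - 1)) (y i) (P.A (dd i)) -
        ∠ (y (i + 1)) (y i) (P.A (dd i))) =
        N * Real.pi - ∑ i, SQd.beta P.inv P.tail dd x col lam (P.tau dd y) i := by
      rw [Finset.sum_congr rfl (fun i _ => hbeta i)]
      have h2 : ∀ i : ZMod N, Real.pi - ∠ (y (i - 1)) (y i) (P.A (dd i)) -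
          ∠ (y (i + 1)) (y i) (P.A (dd i)) = Real.pi - (∠ (y (i - 1)) (y i) (P.A (dd i)) +
          ∠ (y (i + 1)) (y i) (P.A (dd i))) := fun i => by ring
      rw [Finset.sum_congr rfl (fun i _ => h2 i), Finset.sum_sub_distrib, Finset.sum_const,
        Finset.card_univ, ZMod.card, nsmul_eq_mul]
    rw [hsum, hgb, hK]
    ring

end track

end Poly

namespace Gen

variable {P : Poly} {ι : Type} [Fintype ι] [DecidableEq ι] (g : Gen P ι)

/-- [QG-G5] GAUSS-BONNET for a simple closed track in general position -/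
theorem gauss_bonnet [Nonempty ι] {col : P.V → ZMod 2} (hcol : P.Col g.par col) :
    ∃ lam : ZMod 2,
      (∀ i, (∀ k, (g.d k = g.d i ∨ g.d k = P.inv (g.d i)) →
          dist (g.x i) (P.B (g.d i)) ≤ dist (g.x k) (P.B (g.d i))) → col (P.head (g.d i)) = lam) ∧
      (∀ i, (∀ k, (g.d k = g.d i ∨ g.d k = P.inv (g.d i)) →
          dist (g.x i) (P.A (g.d i)) ≤ dist (g.x k) (P.A (g.d i))) →
            col (P.tail (g.d i)) = lam + 1) ∧
      ∑ i, (Real.pi - ∠ (g.x (g.nx.symm i)) (g.x i) (P.B (g.d i)) -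
          ∠ (g.x (g.nx i)) (g.x i) (P.B (g.d i))) = 2 * Real.pi - P.K ∅ col lam := by
  classical
  obtain ⟨N, hN, φ, hφ, hφ1⟩ := exists_index g.nx g.trans
  set dd : ZMod N → P.D := fun k => P.inv (g.d (φ k)) with hdd
  set y : ZMod N → E3 := fun k => g.x (φ k) with hy
  have hop : ∀ k, y k ∈ P.oseg (dd k) := by
    intro k
    show g.x (φ k) ∈ P.oseg (P.inv (g.d (φ k)))
    rw [P.oseg_inv]
    exact g.op _
  have hstep : ∀ k, dd (k + 1) = P.inv (P.nxt (dd k)) ∨
      dd (k + 1) = P.inv (P.nxt (P.nxt (dd k))) := by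
    intro k
    show P.inv (g.d (φ (k + 1))) = P.inv (P.nxt (P.inv (g.d (φ k)))) ∨
      P.inv (g.d (φ (k + 1))) = P.inv (P.nxt (P.nxt (P.inv (g.d (φ k)))))
    rw [hφ1]
    rcases g.turn (φ k) with h | h
    · left; rw [h]
    · right; rw [h]; rfl
  have hinj : Function.Injective y := fun a b h => hφ.1 (g.inj h)
  have hdisj : ∀ i k, i ≠ k → P.SF (dd i) (dd k) →
      Disjoint (segment ℝ (y i) (y (i + 1))) (segment ℝ (y k) (y (k + 1))) := by
    intro i k hik hSF
    show Disjoint (segment ℝ (g.x (φ i)) (g.x (φ (i + 1))))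
      (segment ℝ (g.x (φ k)) (g.x (φ (k + 1))))
    rw [hφ1, hφ1]
    exact g.disj _ _ (fun h => hik (hφ.1 h)) hSF
  have hon : ∀ (d : P.D) (k : ZMod N), SQd.On P.inv dd d k ↔
      (g.d (φ k) = d ∨ g.d (φ k) = P.inv d) := by
    intro d k
    show (P.inv (g.d (φ k)) = d ∨ P.inv (g.d (φ k)) = P.inv d) ↔ _
    constructor
    · rintro (h | h)
      · right
        rw [← h, P.inv_inv]
      · left
        exact P.inv_injective h
    · rintro (h | h)
      · right
        rw [h]
      · left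
        rw [h, P.inv_inv]
  have hcard : ∀ d, ((SQd.onF P.inv dd d).card : ZMod 2) = g.par d := by
    intro d
    unfold par
    congr 1
    refine Finset.card_bij (fun k _ => φ k) ?_ ?_ ?_
    · intro k hk
      rw [SQd.mem_onF, hon] at hk
      rw [Finset.mem_filter]
      exact ⟨Finset.mem_univ _, hk⟩
    · intro a _ b _ h
      exact hφ.1 h
    · intro b hb
      rw [Finset.mem_filter] at hb
      obtain ⟨k, rfl⟩ := hφ.2 b
      exact ⟨k, by rw [SQd.mem_onF, hon]; exact hb.2, rfl⟩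
  have hcol' : ∀ d, ((SQd.onF P.inv dd d).card : ZMod 2) =
      col (P.tail d) + col (P.tail (P.nxt d)) := by
    intro d
    rw [hcard, ← P.head_eq]
    exact (hcol d).symm
  obtain ⟨lam, h1, h2, h3⟩ := P.track_gb hop hstep hinj hdisj hcol'
  have hpos : ∀ (d : P.D) (k : ZMod N), SQd.On P.inv dd d k →
      (∀ i, (g.d i = d ∨ g.d i = P.inv d) → dist (g.x (φ k)) (P.A d) ≤ dist (g.x i) (P.A d)) →
      SQd.pos P.inv dd (P.xprm dd y) d k = 0 := by
    intro d k hk h
    unfold SQd.pos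
    rw [Finset.card_eq_zero, Finset.filter_eq_empty_iff]
    intro j hj hlt
    rw [SQd.mem_onF] at hj
    rw [P.pp_eq hop hj, P.pp_eq hop hk, P.prm_lt_iff] at hlt
    exact absurd hlt (not_lt.2 (h (φ j) ((hon d j).1 hj)))
  refine ⟨lam, ?_, ?_, ?_⟩
  · intro i hi
    obtain ⟨k, rfl⟩ := hφ.2 i
    have h4 := h1 k (hpos (dd k) k (Or.inl rfl) ?_)
    · exact h4
    · intro j hj
      refine hi j ?_
      rcases hj with hj | hj
      · right
        exact hj
      · left
        rw [hj]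
        exact P.inv_inv _
  · intro i hi
    obtain ⟨k, rfl⟩ := hφ.2 i
    have e1 : P.inv (dd k) = g.d (φ k) := P.inv_inv _
    have h4 := h2 k
    rw [e1] at h4
    refine h4 (hpos (g.d (φ k)) k (Or.inr rfl) ?_)
    intro j hj
    exact hi j hj
  · rw [← h3]
    symm
    have e2 : ∀ k, g.nx.symm (φ k) = φ (k - 1) := by
      intro k
      rw [Equiv.symm_apply_eq, ← hφ1, sub_add_cancel]
    have e3 := hφ.sum_comp (fun i => Real.pi - ∠ (g.x (g.nx.symm i)) (g.x i) (P.B (g.d i)) -
      ∠ (g.x (g.nx i)) (g.x i) (P.B (g.d i)))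
    rw [← e3]
    refine Finset.sum_congr rfl (fun k _ => ?_)
    rw [e2, ← hφ1]
    rfl

end Gen

end

end QGd
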