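import Pool.Agent.Lib_MP_6b5565_dg.Q.H1

/-! 
# [QG-G] Simple closed tracks in general position

`Gen P ι` : closed track over the cycle `ι`, all points inside edges and different, no backtracking,
segments in the same face disjoint. It gives `Nrm` data, and the Gauss-Bonnet formula with real
angles.
 -/

namespace QGd

open EuclideanGeometry

noncomputable section

structure Gen (P : Poly) (ι : Type) where
  nx : Equiv.Perm ι
  trans : ∀ a b : ι, ∃ n : ℕ, (⇑nx)^[n] a = b
  d : ι → P.D
  x : ι → E3
  op : ∀ i, x i ∈ P.oseg (d i)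
  turn : ∀ i, d (nx i) = P.nxt (P.inv (d i)) ∨ d (nx i) = P.prev (P.inv (d i))
  inj : Function.Injective x
  disj : ∀ i k, i ≠ k → P.SF (P.inv (d i)) (P.inv (d k)) →
    Disjoint (segment ℝ (x i) (x (nx i))) (segment ℝ (x k) (x (nx k)))

namespace Gen

variable {P : Poly} {ι : Type} [Fintype ι] [DecidableEq ι] (g : Gen P ι)

/-- rank of crossing `i` on the edge of `c`, from the tail of `c` -/
def rk (c : P.D) (i : ι) : ℕ :=
  open Classical in
  (Finset.univ.filter (fun k => (g.d k = c ∨ g.d k = P.inv c) ∧
    dist (g.x k) (P.A c) < dist (g.x i) (P.A c))).card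

/-- parity vector -/
def par (e : P.D) : ZMod 2 :=
  (((Finset.univ.filter (fun k => g.d k = e ∨ g.d k = P.inv e)).card : ℕ) : ZMod 2)

end Gen

end

end QGd
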