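import Pool.Agent.Lib_MP_6b5565_dg.Q.CyDefs

/-! [QG-H3a] -/

namespace QGd

open EuclideanGeometry Filter Topology

namespace Route

variable {P : Poly} {m : ℕ} [NeZero m] {C : Cyc P m} (ρ : Route C)

private theorem h3a_near (a b : ℝ → E3) (ha : ContinuousAt a 0) (hb : ContinuousAt b 0) {δ : ℝ}
    (hδ : 0 < δ) : ∀ᶠ ε in 𝓝 (0 : ℝ),
      segment ℝ (a ε) (b ε) ⊆ Metric.thickening δ (segment ℝ (a 0) (b 0)) := by
  have h1 : ∀ᶠ ε in 𝓝 (0 : ℝ), dist (a ε) (a 0) < δ := Metric.tendsto_nhds.1 ha δ hδ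
  have h2 : ∀ᶠ ε in 𝓝 (0 : ℝ), dist (b ε) (b 0) < δ := Metric.tendsto_nhds.1 hb δ hδ
  filter_upwards [h1, h2] with ε h1 h2
  refine ((convex_segment (a 0) (b 0)).thickening δ).segment_subset ?_ ?_
  · exact Metric.mem_thickening_iff.2 ⟨a 0, left_mem_segment ℝ _ _, h1⟩
  · exact Metric.mem_thickening_iff.2 ⟨b 0, right_mem_segment ℝ _ _, h2⟩

private theorem h3a_compact (x y : E3) : IsCompact (segment ℝ x y) := by
  rw [segment_eq_image_lineMap]
  exact isCompact_Icc.image AffineMap.lineMap_continuous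

/-- [QG-H3a] segments with disjoint limits are disjoint for small `ε` (compactness; general fact
about segments with continuously moving end points) -/
theorem eventually_disjoint (a b c d : ℝ → E3) (ha : ContinuousAt a 0) (hb : ContinuousAt b 0)
    (hc : ContinuousAt c 0) (hd : ContinuousAt d 0)
    (h : Disjoint (segment ℝ (a 0) (b 0)) (segment ℝ (c 0) (d 0))) :
    ∀ᶠ ε in 𝓝[>] (0 : ℝ), Disjoint (segment ℝ (a ε) (b ε)) (segment ℝ (c ε) (d ε)) := by
  obtain ⟨δ, hδ, hdis⟩ := h.exists_thickenings (h3a_compact _ _) (h3a_compact _ _).isClosed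
  filter_upwards [nhdsWithin_le_nhds (h3a_near a b ha hb hδ),
    nhdsWithin_le_nhds (h3a_near c d hc hd hδ)] with ε h1 h2
  exact hdis.mono h1 h2

end Route

end QGd
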