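import Pool.Agent.Lib_MP_6b5565_dg.Q.Cocycle

/-!
# Order: disjoint chords in the faces give a curve in normal position
-/

open Finset

set_option linter.unusedSectionVars false

namespace Pool.Agent.SQd

section affine

variable {E : Type*} [AddCommGroup E] [Module ℝ E]

/-- two chords which cut off the same corner and are not nested meet -/
theorem cross_same (v u w : E) {s t s' t' : ℝ} (hs : 0 < s) (hss : s < s') (ht : 0 < t')
    (htt : t' < t) :
    ∃ x, x ∈ segment ℝ (v + s • u) (v + t • w) ∧ x ∈ segment ℝ (v + s' • u) (v + t' • w) := by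
  have hD : 0 < s' * t - s * t' := by nlinarith
  have hD' := hD.ne'
  -- weights: point (1 - a) (s, 0) + a (0, t) = (1 - b) (s', 0) + b (0, t')
  -- a t = b t', (1 - a) s = (1 - b) s'
  let a : ℝ := t' * (s' - s) / (s' * t - s * t')
  let b : ℝ := t * (s' - s) / (s' * t - s * t')
  have ha0 : 0 ≤ a := by
    apply div_nonneg _ hD.le
    nlinarith
  have hb0 : 0 ≤ b := by
    apply div_nonneg _ hD.le
    nlinarith
  have ha1 : a ≤ 1 := by
    rw [div_le_one hD]
    nlinarith
  have hb1 : b ≤ 1 := by
    rw [div_le_one hD]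
    nlinarith
  have h1 : a * t = b * t' := by
    simp only [a, b]
    field_simp
  have h2 : (1 - a) * s = (1 - b) * s' := by
    have h3 : b * s' - a * s = s' - s := by
      simp only [a, b]
      rw [div_mul_eq_mul_div, div_mul_eq_mul_div, ← sub_div, div_eq_iff hD']
      ring
    linarith
  refine ⟨v + ((1 - a) * s) • u + (a * t) • w, ⟨1 - a, a, by linarith, ha0, by ring, ?_⟩,
    ⟨1 - b, b, by linarith, hb0, by ring, ?_⟩⟩
  · module
  · rw [h1, h2]
    module

/-- chords which cut off two different corners and are not separated on the common side meet -/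
theorem cross_adj (v u w : E) {s t r q : ℝ} (hr : 0 < r) (hrs : r < s) (hs1 : s < 1)
    (ht0 : 0 < t) (ht1 : t < 1) (hq0 : 0 < q) (hq1 : q < 1) :
    ∃ x, x ∈ segment ℝ (v + s • u) (v + t • w) ∧
      x ∈ segment ℝ (v + r • u) (v + u + q • (w - u)) := by
  -- chord A: (s,0)-(0,t); chord B: (r,0)-(1-q,q)
  -- (1-a) s = (1-b) r + b (1-q), a t = b q
  -- f(x,y) = x/s + y/t - 1: f(r,0) = r/s - 1 < 0, f(1-q,q) = (1-q)/s + q/t - 1 > 0
  have hs0 : 0 < s := hr.trans hrs
  have hA : 0 < (1 - q) * (t * (1 - s)) + q * (s * (1 - t)) := by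
    have h1 : 0 < (1 - q) * (t * (1 - s)) := mul_pos (by linarith) (mul_pos ht0 (by linarith))
    have h2 : 0 < q * (s * (1 - t)) := mul_pos hq0 (mul_pos hs0 (by linarith))
    linarith
  have hB : 0 < t * ((1 - q) * (1 - r)) + r * q * (1 - t) := by
    have h1 : 0 < t * ((1 - q) * (1 - r)) := mul_pos ht0 (mul_pos (by linarith) (by linarith))
    have h2 : 0 < r * q * (1 - t) := mul_pos (mul_pos hr hq0) (by linarith)
    linarith
  have hts : 0 < t * (s - r) := mul_pos ht0 (by linarith)
  have hD : 0 < t * (1 - q) + s * q - t * r := by nlinarith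
  have hD' := hD.ne'
  let b : ℝ := t * (s - r) / (t * (1 - q) + s * q - t * r)
  have hb0 : 0 ≤ b := div_nonneg hts.le hD.le
  have hb1 : b ≤ 1 := by
    rw [div_le_one hD]
    nlinarith
  let a : ℝ := b * q / t
  have ha0 : 0 ≤ a := by
    apply div_nonneg _ ht0.le
    exact mul_nonneg hb0 hq0.le
  have ha1 : a ≤ 1 := by
    rw [div_le_one ht0]
    have h3 : b * q = t * (s - r) * q / (t * (1 - q) + s * q - t * r) := by
      simp only [b]
      ring
    rw [h3, div_le_iff₀ hD]
    have h5 : (s - r) * q ≤ t * (1 - q) + s * q - t * r := by nlinarith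
    calc t * (s - r) * q = t * ((s - r) * q) := by ring
      _ ≤ t * (t * (1 - q) + s * q - t * r) := mul_le_mul_of_nonneg_left h5 ht0.le
  have h1 : a * t = b * q := by
    simp only [a]
    field_simp
  have h2 : (1 - a) * s = (1 - b) * r + b * (1 - q) := by
    simp only [a, b]
    field_simp
    ring
  refine ⟨v + ((1 - a) * s) • u + (a * t) • w, ⟨1 - a, a, by linarith, ha0, by ring, ?_⟩,
    ⟨1 - b, b, by linarith, hb0, by ring, ?_⟩⟩
  · module
  · rw [h1, h2]
    module

end affine

section order

variable {D V : Type*} [Fintype D] [DecidableEq D] [Fintype V] [DecidableEq V]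
variable {N : ℕ} [NeZero N]

/-- crossing `i` lies on `d` -/
def On (inv : D → D) (dd : ZMod N → D) (d : D) (i : ZMod N) : Prop := dd i = d ∨ dd i = inv d

/-- parameter of the crossing `i` on `d`, from the tail of `d` -/
noncomputable def pp (dd : ZMod N → D) (x : ZMod N → ℝ) (d : D) (i : ZMod N) : ℝ :=
  if dd i = d then x i else 1 - x i

/-- the chord between the crossing `i` on `d` and the crossing `j` on the previous half-edge -/
def Cut (inv nxt : D → D) (dd : ZMod N → D) (d : D) (i j : ZMod N) : Prop :=
  (dd i = d ∧ j = i + 1 ∧ dd j = inv (nxt (nxt d))) ∨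
    (dd j = nxt (nxt d) ∧ i = j + 1 ∧ dd i = inv d)

/-- disjoint chords, in terms of the order of their end points -/
structure Chords (inv nxt : D → D) (dd : ZMod N → D) (x : ZMod N → ℝ) : Prop where
  step : ∀ i, dd (i + 1) = inv (nxt (dd i)) ∨ dd (i + 1) = inv (nxt (nxt (dd i)))
  inj : ∀ d i j, On inv dd d i → On inv dd d j → pp dd x d i = pp dd x d j → i = j
  nested : ∀ d i j i' j', Cut inv nxt dd d i j → Cut inv nxt dd d i' j' →
    pp dd x d i < pp dd x d i' → pp dd x (nxt (nxt d)) j' < pp dd x (nxt (nxt d)) j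
  sep : ∀ d i j k l, Cut inv nxt dd d i j → Cut inv nxt dd (nxt d) k l →
    pp dd x d i < pp dd x d l

open Classical in
/-- crossings on `d` -/
noncomputable def onF (inv : D → D) (dd : ZMod N → D) (d : D) : Finset (ZMod N) :=
  univ.filter (On inv dd d)

open Classical in
/-- crossings on `d` whose chord cuts off the corner at the tail of `d` -/
noncomputable def cutF (inv nxt : D → D) (dd : ZMod N → D) (d : D) : Finset (ZMod N) :=
  univ.filter fun i => ∃ j, Cut inv nxt dd d i j

open Classical in
/-- number of the crossings on `d` before the crossing `i` -/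
noncomputable def pos (inv : D → D) (dd : ZMod N → D) (x : ZMod N → ℝ) (d : D) (i : ZMod N) : ℕ :=
  ((onF inv dd d).filter fun j => pp dd x d j < pp dd x d i).card

open Classical in
/-- number of the crossings on `d` after the crossing `i` -/
noncomputable def sop (inv : D → D) (dd : ZMod N → D) (x : ZMod N → ℝ) (d : D) (i : ZMod N) : ℕ :=
  ((onF inv dd d).filter fun j => pp dd x d i < pp dd x d j).card

variable {inv nxt : D → D} {tail : D → V} {dd : ZMod N → D} {x : ZMod N → ℝ}

open Classical in
theorem mem_onF {d : D} {i : ZMod N} : i ∈ onF inv dd d ↔ On inv dd d i := by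
  unfold onF
  rw [mem_filter]
  simp

open Classical in
theorem mem_cutF {d : D} {i : ZMod N} : i ∈ cutF inv nxt dd d ↔ ∃ j, Cut inv nxt dd d i j := by
  unfold cutF
  rw [mem_filter]
  simp

namespace Chords

variable (hS : Surf inv nxt tail) (h : Chords inv nxt dd x)
include hS h

theorem inv_inj {a b : D} (hab : inv a = inv b) : a = b := by
  rw [← hS.inv_inv a, hab, hS.inv_inv]

theorem on_inv {d : D} {i : ZMod N} : On inv dd (inv d) i ↔ On inv dd d i := by
  unfold On
  rw [hS.inv_inv]
  exact or_comm

theorem cut_on {d : D} {i j : ZMod N} (hc : Cut inv nxt dd d i j) : On inv dd d i := by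
  rcases hc with ⟨h1, -, -⟩ | ⟨-, -, h1⟩
  · exact Or.inl h1
  · exact Or.inr h1

theorem cut_on' {d : D} {i j : ZMod N} (hc : Cut inv nxt dd d i j) :
    On inv dd (nxt (nxt d)) j := by
  rcases hc with ⟨-, -, h1⟩ | ⟨h1, -, -⟩
  · exact Or.inr h1
  · exact Or.inl h1

theorem type {d : D} {i : ZMod N} (hi : On inv dd d i) :
    (∃ j, Cut inv nxt dd d i j) ∨ ∃ k, Cut inv nxt dd (nxt d) k i := by
  rcases hi with h1 | h1
  · rcases h.step i with h2 | h2
    · right
      refine ⟨i + 1, Or.inr ⟨?_, rfl, ?_⟩⟩
      · rw [hS.nxt3, h1]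
      · rw [h2, h1]
    · left
      refine ⟨i + 1, Or.inl ⟨h1, rfl, ?_⟩⟩
      rw [h2, h1]
  · have h3 := h.step (i - 1)
    rw [sub_add_cancel, h1] at h3
    rcases h3 with h2 | h2
    · left
      refine ⟨i - 1, Or.inr ⟨?_, by ring, h1⟩⟩
      have h4 : d = nxt (dd (i - 1)) := inv_inj hS h h2
      rw [h4, hS.nxt3]
    · right
      refine ⟨i - 1, Or.inl ⟨?_, by ring, ?_⟩⟩
      · have h4 : d = nxt (nxt (dd (i - 1))) := inv_inj hS h h2
        rw [h4, hS.nxt3]
      · rw [hS.nxt3, h1]

theorem cut_right {d : D} {i j j' : ZMod N} (hc : Cut inv nxt dd d i j)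
    (hc' : Cut inv nxt dd d i j') : j = j' := by
  rcases hc with ⟨h1, h2, h3⟩ | ⟨h1, h2, h3⟩ <;> rcases hc' with ⟨h1', h2', h3'⟩ | ⟨h1', h2', h3'⟩
  · rw [h2, h2']
  · exact absurd (h3'.symm.trans h1) (hS.inv_ne d)
  · exact absurd (h3.symm.trans h1') (hS.inv_ne d)
  · exact add_right_cancel (h2.symm.trans h2')

theorem cut_left {d : D} {i i' j : ZMod N} (hc : Cut inv nxt dd d i j)
    (hc' : Cut inv nxt dd d i' j) : i = i' := by
  rcases hc with ⟨h1, h2, h3⟩ | ⟨h1, h2, h3⟩ <;> rcases hc' with ⟨h1', h2', h3'⟩ | ⟨h1', h2', h3'⟩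
  · exact add_right_cancel (h2.symm.trans h2')
  · exact absurd (h3.symm.trans h1') (hS.inv_ne _)
  · exact absurd (h3'.symm.trans h1) (hS.inv_ne _)
  · rw [h2, h2']

/-- the number of crossings of an edge -/
theorem card_on (d : D) : (onF inv dd d).card = (cutF inv nxt dd d).card +
    (cutF inv nxt dd (nxt d)).card := by
  classical
  have h1 : (cutF inv nxt dd (nxt d)).card =
      ((onF inv dd d).filter fun i => ∃ k, Cut inv nxt dd (nxt d) k i).card := by
    refine Finset.card_bij' (fun k _ => if hk : ∃ j, Cut inv nxt dd (nxt d) k j then hk.choose else k)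
      (fun i _ => if hi : ∃ k, Cut inv nxt dd (nxt d) k i then hi.choose else i) ?_ ?_ ?_ ?_
    · intro k hk
      rw [mem_cutF] at hk
      rw [dif_pos hk, mem_filter, mem_onF]
      have h2 := hk.choose_spec
      refine ⟨?_, k, h2⟩
      have h3 := cut_on' hS h h2
      rw [hS.nxt3] at h3
      exact h3
    · intro i hi
      rw [mem_filter] at hi
      rw [dif_pos hi.2, mem_cutF]
      exact ⟨i, hi.2.choose_spec⟩
    · intro k hk
      rw [mem_cutF] at hk
      have h2 := hk.choose_spec
      have h3 : ∃ k', Cut inv nxt dd (nxt d) k' hk.choose := ⟨k, h2⟩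
      simp only [dif_pos hk, dif_pos h3]
      exact cut_left hS h h3.choose_spec h2
    · intro i hi
      rw [mem_filter] at hi
      have h2 := hi.2.choose_spec
      have h3 : ∃ j, Cut inv nxt dd (nxt d) hi.2.choose j := ⟨i, h2⟩
      simp only [dif_pos hi.2, dif_pos h3]
      exact cut_right hS h h3.choose_spec h2
  have h2 : cutF inv nxt dd d =
      (onF inv dd d).filter fun i => ¬ ∃ k, Cut inv nxt dd (nxt d) k i := by
    ext i
    rw [mem_cutF, mem_filter, mem_onF]
    constructor
    · rintro ⟨j, hj⟩
      refine ⟨cut_on hS h hj, ?_⟩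
      rintro ⟨k, hk⟩
      exact lt_irrefl _ (h.sep d i j k i hj hk)
    · rintro ⟨h3, h4⟩
      rcases type hS h h3 with h5 | h5
      · exact h5
      · exact absurd h5 h4
  rw [h1, h2, add_comm, Finset.card_filter_add_card_filter_not]

theorem mm_eq (d : D) : mm nxt (fun d => (cutF inv nxt dd d).card) d = (onF inv dd d).card :=
  (card_on hS h d).symm

/-- before, after and the crossing itself -/
theorem pos_add_sop {d : D} {i : ZMod N} (hi : On inv dd d i) :
    pos inv dd x d i + sop inv dd x d i + 1 = (onF inv dd d).card := by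
  classical
  have h1 := Finset.card_filter_add_card_filter_not (s := onF inv dd d)
    (fun j => pp dd x d j < pp dd x d i)
  have h2 : (onF inv dd d).filter (fun j => ¬ pp dd x d j < pp dd x d i) =
      insert i ((onF inv dd d).filter fun j => pp dd x d i < pp dd x d j) := by
    ext j
    rw [mem_filter, mem_insert, mem_filter, mem_onF]
    constructor
    · rintro ⟨h3, h4⟩
      rcases lt_or_eq_of_le (not_lt.1 h4) with h5 | h5
      · exact Or.inr ⟨h3, h5⟩
      · exact Or.inl (h.inj d j i h3 hi h5.symm)
    · rintro (rfl | ⟨h3, h4⟩)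
      · exact ⟨hi, lt_irrefl _⟩
      · exact ⟨h3, not_lt.2 h4.le⟩
  rw [h2, Finset.card_insert_of_notMem] at h1
  · rw [← h1]
    unfold pos sop
    ring
  · rw [mem_filter]
    exact fun h3 => lt_irrefl _ h3.2

theorem pp_inv {d : D} {i : ZMod N} (hi : On inv dd d i) :
    pp dd x (inv d) i = 1 - pp dd x d i := by
  unfold pp
  rcases hi with h1 | h1
  · rw [if_neg (by rw [h1]; exact fun h2 => hS.inv_ne d h2.symm), if_pos h1]
  · rw [if_pos h1, if_neg (by rw [h1]; exact hS.inv_ne d)]
    ring

theorem onF_inv (d : D) : onF inv dd (inv d) = onF inv dd d := by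
  ext i
  rw [mem_onF, mem_onF, on_inv hS h]

theorem pos_inv {d : D} {i : ZMod N} (hi : On inv dd d i) :
    pos inv dd x (inv d) i = sop inv dd x d i := by
  unfold pos sop
  rw [onF_inv hS h]
  congr 1
  ext j
  rw [mem_filter, mem_filter, mem_onF]
  constructor
  · rintro ⟨h1, h2⟩
    rw [pp_inv hS h h1, pp_inv hS h hi] at h2
    exact ⟨h1, by linarith⟩
  · rintro ⟨h1, h2⟩
    rw [pp_inv hS h h1, pp_inv hS h hi]
    exact ⟨h1, by linarith⟩

theorem pos_lt_cut {d : D} {i j : ZMod N} (hc : Cut inv nxt dd d i j) :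
    pos inv dd x d i < (cutF inv nxt dd d).card := by
  classical
  unfold pos
  apply Finset.card_lt_card
  rw [Finset.ssubset_iff_of_subset]
  · refine ⟨i, mem_cutF.2 ⟨j, hc⟩, ?_⟩
    rw [mem_filter]
    exact fun h1 => lt_irrefl _ h1.2
  · intro l hl
    rw [mem_filter, mem_onF] at hl
    rw [mem_cutF]
    rcases type hS h hl.1 with h1 | ⟨k, hk⟩
    · exact h1
    · exact absurd (h.sep d i j k l hc hk) (not_lt.2 hl.2.le)

/-- the two ends of a chord have the same position, from the corner -/
theorem sop_cut {d : D} {i j : ZMod N} (hc : Cut inv nxt dd d i j) :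
    sop inv dd x (nxt (nxt d)) j = pos inv dd x d i := by
  classical
  unfold sop pos
  symm
  have key : ∀ i' j', Cut inv nxt dd d i' j' → (pp dd x d i' < pp dd x d i ↔
      pp dd x (nxt (nxt d)) j < pp dd x (nxt (nxt d)) j') := by
    intro i' j' hc'
    constructor
    · exact h.nested d i' j' i j hc' hc
    · intro h1
      by_contra h2
      rcases lt_or_eq_of_le (not_lt.1 h2) with h3 | h3
      · exact absurd (h.nested d i j i' j' hc hc' h3) (not_lt.2 h1.le)
      · have h4 : i = i' := h.inj d i i' (cut_on hS h hc) (cut_on hS h hc') h3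
        rw [← h4] at hc'
        have h5 := cut_right hS h hc hc'
        rw [h5] at h1
        exact lt_irrefl _ h1
  refine Finset.card_bij' (fun k _ => if hk : ∃ j, Cut inv nxt dd d k j then hk.choose else k)
      (fun i _ => if hi : ∃ k, Cut inv nxt dd d k i then hi.choose else i) ?_ ?_ ?_ ?_
  · intro k hk
    rw [mem_filter, mem_onF] at hk
    have hk' : ∃ j, Cut inv nxt dd d k j := by
      rcases type hS h hk.1 with h1 | ⟨l, hl⟩
      · exact h1
      · exact absurd (h.sep d i j l k hc hl) (not_lt.2 hk.2.le)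
    rw [dif_pos hk', mem_filter, mem_onF]
    have h2 := hk'.choose_spec
    exact ⟨cut_on' hS h h2, (key _ _ h2).1 hk.2⟩
  · intro l hl
    rw [mem_filter, mem_onF] at hl
    have hl' : ∃ k, Cut inv nxt dd d k l := by
      rcases type hS h hl.1 with ⟨m, hm⟩ | h1
      · have h2 := h.sep (nxt (nxt d)) l m i j hm (by rw [hS.nxt3]; exact hc)
        exact absurd h2 (not_lt.2 hl.2.le)
      · rw [hS.nxt3] at h1
        exact h1
    rw [dif_pos hl', mem_filter, mem_onF]
    have h2 := hl'.choose_spec
    exact ⟨cut_on hS h h2, (key _ _ h2).2 hl.2⟩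
  · intro k hk
    rw [mem_filter, mem_onF] at hk
    have hk' : ∃ j, Cut inv nxt dd d k j := by
      rcases type hS h hk.1 with h1 | ⟨l, hl⟩
      · exact h1
      · exact absurd (h.sep d i j l k hc hl) (not_lt.2 hk.2.le)
    have h2 := hk'.choose_spec
    have h3 : ∃ k', Cut inv nxt dd d k' hk'.choose := ⟨k, h2⟩
    simp only [dif_pos hk', dif_pos h3]
    exact cut_left hS h h3.choose_spec h2
  · intro l hl
    rw [mem_filter, mem_onF] at hl
    have hl' : ∃ k, Cut inv nxt dd d k l := by
      rcases type hS h hl.1 with ⟨m, hm⟩ | h1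
      · have h2 := h.sep (nxt (nxt d)) l m i j hm (by rw [hS.nxt3]; exact hc)
        exact absurd h2 (not_lt.2 hl.2.le)
      · rw [hS.nxt3] at h1
        exact h1
    have h2 := hl'.choose_spec
    have h3 : ∃ j, Cut inv nxt dd d hl'.choose j := ⟨l, h2⟩
    simp only [dif_pos hl', dif_pos h3]
    exact cut_right hS h h3.choose_spec h2

/-- every position is taken -/
theorem pos_surj {d : D} {k : ℕ} (hk : k < (onF inv dd d).card) :
    ∃ i, On inv dd d i ∧ pos inv dd x d i = k := by
  classical
  have h1 : ((onF inv dd d).image (pos inv dd x d)) = range (onF inv dd d).card := by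
    apply Finset.eq_of_subset_of_card_le
    · intro m hm
      rw [mem_image] at hm
      obtain ⟨i, hi, rfl⟩ := hm
      rw [mem_range]
      have := pos_add_sop hS h (mem_onF.1 hi)
      omega
    · rw [card_range, Finset.card_image_of_injOn]
      intro i hi j hj hij
      have hi' := mem_onF.1 hi
      have hj' := mem_onF.1 hj
      have hmono : ∀ a b, On inv dd d a → On inv dd d b → pp dd x d a < pp dd x d b →
          pos inv dd x d a < pos inv dd x d b := by
        intro a b ha hb hab
        unfold pos
        apply Finset.card_lt_card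
        rw [Finset.ssubset_iff_of_subset]
        · refine ⟨a, mem_filter.2 ⟨mem_onF.2 ha, hab⟩, ?_⟩
          rw [mem_filter]
          exact fun h1 => lt_irrefl _ h1.2
        · intro l hl
          rw [mem_filter] at hl ⊢
          exact ⟨hl.1, hl.2.trans hab⟩
      rcases lt_trichotomy (pp dd x d i) (pp dd x d j) with h2 | h2 | h2
      · exact absurd hij (hmono i j hi' hj' h2).ne
      · exact h.inj d i j hi' hj' h2
      · exact absurd hij.symm (hmono j i hj' hi' h2).ne
  have h2 : k ∈ (onF inv dd d).image (pos inv dd x d) := by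
    rw [h1, mem_range]
    exact hk
  rw [mem_image] at h2
  obtain ⟨i, hi, h3⟩ := h2
  exact ⟨i, mem_onF.1 hi, h3⟩

/-- **disjoint chords give a curve in normal position** -/
theorem curve {col : V → ZMod 2}
    (hcol : ∀ d, ((onF inv dd d).card : ZMod 2) = col (tail d) + col (tail (nxt d))) :
    Curve inv nxt tail (fun d => (cutF inv nxt dd d).card) col where
  inv_inv := hS.inv_inv
  inv_ne := hS.inv_ne
  nxt3 := hS.nxt3
  nxt_ne := hS.nxt_ne
  conn := hS.conn
  tail_rot := hS.tail_rot
  tail_surj := hS.tail_surj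
  sym := fun d => by rw [mm_eq hS h, mm_eq hS h, onF_inv hS h]
  colour := fun d => by
    rw [mm_eq hS h, hcol]
    have := z2_add_self (col (tail d))
    linear_combination -this
  cross := ⟨dd 0, by
    rw [mm_eq hS h]
    exact Finset.card_pos.2 ⟨0, mem_onF.2 (Or.inl rfl)⟩⟩
  one := by
    intro S hex hrev hcut1 hcut2
    simp only [mm_eq hS h] at hex hrev hcut1 hcut2 ⊢
    -- passing to the half-edge of the step
    have hA : ∀ d i, On inv dd d i → S d (pos inv dd x d i) →
        S (dd i) (pos inv dd x (dd i) i) := by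
      intro d i hi hSd
      rcases hi with h1 | h1
      · rw [h1]
        exact hSd
      · have hi : On inv dd d i := Or.inr h1
        have h2 := hrev d _ (by have := pos_add_sop hS h hi; omega) hSd
        have h3 := pos_add_sop hS h hi
        have h4 : (onF inv dd d).card - 1 - pos inv dd x d i = sop inv dd x d i := by omega
        rw [h4, ← pos_inv hS h hi] at h2
        rw [h1]
        exact h2
    have hA' : ∀ d i, On inv dd d i → S (dd i) (pos inv dd x (dd i) i) →
        S d (pos inv dd x d i) := by
      intro d i hi hSd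
      rcases hi with h1 | h1
      · rw [h1] at hSd
        exact hSd
      · have hi : On inv dd d i := Or.inr h1
        have hi' : On inv dd (inv d) i := (on_inv hS h).2 hi
        rw [h1] at hSd
        have h3 := pos_add_sop hS h hi'
        have h2 := hrev _ _ (by omega) hSd
        have h4 : (onF inv dd (inv d)).card - 1 - pos inv dd x (inv d) i =
            sop inv dd x (inv d) i := by omega
        rw [h4, ← pos_inv hS h hi', hS.inv_inv] at h2
        exact h2
    -- the next step
    have hB : ∀ i, S (dd i) (pos inv dd x (dd i) i) →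
        S (dd (i + 1)) (pos inv dd x (dd (i + 1)) (i + 1)) := by
      intro i hi
      have hon : On inv dd (dd i) i := Or.inl rfl
      rcases h.step i with h1 | h1
      · -- chord at the head
        have hc : Cut inv nxt dd (nxt (dd i)) (i + 1) i := Or.inr ⟨by rw [hS.nxt3], rfl, h1⟩
        have h2 := pos_lt_cut hS h hc
        have h3 := sop_cut hS h hc
        rw [hS.nxt3] at h3
        have h4 := pos_add_sop hS h hon
        have h5 := card_on hS h (dd i)
        have h6 := hcut2 (dd i) _ (by omega) (by omega) hi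
        have h7 : (onF inv dd (dd i)).card - 1 - pos inv dd x (dd i) i =
            pos inv dd x (nxt (dd i)) (i + 1) := by omega
        rw [h7] at h6
        exact hA _ _ (cut_on hS h hc) h6
      · have hc : Cut inv nxt dd (dd i) i (i + 1) := Or.inl ⟨rfl, rfl, h1⟩
        have h2 := pos_lt_cut hS h hc
        have h3 := sop_cut hS h hc
        have h4 := pos_add_sop hS h (cut_on' hS h hc)
        have h6 := hcut1 (dd i) _ h2 hi
        have h7 : (onF inv dd (nxt (nxt (dd i)))).card - 1 - pos inv dd x (dd i) i =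
            pos inv dd x (nxt (nxt (dd i))) (i + 1) := by omega
        rw [h7] at h6
        exact hA _ _ (cut_on' hS h hc) h6
    obtain ⟨d₀, k₀, hk₀, hS₀⟩ := hex
    obtain ⟨i₀, hi₀, hp₀⟩ := pos_surj hS h hk₀
    rw [← hp₀] at hS₀
    have hT₀ := hA _ _ hi₀ hS₀
    have hk : ∀ k : ℕ, S (dd (i₀ + (k : ZMod N))) (pos inv dd x (dd (i₀ + (k : ZMod N)))
        (i₀ + (k : ZMod N))) := by
      intro k
      induction k with
      | zero => simpa using hT₀
      | succ k ih =>
        have h1 := hB _ ih
        have h2 : i₀ + (k : ZMod N) + 1 = i₀ + ((k + 1 : ℕ) : ZMod N) := by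
          push_cast
          ring
        rw [h2] at h1
        exact h1
    have hall : ∀ i, S (dd i) (pos inv dd x (dd i) i) := by
      intro i
      have h1 := hk (i - i₀).val
      rw [ZMod.natCast_zmod_val, add_sub_cancel] at h1
      exact h1
    intro d k hkd
    obtain ⟨i, hi, hp⟩ := pos_surj hS h hkd
    rw [← hp]
    exact hA' _ _ hi (hall i)

/-- both sides of a simple track are discs -/
theorem disc (hE : 6 * Fintype.card V = Fintype.card D + 12) {col : V → ZMod 2}
    (hcol : ∀ d, ((onF inv dd d).card : ZMod 2) = col (tail d) + col (tail (nxt d)))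
    (c : ZMod 2) :
    6 * (univ.filter fun v => col v = c).card =
      (univ.filter fun d => col (tail d) + ((cutF inv nxt dd d).card : ZMod 2) = c).card + 6 :=
  (curve hS h hcol).main_eq hE c

/-- the colouring of a simple track exists -/
theorem exists_col (hE : 6 * Fintype.card V = Fintype.card D + 12) :
    ∃ col : V → ZMod 2,
      ∀ d, ((onF inv dd d).card : ZMod 2) = col (tail d) + col (tail (nxt d)) := by
  refine hS.exists_colour hE (fun d => ((onF inv dd d).card : ZMod 2))
    (fun d => by rw [onF_inv hS h]) (fun d => ?_)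
  simp only [card_on hS h, hS.nxt3]
  push_cast
  have h1 := z2_add_self ((cutF inv nxt dd d).card : ZMod 2)
  have h2 := z2_add_self ((cutF inv nxt dd (nxt d)).card : ZMod 2)
  have h3 := z2_add_self ((cutF inv nxt dd (nxt (nxt d))).card : ZMod 2)
  linear_combination h1 + h2 + h3

end Chords

end order

end Pool.Agent.SQd
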